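import Pool.Agent.Lib.AC0IP.Sens

/-!
# The block parity function (module Blocks)

`flip_allOdd`: flipping one bit of a block changes its parity: the set of the `j` with
`x (σ, j) = true` gains or loses exactly one element.
`card_allOdd`: injection of all inputs `x` into pairs (point of `AllOdd q m`, function
`(Fin q → Fin m) → Bool`): `x ↦ (x with the bit (σ, 0) flipped for all σ whose block is not
odd, b)`, `b σ = true` iff the block `σ` of `x` is not odd.
-/

namespace Pool.Agent.AC0IP

private theorem update_odd {m : ℕ} (u : Fin m → Bool) (j0 : Fin m) :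
    Odd (Finset.univ.filter (fun j => Function.update u j0 (!u j0) j = true)).card ↔
      ¬ Odd (Finset.univ.filter (fun j => u j = true)).card := by
  have key : ∀ v : Fin m → Bool, v j0 = true →
      (Finset.univ.filter (fun j => v j = true)).card =
      (Finset.univ.filter (fun j => Function.update v j0 false j = true)).card + 1 := by
    intro v hv
    have h1 : Finset.univ.filter (fun j => v j = true) =
        insert j0 (Finset.univ.filter (fun j => Function.update v j0 false j = true)) := by
      ext j
      simp only [Finset.mem_filter, Finset.mem_univ, true_and, Finset.mem_insert]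
      by_cases hj : j = j0
      · subst hj; simp [hv]
      · simp [hj]
    rw [h1, Finset.card_insert_of_notMem]
    simp
  rcases hb : u j0 with _ | _
  · have h := key (Function.update u j0 true) (by simp)
    rw [Function.update_idem] at h
    have h2 : Function.update u j0 false = u := by
      rw [← hb]; exact Function.update_eq_self j0 u
    rw [h2] at h
    simp only [Bool.not_false]
    rw [h, Nat.odd_add_one]
  · have h := key u hb
    simp only [Bool.not_true]
    rw [h, Nat.odd_add_one, not_not]

theorem flip_allOdd {q m : ℕ} (x : (Fin q → Fin m) × Fin m → Bool) (hx : x ∈ AllOdd q m)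
    (p : (Fin q → Fin m) × Fin m) : flip x p ∉ AllOdd q m := by
  obtain ⟨σ, j0⟩ := p
  intro h
  have h1 := h σ
  have h2 := hx σ
  unfold OddBlock at h1 h2
  have h3 : (fun j => flip x (σ, j0) (σ, j)) =
      Function.update (fun j => x (σ, j)) j0 (!x (σ, j0)) := by
    funext j
    unfold flip
    by_cases hj : j = j0
    · subst hj; simp
    · rw [Function.update_of_ne hj, Function.update_of_ne]
      intro e
      exact hj (Prod.mk.inj e).2
  have h4 := (update_odd (fun j => x (σ, j)) j0).1 (by
    rw [← h3]; exact h1)
  exact h4 h2

open Classical in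
theorem card_allOdd (q m : ℕ) (hm : 1 ≤ m) :
    2 ^ (m ^ (q + 1)) ≤
      (Finset.univ.filter (fun x => x ∈ AllOdd q m)).card * 2 ^ (m ^ q) := by
  let z : Fin m := ⟨0, hm⟩
  let fx : ((Fin q → Fin m) × Fin m → Bool) → ((Fin q → Fin m) × Fin m → Bool) := fun x p =>
    if p.2 = z ∧ ¬ OddBlock x p.1 then !x p else x p
  let b : ((Fin q → Fin m) × Fin m → Bool) → ((Fin q → Fin m) → Bool) := fun x σ =>
    decide (¬ OddBlock x σ)
  have h1 : ∀ x, fx x ∈ AllOdd q m := by
    intro x σ
    unfold OddBlock
    by_cases ho : OddBlock x σ
    · have e1 : (fun j => fx x (σ, j)) = fun j => x (σ, j) := by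
        funext j
        exact if_neg fun h => h.2 ho
      have e2 : (Finset.univ.filter (fun j => fx x (σ, j) = true)) =
          Finset.univ.filter (fun j => x (σ, j) = true) :=
        Finset.filter_congr fun j _ => by rw [congrFun e1 j]
      rw [e2]
      exact ho
    · have e1 : (fun j => fx x (σ, j)) =
          Function.update (fun j => x (σ, j)) z (!x (σ, z)) := by
        funext j
        by_cases hj : j = z
        · subst hj
          rw [Function.update_self]
          exact if_pos ⟨rfl, ho⟩
        · rw [Function.update_of_ne hj]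
          exact if_neg fun h => hj h.1
      have e2 : (Finset.univ.filter (fun j => fx x (σ, j) = true)) =
          Finset.univ.filter (fun j =>
            Function.update (fun j => x (σ, j)) z (!x (σ, z)) j = true) :=
        Finset.filter_congr fun j _ => by rw [congrFun e1 j]
      rw [e2]
      exact (update_odd (fun j => x (σ, j)) z).2 ho
  have h2 : ∀ x y, (fx x, b x) = (fx y, b y) → x = y := by
    intro x y h
    obtain ⟨h3, h4⟩ := Prod.mk.inj h
    funext p
    have h5 := congrFun h3 p
    have h6 : (OddBlock x p.1 ↔ OddBlock y p.1) := by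
      have h7 := congrFun h4 p.1
      simp only [b, decide_eq_decide] at h7
      exact not_iff_not.1 h7
    by_cases hp : p.2 = z ∧ ¬ OddBlock x p.1
    · have hp' : p.2 = z ∧ ¬ OddBlock y p.1 := ⟨hp.1, fun h => hp.2 (h6.2 h)⟩
      simp only [fx, if_pos hp, if_pos hp'] at h5
      exact Bool.not_inj h5
    · have hp' : ¬ (p.2 = z ∧ ¬ OddBlock y p.1) := fun h =>
        hp ⟨h.1, fun h' => h.2 (h6.1 h')⟩
      simp only [fx, if_neg hp, if_neg hp'] at h5
      exact h5
  have h3 := Finset.card_le_card_of_injOn (s := Finset.univ)
    (t := (Finset.univ.filter (fun x => x ∈ AllOdd q m)) ×ˢ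
      (Finset.univ : Finset ((Fin q → Fin m) → Bool))) (fun x => (fx x, b x))
    (fun x _ => Finset.mem_coe.2 (Finset.mem_product.2
      ⟨Finset.mem_filter.2 ⟨Finset.mem_univ _, h1 x⟩, Finset.mem_univ _⟩))
    (fun x _ y _ h => h2 x y h)
  rw [Finset.card_product, Finset.card_univ, Finset.card_univ, Fintype.card_fun,
    Fintype.card_fun, Fintype.card_prod, Fintype.card_fun, Fintype.card_fin, Fintype.card_fin,
    Fintype.card_bool] at h3
  rw [pow_succ m q]
  exact h3

end Pool.Agent.AC0IP
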