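import Mathlib

/-!
# Interactive proofs with constant-depth verifiers: definitions

`BF ι` is the type of Boolean functions of the input `x : ι → Bool`. Circuits have unbounded
fan-in; a circuit is a family of gates `g : Γ → BF ι` with a level function, every gate being the
OR or the AND of a set of functions each of which is a constant, a literal, or a gate of smaller
level or its negation.
-/

namespace Pool.Agent.AC0IP

/-- Boolean functions of an input `x : ι → Bool`. -/
abbrev BF (ι : Type) : Type := (ι → Bool) → Bool

/-- `f` is a constant or a literal (an input bit or the negation of an input bit). -/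
def IsLit {ι : Type} (f : BF ι) : Prop :=
  (∃ c : Bool, ∀ x, f x = c) ∨ ∃ (i : ι) (b : Bool), ∀ x, f x = xor (x i) b

/-- `g` is a circuit with gate set `Γ` and levels `lev`: every gate is the OR or the AND of a set
of functions, each being a constant, a literal, a gate of smaller level or the negation of a gate
of smaller level. -/
def IsCircuit {ι Γ : Type} (lev : Γ → ℕ) (g : Γ → BF ι) : Prop :=
  ∀ a : Γ, ∃ A : Set (BF ι),
    (∀ f ∈ A, IsLit f ∨ ∃ b : Γ, lev b < lev a ∧ ((∀ x, f x = g b x) ∨ ∀ x, f x = !g b x)) ∧
    ((∀ x, g a x = true ↔ ∃ f ∈ A, f x = true) ∨ (∀ x, g a x = true ↔ ∀ f ∈ A, f x = true))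

/-- `f` is a constant, a literal, a gate of the circuit `g`, or the negation of such a gate. -/
def IsOut {ι Γ : Type} (g : Γ → BF ι) (f : BF ι) : Prop :=
  IsLit f ∨ ∃ a : Γ, (∀ x, f x = g a x) ∨ ∀ x, f x = !g a x

/-- `f` is computed by a circuit with at most `S` gates and depth at most `d`. -/
def Computed {ι : Type} (S d : ℕ) (f : BF ι) : Prop :=
  ∃ (lev : Fin S → ℕ) (g : Fin S → BF ι), IsCircuit lev g ∧ (∀ a, lev a < d) ∧ IsOut g f

/-- A verifier of an interactive proof on inputs `x : ι → Bool`: a finite set `Coin` of equally
likely outcomes of its private coins; `len` rounds. In each round it sends the message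
`pub ω h`, which does not depend on the input, and the bit `ask ω h x`, where `h` is the list of
the answers of the prover so far (latest first); the prover answers with one bit. After `len`
rounds the verdict is `verdict ω h x`. -/
structure Verifier (ι : Type) where
  Coin : Type
  [fin : Fintype Coin]
  [ne : Nonempty Coin]
  Pub : Type
  len : ℕ
  pub : Coin → List Bool → Pub
  ask : Coin → List Bool → BF ι
  verdict : Coin → List Bool → BF ι

namespace Verifier

variable {ι : Type} (V : Verifier ι)

/-- A prover strategy: the next answer as a function of all messages received so far (latest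
first). -/
abbrev Prover : Type := List (V.Pub × Bool) → Bool

/-- The messages received by the prover `P` and its answers (both latest first) during the first
`k` rounds on input `x` when the coins of the verifier are `ω`. -/
def run (P : V.Prover) (ω : V.Coin) (x : ι → Bool) : ℕ → List (V.Pub × Bool) × List Bool
  | 0 => ([], [])
  | k + 1 =>
    ((V.pub ω (run P ω x k).2, V.ask ω (run P ω x k).2 x) :: (run P ω x k).1,
      P ((V.pub ω (run P ω x k).2, V.ask ω (run P ω x k).2 x) :: (run P ω x k).1) ::
        (run P ω x k).2)

/-- The verdict of the verifier with coins `ω` after the interaction with `P` on input `x`. -/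
def accepts (P : V.Prover) (ω : V.Coin) (x : ι → Bool) : Bool :=
  V.verdict ω (V.run P ω x V.len).2 x

/-- The probability over the coins that the verifier accepts after the interaction with `P`. -/
noncomputable def accProb (P : V.Prover) (x : ι → Bool) : ℝ :=
  (Nat.card {ω : V.Coin // V.accepts P ω x = true} : ℝ) / Nat.card V.Coin

/-- With provers restricted to the class `C` of strategies the verifier decides `L` with
completeness `c` and soundness error `s`. -/
def Decides (C : Set V.Prover) (L : Set (ι → Bool)) (c s : ℝ) : Prop :=
  (∀ x ∈ L, ∃ P ∈ C, c ≤ V.accProb P x) ∧ ∀ x ∉ L, ∀ P ∈ C, V.accProb P x ≤ s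

/-- For all coins and all answers of the prover, all bits of the messages that may depend on the
input and the verdict are computed, as functions of the input, by circuits with at most `S` gates
and depth at most `d`. -/
def Small (S d : ℕ) : Prop :=
  ∀ ω h, Computed S d (V.ask ω h) ∧ Computed S d (V.verdict ω h)

end Verifier

/-- Ordered clauses with `k` literals over the variables `Fin v`: a literal `(i, b)` is true
under the assignment `y` if `y i = b`. -/
abbrev Clause (k v : ℕ) : Type := Fin k → Fin v × Bool

/-- The `k`-CNF formula with the clauses `cl` such that `z cl = true` is satisfiable. -/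
def Satisfiable {k v : ℕ} (z : Clause k v → Bool) : Prop :=
  ∃ y : Fin v → Bool, ∀ cl : Clause k v, z cl = true → ∃ j, y (cl j).1 = (cl j).2

/-- The unsatisfiable `k`-CNF formulas with `v` variables. -/
def UNSAT (k v : ℕ) : Set (Clause k v → Bool) := {z | ¬ Satisfiable z}

/-- The satisfiable `k`-CNF formulas with `v` variables. -/
def SAT (k v : ℕ) : Set (Clause k v → Bool) := {z | Satisfiable z}

end Pool.Agent.AC0IP
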