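import Pool.Agent.Lib.AC0IP.Walk
import Pool.Agent.Lib.AC0IP.Defs

/-!
# Short walks give certificates (module Cert)

`off U x z` means that `z` and `x` agree outside `U`. `Good l h x U`: in the subcube of the
points `z` with `off U x z` the function `h` has at every point a certificate with fewer than `l`
variables.
`good_mono`: replace `C` by `C ∩ U'`. `good_lit`: `C := ∅` for a constant, `{i} ∩ U` for a literal.
`good_xor`: obvious.
`good_of_walk`: let `z` be a point of the subcube, `W := walk L z l U`; take `C := U \ W`, so
`C.card < l` by `hw`. There is `k < l` with `newV L z (walk L z k U) = ∅` (otherwise each of the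
first `l` steps removes at least one element and `(U \ W).card ≥ l`; note that
`walk L z (k+1) U = walk L z k U \ newV L z (walk L z k U)`, by induction), then
`walk L z j U = walk L z k U` for all `j ≥ k`, so `W = walk L z k U` and `newV L z W = ∅`.
Let `z'` agree with `z` outside `U \ C = W`. If some term of `L` is not falsified by `z` outside
`W`, the first such term `T` has `T.1 ∩ W = ∅`, so `z` and `z'` satisfy `T` and `h z = h z' = true`
by `hsound`. Otherwise `h z = h z' = false`, because by `hcov` a point with `h = true` satisfies a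
term of `L`, which then is not falsified by `z` outside `W`.
-/

namespace Pool.Agent.AC0IP

variable {ι : Type} [DecidableEq ι]

/-- `z` and `x` agree outside `U`. -/
def off (U : Finset ι) (x z : ι → Bool) : Prop := ∀ i, i ∉ U → z i = x i

/-- In the subcube of all points agreeing with `x` outside `U`, the function `h` has at every
point a certificate with fewer than `l` variables. -/
def Good (l : ℕ) (h : BF ι) (x : ι → Bool) (U : Finset ι) : Prop :=
  ∀ z, off U x z → ∃ C ⊆ U, C.card < l ∧ ∀ z', off (U \ C) z z' → h z' = h z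

theorem good_mono (l : ℕ) (h : BF ι) (x : ι → Bool) (U U' : Finset ι) (hU : U' ⊆ U)
    (hg : Good l h x U) : Good l h x U' := by
  intro z hz
  obtain ⟨C, hCU, hCl, hC⟩ := hg z fun i hi => hz i fun h => hi (hU h)
  refine ⟨C ∩ U', Finset.inter_subset_right,
    lt_of_le_of_lt (Finset.card_le_card Finset.inter_subset_left) hCl, fun z' hz' => hC z' ?_⟩
  intro i hi
  refine hz' i fun h => hi ?_
  rw [Finset.mem_sdiff, Finset.mem_inter] at h
  rw [Finset.mem_sdiff]
  exact ⟨hU h.1, fun hiC => h.2 ⟨hiC, h.1⟩⟩

theorem good_lit (l : ℕ) (hl : 2 ≤ l) (h : BF ι) (hh : IsLit h) (x : ι → Bool) (U : Finset ι) :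
    Good l h x U := by
  intro z hz
  rcases hh with ⟨c, hc⟩ | ⟨i, b, hb⟩
  · exact ⟨∅, Finset.empty_subset _, by simp; omega, fun z' _ => by rw [hc, hc]⟩
  · refine ⟨{i} ∩ U, Finset.inter_subset_right, ?_, fun z' hz' => ?_⟩
    · refine lt_of_le_of_lt (Finset.card_le_card Finset.inter_subset_left) ?_
      rw [Finset.card_singleton]
      omega
    · have h1 : z' i = z i := by
        refine hz' i fun h => ?_
        rw [Finset.mem_sdiff, Finset.mem_inter, Finset.mem_singleton] at h
        exact h.2 ⟨rfl, h.1⟩
      rw [hb, hb, h1]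

theorem good_xor (l : ℕ) (h h' : BF ι) (b : Bool) (hh : ∀ x, h' x = xor (h x) b)
    (x : ι → Bool) (U : Finset ι) (hg : Good l h x U) : Good l h' x U := by
  intro z hz
  obtain ⟨C, hCU, hCl, hC⟩ := hg z hz
  exact ⟨C, hCU, hCl, fun z' hz' => by rw [hh, hh, hC z' hz']⟩

private theorem cert_succ (L : List (Term ι)) (z : ι → Bool) (k : ℕ) (U : Finset ι) :
    walk L z (k + 1) U = walk L z k U \ newV L z (walk L z k U) := by
  induction k generalizing U with
  | zero => rfl
  | succ k ih =>
    have h1 : walk L z (k + 1 + 1) U = walk L z (k + 1) (U \ newV L z U) := rfl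
    have h2 : walk L z (k + 1) U = walk L z k (U \ newV L z U) := rfl
    rw [h1, ih, ← h2]

private theorem cert_new (L : List (Term ι)) (z : ι → Bool) (l : ℕ) (U : Finset ι)
    (hw : (U \ walk L z l U).card < l) : newV L z (walk L z l U) = ∅ := by
  have hex : ∃ k, k < l ∧ newV L z (walk L z k U) = ∅ := by
    by_contra hcon
    push Not at hcon
    have key : ∀ k, k ≤ l → k ≤ (U \ walk L z k U).card := by
      intro k
      induction k with
      | zero => intro _; exact Nat.zero_le _
      | succ k ih =>
        intro hk
        have h1 := ih (by omega)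
        obtain ⟨i, hi⟩ := hcon k (by omega)
        have hiW : i ∈ walk L z k U := newV_subset L z _ hi
        have h2 : U \ walk L z k U ⊂ U \ walk L z (k + 1) U := by
          rw [Finset.ssubset_iff_of_subset]
          · refine ⟨i, ?_, ?_⟩
            · rw [Finset.mem_sdiff, cert_succ, Finset.mem_sdiff]
              exact ⟨walk_subset L z k U hiW, fun h => h.2 hi⟩
            · rw [Finset.mem_sdiff]
              exact fun h => h.2 hiW
          · refine Finset.sdiff_subset_sdiff (Finset.Subset.refl _) ?_
            rw [cert_succ]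
            exact Finset.sdiff_subset
        have h3 := Finset.card_lt_card h2
        omega
    have h4 := key l le_rfl
    omega
  obtain ⟨k, hk, hk0⟩ := hex
  have hst : ∀ j, k ≤ j → walk L z j U = walk L z k U := by
    intro j hj
    induction j, hj using Nat.le_induction with
    | base => rfl
    | succ j _ ih => rw [cert_succ, ih, hk0, Finset.sdiff_empty]
  rw [hst l hk.le]
  exact hk0

theorem good_of_walk (l : ℕ) (h : BF ι) (x : ι → Bool) (U : Finset ι) (L : List (Term ι))
    (hsound : ∀ T ∈ L, ∀ z, off U x z → (∀ i ∈ T.1, z i = T.2 i) → h z = true)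
    (hcov : ∀ z, off U x z → h z = true → ∃ T ∈ L, ∀ i ∈ T.1, z i = T.2 i)
    (hw : ∀ z, off U x z → (U \ walk L z l U).card < l) : Good l h x U := by
  intro z hz
  have hWU : walk L z l U ⊆ U := walk_subset L z l U
  have hnew := cert_new L z l U (hw z hz)
  refine ⟨U \ walk L z l U, Finset.sdiff_subset, hw z hz, fun z' hz' => ?_⟩
  rw [Finset.sdiff_sdiff_eq_self hWU] at hz'
  have hoff : off U x z' := fun i hi => by
    rw [hz' i fun h => hi (hWU h)]
    exact hz i hi
  unfold newV tm at hnew
  cases hf : L.find? (fun T => decide (∀ i ∈ T.1, i ∉ walk L z l U → z i = T.2 i)) with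
  | some T =>
    rw [hf] at hnew
    have hnew' : T.1 ∩ walk L z l U = ∅ := hnew
    have hTL : T ∈ L := List.mem_of_find?_eq_some hf
    have hT := List.find?_some hf
    rw [decide_eq_true_eq] at hT
    have hTW : ∀ i ∈ T.1, i ∉ walk L z l U := by
      intro i hi hiW
      have h1 : i ∈ T.1 ∩ walk L z l U := Finset.mem_inter.2 ⟨hi, hiW⟩
      rw [hnew'] at h1
      exact Finset.notMem_empty _ h1
    have hz1 : ∀ i ∈ T.1, z i = T.2 i := fun i hi => hT i hi (hTW i hi)
    rw [hsound T hTL z hz hz1, hsound T hTL z' hoff fun i hi => by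
      rw [hz' i (hTW i hi), hz1 i hi]]
  | none =>
    have hnone : ∀ T ∈ L, ¬ ∀ i ∈ T.1, i ∉ walk L z l U → z i = T.2 i := by
      intro T hT
      have h1 := List.find?_eq_none.1 hf T hT
      rwa [decide_eq_true_eq] at h1
    have h1 : h z = false := by
      by_contra hc
      rw [Bool.not_eq_false] at hc
      obtain ⟨T, hT, hTz⟩ := hcov z hz hc
      exact hnone T hT fun i hi _ => hTz i hi
    have h2 : h z' = false := by
      by_contra hc
      rw [Bool.not_eq_false] at hc
      obtain ⟨T, hT, hTz⟩ := hcov z' hoff hc
      exact hnone T hT fun i hi hiW => by rw [← hz' i hiW, hTz i hi]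
    rw [h1, h2]

end Pool.Agent.AC0IP
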