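import Mathlib

/-!
# Characters of the cube
-/

namespace Pool.Agent.AC0IP

variable {ι : Type} [Fintype ι] [DecidableEq ι]

/-- The character with index `S`. -/
def chi (S : Finset ι) (x : ι → Bool) : ℝ := ∏ i ∈ S, (if x i = true then (-1 : ℝ) else 1)

/-- The (not normalised) Fourier coefficient. -/
def co (g : (ι → Bool) → ℝ) (S : Finset ι) : ℝ := ∑ x : ι → Bool, g x * chi S x

omit [Fintype ι] [DecidableEq ι] in
theorem chi_sq (S : Finset ι) (x : ι → Bool) : chi S x * chi S x = 1 := by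
  unfold chi
  rw [← Finset.prod_mul_distrib]
  apply Finset.prod_eq_one
  intro i _
  split_ifs <;> norm_num

omit [DecidableEq ι] in
theorem chi_orth (x y : ι → Bool) :
    ∑ S : Finset ι, chi S x * chi S y = if x = y then 2 ^ Fintype.card ι else 0 := by
  have h1 : ∀ S : Finset ι, chi S x * chi S y =
      ∏ i ∈ S, ((if x i = true then (-1 : ℝ) else 1) * (if y i = true then (-1 : ℝ) else 1)) := by
    intro S
    unfold chi
    rw [Finset.prod_mul_distrib]
  simp_rw [h1]
  have h2 := Finset.prod_one_add (s := (Finset.univ : Finset ι))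
    (f := fun i => (if x i = true then (-1 : ℝ) else 1) * (if y i = true then (-1 : ℝ) else 1))
  rw [Finset.powerset_univ] at h2
  rw [← h2]
  split_ifs with h
  · subst h
    rw [← Finset.card_univ, ← Finset.prod_const]
    apply Finset.prod_congr rfl
    intro i _
    split_ifs <;> norm_num
  · obtain ⟨i, hi⟩ := Function.ne_iff.mp h
    apply Finset.prod_eq_zero (Finset.mem_univ i)
    rcases hx : x i with _ | _ <;> rcases hy : y i with _ | _ <;> simp_all

theorem parseval (g : (ι → Bool) → ℝ) :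
    ∑ S : Finset ι, (co g S) ^ 2 = 2 ^ Fintype.card ι * ∑ x : ι → Bool, (g x) ^ 2 := by
  have h1 : ∀ S : Finset ι, (co g S) ^ 2 =
      ∑ x : ι → Bool, ∑ y : ι → Bool, g x * g y * (chi S x * chi S y) := by
    intro S
    unfold co
    rw [sq, Finset.sum_mul_sum]
    apply Finset.sum_congr rfl
    intro x _
    apply Finset.sum_congr rfl
    intro y _
    ring
  simp_rw [h1]
  rw [Finset.sum_comm]
  rw [Finset.mul_sum]
  apply Finset.sum_congr rfl
  intro x _
  rw [Finset.sum_comm]
  have h2 : ∀ y : ι → Bool, ∑ S : Finset ι, g x * g y * (chi S x * chi S y) =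
      if x = y then g x * g y * 2 ^ Fintype.card ι else 0 := by
    intro y
    rw [← Finset.mul_sum, chi_orth]
    split_ifs <;> simp
  simp_rw [h2]
  rw [Finset.sum_ite_eq]
  simp only [Finset.mem_univ, if_true]
  ring

theorem co_compl (g : (ι → Bool) → ℝ) (e : ℝ)
    (hg : ∀ x, g x ≠ 0 → chi Finset.univ x = e) (S : Finset ι) : co g Sᶜ = e * co g S := by
  unfold co
  rw [Finset.mul_sum]
  apply Finset.sum_congr rfl
  intro x _
  by_cases h : g x = 0
  · rw [h]; ring
  · have h1 : chi S x * chi Sᶜ x = chi Finset.univ x := by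
      unfold chi
      exact Finset.prod_mul_prod_compl S _
    have h2 := hg x h
    have h3 := chi_sq S x
    calc g x * chi Sᶜ x = g x * ((chi S x * chi S x) * chi Sᶜ x) := by rw [h3, one_mul]
      _ = g x * (chi S x * (chi S x * chi Sᶜ x)) := by ring
      _ = g x * (chi S x * e) := by rw [h1, h2]
      _ = e * (g x * chi S x) := by ring

theorem high_half (g : (ι → Bool) → ℝ) (e : ℝ) (he : e ^ 2 = 1)
    (hg : ∀ x, g x ≠ 0 → chi Finset.univ x = e) :
    ∑ S : Finset ι, (co g S) ^ 2 ≤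
      2 * ∑ S ∈ Finset.univ.filter (fun S : Finset ι => Fintype.card ι ≤ 2 * S.card),
        (co g S) ^ 2 := by
  have hc : ∀ S : Finset ι, (co g Sᶜ) ^ 2 = (co g S) ^ 2 := by
    intro S
    rw [co_compl g e hg S, mul_pow, he, one_mul]
  have h1 : ∑ S ∈ Finset.univ.filter (fun S : Finset ι => ¬ (Fintype.card ι ≤ 2 * S.card)),
      (co g S) ^ 2 ≤
      ∑ S ∈ Finset.univ.filter (fun S : Finset ι => Fintype.card ι ≤ 2 * S.card),
        (co g S) ^ 2 := by
    have h2 : ∑ S ∈ Finset.univ.filter (fun S : Finset ι => ¬ (Fintype.card ι ≤ 2 * S.card)),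
        (co g S) ^ 2 =
        ∑ S ∈ (Finset.univ.filter
          (fun S : Finset ι => ¬ (Fintype.card ι ≤ 2 * S.card))).image (fun S => Sᶜ),
          (co g S) ^ 2 := by
      rw [Finset.sum_image]
      · apply Finset.sum_congr rfl
        intro S _
        rw [hc]
      · intro a _ b _ hab
        exact compl_injective hab
    rw [h2]
    apply Finset.sum_le_sum_of_subset_of_nonneg
    · intro S hS
      rw [Finset.mem_image] at hS
      obtain ⟨T, hT, rfl⟩ := hS
      rw [Finset.mem_filter] at hT ⊢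
      refine ⟨Finset.mem_univ _, ?_⟩
      have h3 := Finset.card_compl T
      have h4 := Finset.card_le_univ T
      omega
    · intro S _ _
      positivity
  have h2 := Finset.sum_filter_add_sum_filter_not (Finset.univ : Finset (Finset ι))
    (fun S : Finset ι => Fintype.card ι ≤ 2 * S.card) (fun S => (co g S) ^ 2)
  linarith

theorem sq_sum_le {J : Type} [Fintype J] (a c : J → ℝ) :
    (∑ j, a j * c j) ^ 2 ≤ (∑ j, |a j|) * ∑ j, |a j| * c j ^ 2 := by
  have h := Finset.sum_mul_sq_le_sq_mul_sq (Finset.univ : Finset J)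
    (fun j => Real.sqrt |a j|) (fun j => Real.sqrt |a j| * |c j|)
  have h1 : ∀ j, Real.sqrt |a j| * (Real.sqrt |a j| * |c j|) = |a j| * |c j| := by
    intro j
    rw [← mul_assoc, Real.mul_self_sqrt (abs_nonneg _)]
  have h2 : ∀ j, (Real.sqrt |a j|) ^ 2 = |a j| := fun j => Real.sq_sqrt (abs_nonneg _)
  have h3 : ∀ j, (Real.sqrt |a j| * |c j|) ^ 2 = |a j| * c j ^ 2 := by
    intro j
    rw [mul_pow, h2, sq_abs]
  simp_rw [h1, h2, h3] at h
  refine le_trans ?_ h
  have h4 : |∑ j, a j * c j| ≤ ∑ j, |a j| * |c j| := by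
    refine (Finset.abs_sum_le_sum_abs _ _).trans (le_of_eq ?_)
    apply Finset.sum_congr rfl
    intro j _
    exact abs_mul _ _
  rw [← sq_abs (∑ j, a j * c j)]
  exact pow_le_pow_left₀ (abs_nonneg _) h4 2

theorem co_sum_sq {J : Type} [Fintype J] (a : J → ℝ) (g : J → (ι → Bool) → ℝ)
    (G : Finset (Finset ι)) (A w : ℝ) (hw0 : 0 ≤ w) (hA : ∑ j, |a j| ≤ A)
    (hw : ∀ j, ∑ S ∈ G, (co (g j) S) ^ 2 ≤ w) :
    ∑ S ∈ G, (co (fun x => ∑ j, a j * g j x) S) ^ 2 ≤ A ^ 2 * w := by
  have hA0 : 0 ≤ ∑ j, |a j| := Finset.sum_nonneg (fun j _ => abs_nonneg _)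
  have h1 : ∀ S : Finset ι, co (fun x => ∑ j, a j * g j x) S = ∑ j, a j * co (g j) S := by
    intro S
    unfold co
    simp_rw [Finset.sum_mul, Finset.mul_sum]
    rw [Finset.sum_comm]
    apply Finset.sum_congr rfl
    intro j _
    apply Finset.sum_congr rfl
    intro x _
    ring
  have h2 : ∑ S ∈ G, (co (fun x => ∑ j, a j * g j x) S) ^ 2 ≤
      ∑ S ∈ G, (∑ j, |a j|) * ∑ j, |a j| * (co (g j) S) ^ 2 := by
    apply Finset.sum_le_sum
    intro S _
    rw [h1]
    exact sq_sum_le _ _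
  refine h2.trans ?_
  rw [← Finset.mul_sum, Finset.sum_comm]
  have h3 : ∑ j, ∑ S ∈ G, |a j| * (co (g j) S) ^ 2 ≤ ∑ j, |a j| * w := by
    apply Finset.sum_le_sum
    intro j _
    rw [← Finset.mul_sum]
    exact mul_le_mul_of_nonneg_left (hw j) (abs_nonneg _)
  rw [← Finset.sum_mul] at h3
  calc (∑ j, |a j|) * ∑ j, ∑ S ∈ G, |a j| * (co (g j) S) ^ 2
      ≤ (∑ j, |a j|) * ((∑ j, |a j|) * w) := mul_le_mul_of_nonneg_left h3 hA0
    _ ≤ A * (A * w) := by
      apply mul_le_mul hA (mul_le_mul_of_nonneg_right hA hw0) _ (le_trans hA0 hA)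
      positivity
    _ = A ^ 2 * w := by ring

end Pool.Agent.AC0IP
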