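import Pool.Agent.Lib.AC0IP.Sens

/-!
# Composition with projections, joint circuits (module Comp)

`comp_decides`: `(comp V red).run P ω x k = V.run P ω (red x) k` by induction on `k` (the prover
type of `comp V red` is definitionally that of `V`), hence `accepts`, `accProb` agree.
`comp_small`: a literal of the coordinates of `red x` is a constant or a literal of `x`
(`IsLit (fun x => red x cl)` and `xor`); a circuit `lev, g` for `f` gives the circuit
`lev, fun a x => g a (red x)` for `f ∘ red`: replace the set `A` of a gate by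
`{f' | ∃ f ∈ A, f' = fun x => f (red x)}`.
`joint`: choose for every `j` the circuit `lev j, g j` on `Fin S`; take `Γ := K × Fin S`,
`lev (j, a) := lev j a`, `g (j, a) := g j a`.
`small_outs`: every function `outs V ω h j` is `V.verdict ω h` or `V.ask ω _`.
-/

namespace Pool.Agent.AC0IP

private theorem comp_run {ι ι' : Type} (V : Verifier ι') (red : (ι → Bool) → (ι' → Bool))
    (P : V.Prover) (ω : V.Coin) (x : ι → Bool) (k : ℕ) :
    (comp V red).run P ω x k = V.run P ω (red x) k := by
  induction k with
  | zero => rfl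
  | succ k ih =>
    exact congrArg (fun r : List (V.Pub × Bool) × List Bool =>
      ((V.pub ω r.2, V.ask ω r.2 (red x)) :: r.1,
        P ((V.pub ω r.2, V.ask ω r.2 (red x)) :: r.1) :: r.2)) ih

private theorem comp_accepts {ι ι' : Type} (V : Verifier ι') (red : (ι → Bool) → (ι' → Bool))
    (P : V.Prover) (ω : V.Coin) (x : ι → Bool) :
    (comp V red).accepts P ω x = V.accepts P ω (red x) :=
  congrArg (fun r : List (V.Pub × Bool) × List Bool => V.verdict ω r.2 (red x))
    (comp_run V red P ω x V.len)

private theorem comp_acc {ι ι' : Type} (V : Verifier ι') (red : (ι → Bool) → (ι' → Bool))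
    (P : V.Prover) (x : ι → Bool) :
    (comp V red).accProb P x = V.accProb P (red x) :=
  congrArg (fun p : V.Coin → Prop => (Nat.card {ω : V.Coin // p ω} : ℝ) / Nat.card V.Coin)
    (funext fun ω => congrArg (fun b : Bool => b = true) (comp_accepts V red P ω x))

private theorem comp_lit {ι ι' : Type} (red : (ι → Bool) → (ι' → Bool))
    (hred : ∀ cl, IsLit (fun x => red x cl)) (f : BF ι') (hf : IsLit f) :
    IsLit (fun x => f (red x)) := by
  rcases hf with ⟨c, hc⟩ | ⟨i, b, hb⟩
  · exact Or.inl ⟨c, fun x => hc _⟩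
  · rcases hred i with ⟨c, hc⟩ | ⟨i', b', hb'⟩
    · refine Or.inl ⟨xor c b, fun x => ?_⟩
      have h1 : red x i = c := hc x
      show f (red x) = xor c b
      rw [hb, h1]
    · refine Or.inr ⟨i', xor b' b, fun x => ?_⟩
      have h1 : red x i = xor (x i') b' := hb' x
      show f (red x) = xor (x i') (xor b' b)
      rw [hb, h1, Bool.xor_assoc]

private theorem comp_computed {ι ι' : Type} (red : (ι → Bool) → (ι' → Bool))
    (hred : ∀ cl, IsLit (fun x => red x cl)) (S d : ℕ) (f : BF ι') (hf : Computed S d f) :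
    Computed S d (fun x => f (red x)) := by
  obtain ⟨lev, g, hc, hd, ho⟩ := hf
  refine ⟨lev, fun a x => g a (red x), fun a => ?_, hd, ?_⟩
  · obtain ⟨A, hA, hg⟩ := hc a
    refine ⟨{f' | ∃ f ∈ A, f' = fun x => f (red x)}, ?_, ?_⟩
    · rintro f' ⟨f, hf, rfl⟩
      rcases hA f hf with h | ⟨b, hb, h | h⟩
      · exact Or.inl (comp_lit red hred f h)
      · exact Or.inr ⟨b, hb, Or.inl fun x => h _⟩
      · exact Or.inr ⟨b, hb, Or.inr fun x => h _⟩
    · rcases hg with h | h
      · left
        intro x
        rw [h]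
        constructor
        · rintro ⟨f, hf, hx⟩
          exact ⟨_, ⟨f, hf, rfl⟩, hx⟩
        · rintro ⟨_, ⟨f, hf, rfl⟩, hx⟩
          exact ⟨f, hf, hx⟩
      · right
        intro x
        rw [h]
        constructor
        · rintro hx _ ⟨f, hf, rfl⟩
          exact hx f hf
        · intro hx f hf
          exact hx _ ⟨f, hf, rfl⟩
  · rcases ho with h | ⟨a, h | h⟩
    · exact Or.inl (comp_lit red hred f h)
    · exact Or.inr ⟨a, Or.inl fun x => h _⟩
    · exact Or.inr ⟨a, Or.inr fun x => h _⟩

theorem computed_comp {ι ι' : Type} (red : (ι → Bool) → (ι' → Bool))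
    (hred : ∀ cl, IsLit (fun x => red x cl)) (S d : ℕ) (f : BF ι') (hf : Computed S d f) :
    Computed S d (fun x => f (red x)) := comp_computed red hred S d f hf

theorem comp_decides {ι ι' : Type} (V : Verifier ι') (red : (ι → Bool) → (ι' → Bool))
    (C : Set V.Prover) (L : Set (ι' → Bool)) (c s : ℝ) (hV : V.Decides C L c s) :
    (comp V red).Decides C {x | red x ∈ L} c s := by
  constructor
  · intro x hx
    obtain ⟨P, hP, h⟩ := hV.1 (red x) hx
    exact ⟨P, hP, h.trans (comp_acc V red P x).ge⟩
  · intro x hx P hP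
    exact (comp_acc V red P x).le.trans (hV.2 (red x) hx P hP)

theorem comp_small {ι ι' : Type} (V : Verifier ι') (red : (ι → Bool) → (ι' → Bool))
    (hred : ∀ cl, IsLit (fun x => red x cl)) (S d : ℕ) (hV : V.Small S d) :
    (comp V red).Small S d := by
  intro ω h
  exact ⟨comp_computed red hred S d _ (hV ω h).1, comp_computed red hred S d _ (hV ω h).2⟩

theorem small_outs {ι : Type} (V : Verifier ι) (S d : ℕ) (hV : V.Small S d) (ω : V.Coin)
    (h : List Bool) (j : Fin (V.len + 1)) : Computed S d (outs V ω h j) := by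
  unfold outs
  split_ifs
  · exact (hV ω h).2
  · exact (hV ω _).1

theorem joint {ι K : Type} (S d : ℕ) (out : K → BF ι) (h : ∀ j, Computed S d (out j)) :
    ∃ (lev : K × Fin S → ℕ) (g : K × Fin S → BF ι), IsCircuit lev g ∧ (∀ a, lev a < d) ∧
      ∀ j, IsOut g (out j) := by
  choose lev g hc hd ho using h
  refine ⟨fun p => lev p.1 p.2, fun p => g p.1 p.2, fun p => ?_, fun p => hd p.1 p.2,
    fun j => ?_⟩
  · obtain ⟨A, hA, hg⟩ := hc p.1 p.2
    refine ⟨A, fun f hf => ?_, hg⟩
    rcases hA f hf with h | ⟨b, hb, h⟩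
    · exact Or.inl h
    · exact Or.inr ⟨(p.1, b), hb, h⟩
  · rcases ho j with h | ⟨a, h⟩
    · exact Or.inl h
    · exact Or.inr ⟨(j, a), h⟩

end Pool.Agent.AC0IP
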