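import Pool.Agent.Lib.AC0IP.Wt

/-!
# Iterated expectation
-/

namespace Pool.Agent.AC0IP

variable {ι : Type} [Fintype ι] [DecidableEq ι]

/-- Expectation of `F (A ∩ Q₁ ∩ ... ∩ Q_r)` for independent random sets. -/
noncomputable def EJ (p : ℝ) (F : Finset ι → ℝ) : ℕ → Finset ι → ℝ
  | 0, A => F A
  | r + 1, A => ∑ Q : Finset ι, W p Q * EJ p F r (A ∩ Q)

theorem EJ_mono (p : ℝ) (h0 : 0 ≤ p) (h1 : p ≤ 1) (F G : Finset ι → ℝ) (h : ∀ A, F A ≤ G A)
    (r : ℕ) (A : Finset ι) : EJ p F r A ≤ EJ p G r A := by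
  induction r generalizing A with
  | zero => exact h A
  | succ r ih =>
    exact Finset.sum_le_sum (fun Q _ => mul_le_mul_of_nonneg_left (ih _) (W_nonneg p h0 h1 Q))

theorem EJ_affine (p : ℝ) (F : Finset ι → ℝ) (b c : ℝ) (r : ℕ) (A : Finset ι) :
    EJ p (fun Q => b + c * F Q) r A = b + c * EJ p F r A := by
  induction r generalizing A with
  | zero => rfl
  | succ r ih =>
    change ∑ Q : Finset ι, W p Q * EJ p (fun Q => b + c * F Q) r (A ∩ Q) =
      b + c * ∑ Q : Finset ι, W p Q * EJ p F r (A ∩ Q)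
    have h1 : ∀ Q : Finset ι, W p Q * EJ p (fun Q => b + c * F Q) r (A ∩ Q) =
        W p Q * b + c * (W p Q * EJ p F r (A ∩ Q)) := by
      intro Q
      rw [ih]
      ring
    rw [Finset.sum_congr rfl (fun Q _ => h1 Q), Finset.sum_add_distrib, ← Finset.sum_mul,
      W_sum, one_mul, Finset.mul_sum]

theorem EJ_le_one (p : ℝ) (h0 : 0 ≤ p) (h1 : p ≤ 1) (F : Finset ι → ℝ) (h : ∀ A, F A ≤ 1)
    (r : ℕ) (A : Finset ι) : EJ p F r A ≤ 1 := by
  have h2 := EJ_mono p h0 h1 F (fun Q => 1 + 0 * F Q) (fun A => by simpa using h A) r A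
  rw [EJ_affine] at h2
  simpa using h2

theorem EJ_card (p : ℝ) (S : Finset ι) (r : ℕ) (A : Finset ι) :
    EJ p (fun Q => ((S ∩ Q).card : ℝ)) r A = p ^ r * ((S ∩ A).card : ℝ) := by
  induction r generalizing A with
  | zero =>
    rw [pow_zero, one_mul]
    rfl
  | succ r ih =>
    change ∑ Q : Finset ι, W p Q * EJ p (fun Q => ((S ∩ Q).card : ℝ)) r (A ∩ Q) = _
    have h1 : ∀ Q : Finset ι, W p Q * EJ p (fun Q => ((S ∩ Q).card : ℝ)) r (A ∩ Q) =
        p ^ r * (W p Q * (((S ∩ A) ∩ Q).card : ℝ)) := by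
      intro Q
      rw [ih, Finset.inter_assoc]
      ring
    rw [Finset.sum_congr rfl (fun Q _ => h1 Q), ← Finset.mul_sum, W_card_inter]
    ring

end Pool.Agent.AC0IP
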