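import Pool.Agent.Lib.AC0IP.Defs

/-!
# Exact counting with constant-depth predicates: definitions
-/

namespace Pool.Agent.AC0IP

/-- A counting scheme on inputs `x : ι → Bool`: witnesses are the words `y` of `len` bits,
`pred y x` says that `y` is a witness for `x`, and `digit i x` is the binary digit number `i` of
the threshold. -/
structure Counting (ι : Type) where
  len : ℕ
  pred : (Fin len → Bool) → BF ι
  digit : Fin (len + 1) → BF ι

namespace Counting

variable {ι : Type} (E : Counting ι)

/-- The number of witnesses for `x`. -/
noncomputable def count (x : ι → Bool) : ℕ := Nat.card {y : Fin E.len → Bool // E.pred y x = true}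

/-- The threshold for `x`. -/
def threshold (x : ι → Bool) : ℕ := ∑ i : Fin (E.len + 1), if E.digit i x = true then 2 ^ i.val else 0

/-- For every witness `y` the predicate `pred y`, and all digits of the threshold, are computed,
as functions of the input, by circuits with at most `S` gates and depth at most `d`. -/
def Small (S d : ℕ) : Prop :=
  (∀ y, Computed S d (E.pred y)) ∧ ∀ i, Computed S d (E.digit i)

/-- `L` is the set of the inputs whose number of witnesses is exactly the threshold (the
definition of `C_= P`). -/
def Exactly (L : Set (ι → Bool)) : Prop := ∀ x, x ∈ L ↔ E.count x = E.threshold x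

/-- `L` is the set of the inputs whose number of witnesses is at least the threshold (the
definition of `C P = PP`). -/
def AtLeast (L : Set (ι → Bool)) : Prop := ∀ x, x ∈ L ↔ E.threshold x ≤ E.count x

end Counting

end Pool.Agent.AC0IP
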