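import Mathlib

/-!
# Arithmetic
-/

namespace Pool.Agent.AC0IP

theorem num1 (l : ℕ) (hl : 2 ≤ l) : 48 * l + 1 ≤ 2 ^ (4 * l) := by
  induction l, hl using Nat.le_induction with
  | base => norm_num
  | succ l hl ih =>
    have h1 : 2 ^ (4 * (l + 1)) = 16 * 2 ^ (4 * l) := by ring
    omega

theorem num2 (l d m M k E : ℕ) (hl : 2 ≤ l) (hm : m ≤ 2 ^ l) :
    m ^ k * 2 * d * (48 * l + 1) ^ d * 2 ^ (M + E) ≤ 2 ^ (l * (M + E + 5 * d + k + 1)) := by
  have h1 : m ^ k ≤ 2 ^ (k * l) := by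
    calc m ^ k ≤ (2 ^ l) ^ k := Nat.pow_le_pow_left hm k
      _ = 2 ^ (k * l) := by rw [← pow_mul, mul_comm]
  have h2 : d ≤ 2 ^ d := Nat.lt_two_pow_self.le
  have h3 : (48 * l + 1) ^ d ≤ 2 ^ (4 * l * d) := by
    calc (48 * l + 1) ^ d ≤ (2 ^ (4 * l)) ^ d := Nat.pow_le_pow_left (num1 l hl) d
      _ = 2 ^ (4 * l * d) := by rw [← pow_mul]
  calc m ^ k * 2 * d * (48 * l + 1) ^ d * 2 ^ (M + E)
      ≤ 2 ^ (k * l) * 2 * 2 ^ d * 2 ^ (4 * l * d) * 2 ^ (M + E) := by gcongr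
    _ = 2 ^ (k * l + 1 + d + 4 * l * d + (M + E)) := by
      rw [pow_add 2 (k * l + 1 + d + 4 * l * d) (M + E), pow_add 2 (k * l + 1 + d) (4 * l * d),
        pow_add 2 (k * l + 1) d, pow_succ 2 (k * l)]
    _ ≤ 2 ^ (l * (M + E + 5 * d + k + 1)) := by
      apply Nat.pow_le_pow_right (by norm_num)
      have h4 : d ≤ l * d := Nat.le_mul_of_pos_left d (by omega)
      have h5 : M + E ≤ l * (M + E) := Nat.le_mul_of_pos_left _ (by omega)
      have h6 : l * (M + E + 5 * d + k + 1) = l * (M + E) + 5 * (l * d) + k * l + l := by ring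
      have h7 : 4 * l * d = 4 * (l * d) := by ring
      rw [h6, h7]
      omega

theorem num3 (d : ℕ) : 5 * d ^ 2 + 3 * d + 2 ≤ 3 * 4 ^ d := by
  induction d with
  | zero => norm_num
  | succ d ih =>
    rcases Nat.eq_zero_or_pos d with rfl | hd
    · norm_num
    · have h1 : 3 * 4 ^ (d + 1) = 4 * (3 * 4 ^ d) := by ring
      rw [h1]
      have h2 : 1 ≤ d ^ 2 := Nat.one_le_pow _ _ hd
      nlinarith

/-- The final estimate. -/
theorem num4 (l d M k E : ℕ) (hl : 2 ≤ l) (hk : 1 ≤ k) (hE : 1 ≤ E) :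
    2 * (48 * l + 1) ^ d * ((M + 1) * l + d * ((M + E + 5 * d + k + 1) * (l * l))) + 1
      ≤ k * ((M + E) * (196 * l) ^ (d + 2)) := by
  set A := M + E with hA
  have hA1 : 1 ≤ A := by omega
  have h1 : (M + 1) * l + d * ((A + 5 * d + k + 1) * (l * l)) ≤
      k * (A * (l * l) * (5 * d ^ 2 + 3 * d + 2)) := by
    have h2 : (M + 1) * l ≤ k * (A * (l * l) * 2) := by
      have h3 : M + 1 ≤ 2 * A := by omega
      calc (M + 1) * l ≤ (2 * A) * (l * l) :=
            Nat.mul_le_mul h3 (Nat.le_mul_of_pos_left l (by omega))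
        _ = A * (l * l) * 2 := by ring
        _ ≤ k * (A * (l * l) * 2) := Nat.le_mul_of_pos_left _ hk
    have h4 : A + 5 * d + k + 1 ≤ A * (k * (5 * d + 3)) := by
      have h5 : 5 * d + k + 2 ≤ k * (5 * d + 3) := by nlinarith [Nat.zero_le d]
      have h6 : A + 5 * d + k + 1 ≤ A * (5 * d + k + 2) := by nlinarith
      exact h6.trans (Nat.mul_le_mul_left A h5)
    have h5 : d * ((A + 5 * d + k + 1) * (l * l)) ≤ d * ((A * (k * (5 * d + 3))) * (l * l)) := by
      gcongr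
    calc _ ≤ k * (A * (l * l) * 2) + d * ((A * (k * (5 * d + 3))) * (l * l)) :=
          Nat.add_le_add h2 h5
      _ = k * (A * (l * l) * (5 * d ^ 2 + 3 * d + 2)) := by ring
  have h6 : (48 * l + 1) ^ d ≤ (49 * l) ^ d := Nat.pow_le_pow_left (by omega) d
  have h7 : 1 ≤ (49 * l) ^ d * (k * (A * (l * l) * (3 * 4 ^ d))) := by
    have : 0 < l := by omega
    have : 0 < (49 * l) ^ d * (k * (A * (l * l) * (3 * 4 ^ d))) := by positivity
    omega
  calc 2 * (48 * l + 1) ^ d * ((M + 1) * l + d * ((A + 5 * d + k + 1) * (l * l))) + 1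
      ≤ 2 * (49 * l) ^ d * (k * (A * (l * l) * (3 * 4 ^ d))) +
          (49 * l) ^ d * (k * (A * (l * l) * (3 * 4 ^ d))) := by
        have h8 : k * (A * (l * l) * (5 * d ^ 2 + 3 * d + 2)) ≤
            k * (A * (l * l) * (3 * 4 ^ d)) := by
          have := num3 d
          gcongr
        have h9 := h1.trans h8
        gcongr
    _ = 9 * (k * (A * (196 ^ d * l ^ (d + 2)))) := by
        have : (196 : ℕ) ^ d = 49 ^ d * 4 ^ d := by rw [← Nat.mul_pow]
        rw [this, mul_pow, pow_add]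
        ring
    _ ≤ 196 ^ 2 * (k * (A * (196 ^ d * l ^ (d + 2)))) := Nat.mul_le_mul_right _ (by norm_num)
    _ = k * (A * (196 * l) ^ (d + 2)) := by
        rw [mul_pow, pow_add 196]
        ring

end Pool.Agent.AC0IP
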