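import Pool.Agent.Lib.AC0IP.Sens

/-!
# Reduction of the block parity function to `k`-UNSAT, `k = q + 1`, `q ≥ 2`

Variables: `s r i` (in coordinate `r < q` the index `i` is selected), `a r i` (`i ≤ m`: in
coordinate `r` some index `≥ i` is selected), `u j` (`j < m`), `z j` (`j ≤ m`).
Clauses: (A) `a r 0`; `¬ a r m`; for `i < m`: `¬ a r i ∨ s r i ∨ a r (i+1)`;
 (B) `¬ z 0`; `¬ z m`; for `j < m` and all bits `p q r` with `r ≠ xor p q`:
     `(z j ≠ p) ∨ (u j ≠ q) ∨ (z (j+1) ≠ r)`;
 (C) for all `σ : Fin q → Fin m`, `j` and bits `b`: `⋁ r, ¬ s r (σ r) ∨ u j = b`, present iff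
     `x (σ, j) = b`.
-/

namespace Pool.Agent.AC0IP

private abbrev Vr (q m : ℕ) : Type :=
  (Fin q × Fin m) ⊕ (Fin q × Fin (m + 1)) ⊕ Fin m ⊕ Fin (m + 1)

private abbrev vs {q m : ℕ} (r : Fin q) (i : Fin m) : Vr q m := .inl (r, i)
private abbrev va {q m : ℕ} (r : Fin q) (i : Fin (m + 1)) : Vr q m := .inr (.inl (r, i))
private abbrev vu {q m : ℕ} (i : Fin m) : Vr q m := .inr (.inr (.inl i))
private abbrev vz {q m : ℕ} (i : Fin (m + 1)) : Vr q m := .inr (.inr (.inr i))

/-- clause with three given literals, the last one repeated -/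
private def cl3 {α : Type} (q : ℕ) (a b c : α × Bool) : Fin (q + 1) → α × Bool :=
  fun t => if t.val = 0 then a else if t.val = 1 then b else c

/-- the clauses which are always present -/
private def Fixed {q m : ℕ} (c : Fin (q + 1) → Vr q m × Bool) : Prop :=
  (∃ r, c = cl3 q (va r 0, true) (va r 0, true) (va r 0, true)) ∨
  (∃ r, c = cl3 q (va r (Fin.last m), false) (va r (Fin.last m), false)
    (va r (Fin.last m), false)) ∨
  (∃ (r : Fin q) (i : Fin m), c = cl3 q (va r i.castSucc, false) (vs r i, true)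
    (va r i.succ, true)) ∨
  c = cl3 q (vz 0, false) (vz 0, false) (vz 0, false) ∨
  c = cl3 q (vz (Fin.last m), false) (vz (Fin.last m), false) (vz (Fin.last m), false) ∨
  ∃ (j : Fin m) (a b d : Bool), d ≠ xor a b ∧
    c = cl3 q (vz j.castSucc, !a) (vu j, !b) (vz j.succ, !d)

/-- the clauses which depend on the input -/
private def cC {q m : ℕ} (σ : Fin q → Fin m) (j : Fin m) (b : Bool) :
    Fin (q + 1) → Vr q m × Bool :=
  Fin.cons (vu j, b) (fun r => (vs r (σ r), false))

/-- the clauses of the formula -/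
private def InF {q m : ℕ} (x : (Fin q → Fin m) × Fin m → Bool)
    (c : Fin (q + 1) → Vr q m × Bool) : Prop :=
  Fixed c ∨ ∃ σ j b, c = cC σ j b ∧ x (σ, j) = b

/-- renaming of the variables -/
private def emb {q m v : ℕ} (e : Vr q m ↪ Fin v) (c : Fin (q + 1) → Vr q m × Bool) :
    Clause (q + 1) v :=
  fun t => (e (c t).1, (c t).2)

private theorem emb_inj {q m v : ℕ} (e : Vr q m ↪ Fin v) : Function.Injective (emb e) := by
  intro c c' h
  funext t
  have h1 := congrFun h t
  unfold emb at h1
  rw [Prod.mk.injEq] at h1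
  exact Prod.ext (e.injective h1.1) h1.2

private theorem cC_inj {q m : ℕ} {σ σ' : Fin q → Fin m} {j j' : Fin m} {b b' : Bool}
    (h : cC σ j b = cC σ' j' b') : σ = σ' ∧ j = j' ∧ b = b' := by
  have h0 := congrFun h 0
  unfold cC at h0
  rw [Fin.cons_zero, Fin.cons_zero, Prod.mk.injEq] at h0
  refine ⟨?_, ?_, h0.2⟩
  · funext r
    have h1 := congrFun h r.succ
    unfold cC at h1
    rw [Fin.cons_succ, Fin.cons_succ, Prod.mk.injEq] at h1
    simpa using h1.1
  · simpa using h0.1

private theorem sat_cl3 {α : Type} {q : ℕ} (hq : 2 ≤ q) (Y : α → Bool) (a b c : α × Bool) :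
    (∃ t, Y ((cl3 q a b c) t).1 = ((cl3 q a b c) t).2) ↔
      Y a.1 = a.2 ∨ Y b.1 = b.2 ∨ Y c.1 = c.2 := by
  constructor
  · rintro ⟨t, ht⟩
    unfold cl3 at ht
    by_cases h0 : t.val = 0
    · rw [if_pos h0] at ht
      exact Or.inl ht
    · rw [if_neg h0] at ht
      by_cases h1 : t.val = 1
      · rw [if_pos h1] at ht
        exact Or.inr (Or.inl ht)
      · rw [if_neg h1] at ht
        exact Or.inr (Or.inr ht)
  · rintro (h | h | h)
    · exact ⟨⟨0, by omega⟩, h⟩
    · refine ⟨⟨1, by omega⟩, ?_⟩
      unfold cl3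
      simpa using h
    · refine ⟨⟨2, by omega⟩, ?_⟩
      unfold cl3
      simpa using h

private theorem sat_cC {q m : ℕ} (Y : Vr q m → Bool) (σ : Fin q → Fin m) (j : Fin m)
    (b : Bool) : (∃ t, Y ((cC σ j b) t).1 = ((cC σ j b) t).2) ↔
      Y (vu j) = b ∨ ∃ r, Y (vs r (σ r)) = false := by
  unfold cC
  constructor
  · rintro ⟨t, ht⟩
    rcases Fin.eq_zero_or_eq_succ t with rfl | ⟨r, rfl⟩
    · rw [Fin.cons_zero] at ht
      exact Or.inl ht
    · rw [Fin.cons_succ] at ht
      exact Or.inr ⟨r, ht⟩
  · rintro (h | ⟨r, h⟩)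
    · refine ⟨0, ?_⟩
      rw [Fin.cons_zero]
      exact h
    · refine ⟨r.succ, ?_⟩
      rw [Fin.cons_succ]
      exact h

/-- number of the true bits at positions `< n` -/
private def pc {m : ℕ} (f : Fin m → Bool) (n : ℕ) : ℕ :=
  (Finset.univ.filter (fun t : Fin m => t.val < n ∧ f t = true)).card

private theorem pc_zero {m : ℕ} (f : Fin m → Bool) : pc f 0 = 0 := by
  simp [pc]

private theorem pc_last {m : ℕ} (f : Fin m → Bool) :
    pc f m = (Finset.univ.filter (fun t : Fin m => f t = true)).card := by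
  unfold pc
  congr 1
  ext t
  simp

private theorem pc_succ {m : ℕ} (f : Fin m → Bool) (j : Fin m) :
    pc f (j.val + 1) = pc f j.val + if f j = true then 1 else 0 := by
  unfold pc
  by_cases h : f j = true
  · rw [if_pos h]
    have e : Finset.univ.filter (fun t : Fin m => t.val < j.val + 1 ∧ f t = true) =
        insert j (Finset.univ.filter (fun t : Fin m => t.val < j.val ∧ f t = true)) := by
      ext t
      simp only [Finset.mem_filter, Finset.mem_univ, true_and, Finset.mem_insert]
      constructor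
      · rintro ⟨h1, h2⟩
        rcases Nat.lt_succ_iff_lt_or_eq.1 h1 with h3 | h3
        · exact Or.inr ⟨h3, h2⟩
        · exact Or.inl (Fin.ext h3)
      · rintro (h1 | ⟨h1, h2⟩)
        · subst h1
          exact ⟨Nat.lt_succ_self _, h⟩
        · exact ⟨by omega, h2⟩
    rw [e, Finset.card_insert_of_notMem]
    simp
  · rw [if_neg h]
    refine Eq.trans (congrArg Finset.card (Finset.ext fun t => ?_)) (Nat.add_zero _).symm
    simp only [Finset.mem_filter, Finset.mem_univ, true_and]
    constructor
    · rintro ⟨h1, h2⟩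
      refine ⟨?_, h2⟩
      rcases Nat.lt_succ_iff_lt_or_eq.1 h1 with h3 | h3
      · exact h3
      · exact absurd (by rw [← Fin.ext h3]; exact h2) h
    · rintro ⟨h1, h2⟩
      exact ⟨by omega, h2⟩

private theorem odd_succ {m : ℕ} (f : Fin m → Bool) (j : Fin m) :
    decide (Odd (pc f (j.val + 1))) = xor (decide (Odd (pc f j.val))) (f j) := by
  rw [pc_succ]
  cases h : f j with
  | true =>
    rw [if_pos rfl]
    by_cases h1 : Odd (pc f j.val)
    · have h2 : ¬ Odd (pc f j.val + 1) := by rw [Nat.odd_add_one]; exact not_not.2 h1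
      simp [h1, h2]
    · have h2 : Odd (pc f j.val + 1) := by rw [Nat.odd_add_one]; exact h1
      simp [h1, h2]
  | false => simp

/-- the clauses are satisfied by some assignment of the variables `Vr q m` iff some block is
not odd -/
private theorem sat_iff {q m : ℕ} (hq : 2 ≤ q) (x : (Fin q → Fin m) × Fin m → Bool) :
    (∃ Y : Vr q m → Bool, ∀ c, InF x c → ∃ t, Y (c t).1 = (c t).2) ↔
      ∃ σ, ¬ OddBlock x σ := by
  constructor
  · rintro ⟨Y, hY⟩
    have hF : ∀ a b c : Vr q m × Bool, Fixed (cl3 q a b c) →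
        Y a.1 = a.2 ∨ Y b.1 = b.2 ∨ Y c.1 = c.2 := fun a b c h =>
      (sat_cl3 hq Y a b c).1 (hY _ (Or.inl h))
    have ha0 : ∀ r, Y (va r 0) = true := by
      intro r
      rcases hF _ _ _ (Or.inl ⟨r, rfl⟩) with h | h | h <;> exact h
    have ham : ∀ r, Y (va r (Fin.last m)) = false := by
      intro r
      rcases hF _ _ _ (Or.inr (Or.inl ⟨r, rfl⟩)) with h | h | h <;> exact h
    have hai : ∀ (r : Fin q) (i : Fin m), Y (va r i.castSucc) = false ∨ Y (vs r i) = true ∨
        Y (va r i.succ) = true := fun r i =>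
      hF _ _ _ (Or.inr (Or.inr (Or.inl ⟨r, i, rfl⟩)))
    have hz0 : Y (vz 0) = false := by
      rcases hF _ _ _ (Or.inr (Or.inr (Or.inr (Or.inl rfl)))) with h | h | h <;> exact h
    have hzm : Y (vz (Fin.last m)) = false := by
      rcases hF _ _ _ (Or.inr (Or.inr (Or.inr (Or.inr (Or.inl rfl))))) with h | h | h <;> exact h
    have hzj : ∀ j : Fin m, Y (vz j.succ) = xor (Y (vz j.castSucc)) (Y (vu j)) := by
      intro j
      by_contra hne
      have h := hF (vz j.castSucc, !(Y (vz j.castSucc))) (vu j, !(Y (vu j)))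
        (vz j.succ, !(Y (vz j.succ)))
        (Or.inr (Or.inr (Or.inr (Or.inr (Or.inr
          ⟨j, Y (vz j.castSucc), Y (vu j), Y (vz j.succ), hne, rfl⟩)))))
      simp at h
    have hsel : ∀ r : Fin q, ∃ i, Y (vs r i) = true := by
      intro r
      by_contra hno
      have hall : ∀ i : Fin (m + 1), Y (va r i) = true := by
        intro i
        induction i using Fin.induction with
        | zero => exact ha0 r
        | succ i ih =>
          rcases hai r i with h | h | h
          · rw [ih] at h; exact absurd h (by simp)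
          · exact absurd ⟨i, h⟩ hno
          · exact h
      have h := ham r
      rw [hall] at h
      exact absurd h (by simp)
    choose σ hσ using hsel
    have hu : ∀ j, Y (vu j) = x (σ, j) := by
      intro j
      have h := (sat_cC Y σ j (x (σ, j))).1 (hY _ (Or.inr ⟨σ, j, x (σ, j), rfl, rfl⟩))
      rcases h with h | ⟨r, h⟩
      · exact h
      · rw [hσ] at h; exact absurd h (by simp)
    refine ⟨σ, ?_⟩
    have hz : ∀ j : Fin (m + 1), Y (vz j) =
        decide (Odd (pc (fun t => x (σ, t)) j.val)) := by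
      intro j
      induction j using Fin.induction with
      | zero => rw [hz0]; simp [pc_zero]
      | succ j ih =>
        rw [hzj, ih, hu, Fin.val_succ, odd_succ, Fin.val_castSucc]
    have h := hz (Fin.last m)
    rw [hzm, Fin.val_last, pc_last] at h
    unfold OddBlock
    exact of_decide_eq_false h.symm
  · rintro ⟨σ, hσ⟩
    refine ⟨Sum.elim (fun p => decide (p.2 = σ p.1)) (Sum.elim
      (fun p => decide (p.2.val ≤ (σ p.1).val)) (Sum.elim (fun j => x (σ, j))
        (fun j => decide (Odd (pc (fun t => x (σ, t)) j.val))))), ?_⟩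
    intro c hc
    rcases hc with hc | hc
    · rcases hc with ⟨r, rfl⟩ | ⟨r, rfl⟩ | ⟨r, i', rfl⟩ | rfl | rfl | ⟨j, a, b, d, h, rfl⟩
      · rw [sat_cl3 hq]; left; simp
      · rw [sat_cl3 hq]; left; simp
      · rw [sat_cl3 hq]
        simp only [Sum.elim_inl, Sum.elim_inr, decide_eq_false_iff_not, decide_eq_true_eq,
          Fin.val_castSucc, Fin.val_succ, Fin.ext_iff]
        omega
      · rw [sat_cl3 hq]; left; simp [pc_zero]
      · rw [sat_cl3 hq]; left
        simp only [Sum.elim_inr, Fin.val_last, pc_last]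
        exact decide_eq_false hσ
      · rw [sat_cl3 hq]
        simp only [Sum.elim_inl, Sum.elim_inr, Fin.val_castSucc, Fin.val_succ, odd_succ]
        generalize decide (Odd (pc (fun t => x (σ, t)) j.val)) = A at *
        generalize x (σ, j) = B at *
        revert h
        cases a <;> cases b <;> cases d <;> cases A <;> cases B <;> decide
    · obtain ⟨σ', j, b, rfl, hb⟩ := hc
      rw [sat_cC]
      by_cases h1 : σ' = σ
      · left
        rw [← hb, h1]
        rfl
      · right
        by_contra h2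
        push Not at h2
        apply h1
        funext r
        have h3 := h2 r
        simp only [Sum.elim_inl, ne_eq, decide_eq_false_iff_not, not_not] at h3
        exact h3

theorem red_exists (q m v : ℕ) (hq : 2 ≤ q) (hv : (q + 1) * (2 * m + 1) ≤ v) :
    ∃ red : ((Fin q → Fin m) × Fin m → Bool) → (Clause (q + 1) v → Bool),
      (∀ cl, IsLit (fun x => red x cl)) ∧ ∀ x, red x ∈ UNSAT (q + 1) v ↔ x ∈ AllOdd q m := by
  classical
  obtain ⟨e⟩ : Nonempty (Vr q m ↪ Fin v) := by
    refine Function.Embedding.nonempty_of_card_le ?_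
    simp only [Fintype.card_sum, Fintype.card_fin, Fintype.card_prod]
    refine le_trans (le_of_eq ?_) hv
    ring
  refine ⟨fun x cl => decide (∃ c, cl = emb e c ∧ InF x c), ?_, ?_⟩
  · intro cl
    by_cases h1 : ∃ c, cl = emb e c ∧ Fixed c
    · left
      obtain ⟨c, hc, hf⟩ := h1
      exact ⟨true, fun x => decide_eq_true ⟨c, hc, Or.inl hf⟩⟩
    · by_cases h2 : ∃ σ j b, cl = emb e (cC σ j b)
      · right
        obtain ⟨σ, j, b, hcl⟩ := h2
        refine ⟨(σ, j), !b, fun x => ?_⟩
        have h3 : (∃ c, cl = emb e c ∧ InF x c) ↔ x (σ, j) = b := by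
          constructor
          · rintro ⟨c, hc, hin⟩
            rcases hin with hin | ⟨σ', j', b', hc', hx⟩
            · exact absurd ⟨c, hc, hin⟩ h1
            · have h4 : cC σ j b = cC σ' j' b' := by
                apply emb_inj e
                rw [← hcl, hc, hc']
              obtain ⟨r1, r2, r3⟩ := cC_inj h4
              rw [r1, r2, r3]
              exact hx
          · intro hx
            exact ⟨_, hcl, Or.inr ⟨σ, j, b, rfl, hx⟩⟩
        show decide (∃ c, cl = emb e c ∧ InF x c) = xor (x (σ, j)) (!b)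
        by_cases hx : x (σ, j) = b
        · rw [decide_eq_true (h3.2 hx), hx]
          cases b <;> rfl
        · rw [decide_eq_false (fun h => hx (h3.1 h))]
          revert hx
          cases x (σ, j) <;> cases b <;> simp
      · left
        refine ⟨false, fun x => decide_eq_false ?_⟩
        rintro ⟨c, hc, hin⟩
        rcases hin with hin | ⟨σ', j', b', hc', hx⟩
        · exact h1 ⟨c, hc, hin⟩
        · exact h2 ⟨σ', j', b', by rw [hc, hc']⟩
  · intro x
    have key : Satisfiable (fun cl : Clause (q + 1) v => decide (∃ c, cl = emb e c ∧ InF x c)) ↔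
        ∃ σ, ¬ OddBlock x σ := by
      rw [← sat_iff hq]
      constructor
      · rintro ⟨y, hy⟩
        refine ⟨fun w => y (e w), fun c hc => ?_⟩
        obtain ⟨t, ht⟩ := hy (emb e c) (decide_eq_true ⟨c, rfl, hc⟩)
        exact ⟨t, ht⟩
      · rintro ⟨Y, hY⟩
        refine ⟨Function.extend e Y (fun _ => false), fun cl hcl => ?_⟩
        obtain ⟨c, hc, hin⟩ := of_decide_eq_true hcl
        obtain ⟨t, ht⟩ := hY c hin
        refine ⟨t, ?_⟩
        rw [hc]
        show Function.extend e Y (fun _ => false) (e (c t).1) = (c t).2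
        rw [e.injective.extend_apply]
        exact ht
    show (¬ Satisfiable (fun cl : Clause (q + 1) v => decide (∃ c, cl = emb e c ∧ InF x c))) ↔
      ∀ σ, OddBlock x σ
    rw [key]
    constructor
    · intro h σ
      by_contra h2
      exact h ⟨σ, h2⟩
    · rintro h ⟨σ, h2⟩
      exact h2 (h σ)

end Pool.Agent.AC0IP
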