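import Pool.Agent.Lib.AC0IP.FTail
import Pool.Agent.Lib.AC0IP.Blocks
import Pool.Agent.Lib.AC0IP.Red
import Pool.Agent.Lib.AC0IP.Comp
import Pool.Agent.Lib.AC0IP.Num
import Pool.Agent.Lib.AC0IP.ExDefs

/-!
# Lower bound for exact counting
-/

namespace Pool.Agent.AC0IP

theorem ex_num1 (l d M E : ℕ) (hl : 2 ≤ l) :
    2 ^ (E + 2 * M + 6) * d * (48 * l + 1) ^ d < 2 ^ (l * (2 * M + E + 5 * d + 7)) := by
  have h2 : d ≤ 2 ^ d := Nat.lt_two_pow_self.le
  have h3 : (48 * l + 1) ^ d ≤ 2 ^ (4 * l * d) := by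
    calc (48 * l + 1) ^ d ≤ (2 ^ (4 * l)) ^ d := Nat.pow_le_pow_left (num1 l hl) d
      _ = 2 ^ (4 * l * d) := by rw [← pow_mul]
  calc 2 ^ (E + 2 * M + 6) * d * (48 * l + 1) ^ d
      ≤ 2 ^ (E + 2 * M + 6) * 2 ^ d * 2 ^ (4 * l * d) := by gcongr
    _ = 2 ^ (E + 2 * M + 6 + d + 4 * l * d) := by rw [pow_add 2 (E + 2 * M + 6 + d), pow_add 2 (E + 2 * M + 6)]
    _ < 2 ^ (l * (2 * M + E + 5 * d + 7)) := by
      apply Nat.pow_lt_pow_right (by norm_num)
      have h4 : d ≤ l * d := Nat.le_mul_of_pos_left d (by omega)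
      have h5 : 2 * M + E ≤ l * (2 * M + E) := Nat.le_mul_of_pos_left _ (by omega)
      have h6 : l * (2 * M + E + 5 * d + 7) = l * (2 * M + E) + 5 * (l * d) + 7 * l := by ring
      have h7 : 4 * l * d = 4 * (l * d) := by ring
      rw [h6, h7]
      omega

theorem ex_num3 (d : ℕ) : 4 * (5 * d ^ 2 + 9 * d + 1) ≤ 15 * 4 ^ d := by
  induction d with
  | zero => norm_num
  | succ d ih =>
    rcases Nat.eq_zero_or_pos d with rfl | hd
    · norm_num
    · have h1 : 15 * 4 ^ (d + 1) = 4 * (15 * 4 ^ d) := by ring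
      rw [h1]
      have h2 : 1 ≤ d ^ 2 := Nat.one_le_pow _ _ hd
      nlinarith

theorem ex_num4 (l d M E : ℕ) (hl : 2 ≤ l) (hE : 1 ≤ E) :
    4 * (48 * l + 1) ^ d * (l * l + d * ((2 * M + E + 5 * d + 7) * (l * l)))
      ≤ (M + E) * (196 * l) ^ (d + 2) := by
  set A := M + E with hA
  have hA1 : 1 ≤ A := by omega
  have h1 : l * l + d * ((2 * M + E + 5 * d + 7) * (l * l)) ≤
      A * (l * l) * (5 * d ^ 2 + 9 * d + 1) := by
    have h4 : 2 * M + E + 5 * d + 7 ≤ A * (5 * d + 9) := by nlinarith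
    have h5 : d * ((2 * M + E + 5 * d + 7) * (l * l)) ≤ d * ((A * (5 * d + 9)) * (l * l)) := by
      gcongr
    have h6 : l * l ≤ A * (l * l) := Nat.le_mul_of_pos_left _ hA1
    calc _ ≤ A * (l * l) + d * ((A * (5 * d + 9)) * (l * l)) := Nat.add_le_add h6 h5
      _ = A * (l * l) * (5 * d ^ 2 + 9 * d + 1) := by ring
  have h6 : (48 * l + 1) ^ d ≤ (49 * l) ^ d := Nat.pow_le_pow_left (by omega) d
  calc 4 * (48 * l + 1) ^ d * (l * l + d * ((2 * M + E + 5 * d + 7) * (l * l)))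
      ≤ 4 * (49 * l) ^ d * (A * (l * l) * (5 * d ^ 2 + 9 * d + 1)) := by gcongr
    _ = (49 * l) ^ d * (A * (l * l) * (4 * (5 * d ^ 2 + 9 * d + 1))) := by ring
    _ ≤ (49 * l) ^ d * (A * (l * l) * (15 * 4 ^ d)) := by
        have := ex_num3 d
        gcongr
    _ = 15 * (A * (196 ^ d * l ^ (d + 2))) := by
        have : (196 : ℕ) ^ d = 49 ^ d * 4 ^ d := by rw [← Nat.mul_pow]
        rw [this, mul_pow, pow_add]
        ring
    _ ≤ 196 ^ 2 * (A * (196 ^ d * l ^ (d + 2))) := Nat.mul_le_mul_right _ (by norm_num)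
    _ = A * (196 * l) ^ (d + 2) := by
        rw [mul_pow, pow_add 196]
        ring

/-- The value of the character of all bits on a point all of whose blocks are odd. -/
theorem chi_allOdd (q m : ℕ) (x : (Fin q → Fin m) × Fin m → Bool) (hx : x ∈ AllOdd q m) :
    chi Finset.univ x = (-1) ^ (m ^ q) := by
  unfold chi
  rw [Fintype.prod_prod_type]
  have h1 : ∀ σ : Fin q → Fin m, ∏ j : Fin m, (if x (σ, j) = true then (-1 : ℝ) else 1) = -1 := by
    intro σ
    rw [Finset.prod_ite, Finset.prod_const, Finset.prod_const_one, mul_one]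
    exact Odd.neg_one_pow (hx σ)
  rw [Finset.prod_congr rfl (fun σ _ => h1 σ), Finset.prod_const, Finset.card_univ,
    Fintype.card_fun, Fintype.card_fin, Fintype.card_fin]

theorem ex_core (q v S d : ℕ) (hq : 2 ≤ q) (E : Counting (Clause (q + 1) v))
    (hS : E.Small S d) (hE : E.Exactly (SAT (q + 1) v)) (m l : ℕ) (hm : 1 ≤ m)
    (hmv : (q + 1) * (2 * m + 1) ≤ v) (hl : 2 ≤ l) (hSl : S ≤ 2 ^ l) :
    m ^ (q + 1) < 4 * (48 * l + 1) ^ d *
      (l * l + d * ((2 * E.len + m ^ q + 5 * d + 7) * (l * l))) := by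
  classical
  by_contra hcon
  rw [not_lt] at hcon
  obtain ⟨red, hred1, hred2⟩ := red_exists q m v hq hmv
  set M := E.len with hM
  set u := 2 * M + m ^ q + 5 * d + 7 with hu
  set B := l * l + d * (u * (l * l)) with hB
  set D := 2 * (48 * l + 1) ^ d * B with hD
  have hB0 : 0 < B := by
    have : 0 < l * l := Nat.mul_pos (by omega) (by omega)
    omega
  have hDn : 2 * D ≤ m ^ (q + 1) := by
    rw [hD]
    calc 2 * (2 * (48 * l + 1) ^ d * B) = 4 * (48 * l + 1) ^ d * B := by ring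
      _ ≤ _ := hcon
  have hn : Fintype.card ((Fin q → Fin m) × Fin m) = m ^ (q + 1) := by
    rw [Fintype.card_prod, Fintype.card_fun, Fintype.card_fin, Fintype.card_fin, pow_succ]
  set G := Finset.univ.filter (fun T : Finset ((Fin q → Fin m) × Fin m) =>
    Fintype.card ((Fin q → Fin m) × Fin m) ≤ 2 * T.card) with hG
  set w : ℝ := 2 * (48 * (l : ℝ) + 1) ^ d * (2 ^ (m ^ (q + 1)) * (d * (2 ^ (m ^ (q + 1)) *
    (1 / 2 ^ (l * u))))) with hw
  -- every function of the scheme has small Fourier weight on `G`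
  have hwt : ∀ f : BF (Clause (q + 1) v), Computed S d f →
      ∑ T ∈ G, (co (fun x => if f (red x) = true then (1 : ℝ) else 0) T) ^ 2 ≤ w := by
    intro f hf
    obtain ⟨lev, g, hc, hd, hout⟩ := computed_comp red hred1 S d f hf
    have h1 := ftail lev g hc d hd (fun x => f (red x)) hout l u hl B hB0 (le_refl _) D
      (le_refl _)
    rw [hn, Fintype.card_fin] at h1
    have h2 : (S : ℝ) / 4 ^ l ≤ 1 / 2 ^ l := by
      rw [div_le_div_iff₀ (by positivity) (by positivity)]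
      have h3 : (S : ℝ) ≤ 2 ^ l := by exact_mod_cast hSl
      calc (S : ℝ) * 2 ^ l ≤ 2 ^ l * 2 ^ l := by gcongr
        _ = 1 * 4 ^ l := by rw [← mul_pow]; norm_num
    have h4 : ((S : ℝ) / 4 ^ l) ^ u ≤ 1 / 2 ^ (l * u) := by
      calc _ ≤ (1 / (2 : ℝ) ^ l) ^ u := pow_le_pow_left₀ (by positivity) h2 u
        _ = 1 / 2 ^ (l * u) := by rw [div_pow, one_pow, ← pow_mul]
    have hq0 : (0 : ℝ) < (48 * (l : ℝ) + 1) ^ d := by positivity
    have h5 : (1 / (48 * (l : ℝ) + 1)) ^ d = 1 / (48 * (l : ℝ) + 1) ^ d := by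
      rw [div_pow, one_pow]
    rw [h5] at h1
    set N : ℝ := ∑ T ∈ Finset.univ.filter (fun T : Finset ((Fin q → Fin m) × Fin m) =>
      D ≤ T.card), (co (fun x => if f (red x) = true then (1 : ℝ) else 0) T) ^ 2 with hN
    have h6 : N * (1 / (48 * (l : ℝ) + 1) ^ d / 2) ≤
        2 ^ (m ^ (q + 1)) * (d * (2 ^ (m ^ (q + 1)) * (1 / 2 ^ (l * u)))) := by
      refine h1.trans ?_
      gcongr
    have h7 : N ≤ w := by
      calc N = (N * (1 / (48 * (l : ℝ) + 1) ^ d / 2)) * (2 * (48 * (l : ℝ) + 1) ^ d) := by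
            field_simp
        _ ≤ (2 ^ (m ^ (q + 1)) * (d * (2 ^ (m ^ (q + 1)) * (1 / 2 ^ (l * u))))) *
            (2 * (48 * (l : ℝ) + 1) ^ d) := by gcongr
        _ = w := by rw [hw]; ring
    refine le_trans ?_ h7
    apply Finset.sum_le_sum_of_subset_of_nonneg _ (fun T _ _ => sq_nonneg _)
    intro T hT
    rw [hG, Finset.mem_filter, hn] at hT
    rw [Finset.mem_filter]
    exact ⟨Finset.mem_univ _, by omega⟩
  -- the difference `count - threshold`
  let J := (Fin E.len → Bool) ⊕ Fin (E.len + 1)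
  let a : J → ℝ := Sum.elim (fun _ => 1) (fun i => -(2 : ℝ) ^ i.val)
  let gf : J → ((Fin q → Fin m) × Fin m → Bool) → ℝ := Sum.elim
    (fun y x => if E.pred y (red x) = true then (1 : ℝ) else 0)
    (fun i x => if E.digit i (red x) = true then (1 : ℝ) else 0)
  set F : ((Fin q → Fin m) × Fin m → Bool) → ℝ := fun x => ∑ j : J, a j * gf j x with hF
  have hFval : ∀ x, F x = (E.count (red x) : ℝ) - (E.threshold (red x) : ℝ) := by
    intro x
    simp only [hF]
    rw [Fintype.sum_sum_type]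
    simp only [a, gf, Sum.elim_inl, Sum.elim_inr]
    have h1 : ∑ y : Fin E.len → Bool, (1 : ℝ) * (if E.pred y (red x) = true then (1 : ℝ) else 0)
        = (E.count (red x) : ℝ) := by
      unfold Counting.count
      rw [Nat.card_eq_fintype_card, Fintype.card_subtype, Finset.card_filter]
      push_cast
      apply Finset.sum_congr rfl
      intro y _
      rw [one_mul]
    have h2 : ∑ i : Fin (E.len + 1), (-(2 : ℝ) ^ i.val) *
        (if E.digit i (red x) = true then (1 : ℝ) else 0) = -(E.threshold (red x) : ℝ) := by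
      unfold Counting.threshold
      push_cast
      rw [← Finset.sum_neg_distrib]
      apply Finset.sum_congr rfl
      intro i _
      split_ifs <;> simp
    rw [h1, h2]
    ring
  have hF0 : ∀ x, x ∉ AllOdd q m → F x = 0 := by
    intro x hx
    have h1 : red x ∈ SAT (q + 1) v := by
      by_contra h2
      exact hx ((hred2 x).1 h2)
    rw [hFval, (hE _).1 h1, sub_self]
  have hF1 : ∀ x, x ∈ AllOdd q m → 1 ≤ (F x) ^ 2 := by
    intro x hx
    have h1 : red x ∉ SAT (q + 1) v := (hred2 x).2 hx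
    have h2 : E.count (red x) ≠ E.threshold (red x) := fun h => h1 ((hE _).2 h)
    rw [hFval]
    have h3 : (1 : ℤ) ≤ ((E.count (red x) : ℤ) - (E.threshold (red x) : ℤ)) ^ 2 := by
      have h4 : ((E.count (red x) : ℤ) - (E.threshold (red x) : ℤ)) ≠ 0 := by
        intro h5
        apply h2
        have : (E.count (red x) : ℤ) = (E.threshold (red x) : ℤ) := by linarith
        exact_mod_cast this
      have h5 : 0 < ((E.count (red x) : ℤ) - (E.threshold (red x) : ℤ)) ^ 2 := by positivity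
      linarith
    exact_mod_cast h3
  have hhigh := high_half F ((-1) ^ (m ^ q)) (by rw [← pow_mul, mul_comm, pow_mul]; norm_num)
    (by
      intro x hx
      apply chi_allOdd
      by_contra h
      exact hx (hF0 x h))
  have hA : ∑ j : J, |a j| ≤ 2 ^ (M + 2) := by
    rw [Fintype.sum_sum_type]
    simp only [a, Sum.elim_inl, Sum.elim_inr, abs_one, abs_neg, abs_pow]
    have h1 : ∑ _y : Fin E.len → Bool, (1 : ℝ) = 2 ^ M := by
      rw [Finset.sum_const, Finset.card_univ, Fintype.card_fun, Fintype.card_fin,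
        Fintype.card_bool, nsmul_eq_mul, mul_one]
      push_cast
      rfl
    have h2 : ∑ i : Fin (E.len + 1), |(2 : ℝ)| ^ i.val ≤ 2 ^ (M + 1) := by
      rw [abs_of_pos (by norm_num : (0 : ℝ) < 2),
        Fin.sum_univ_eq_sum_range (fun i => (2 : ℝ) ^ i) (E.len + 1),
        geom_sum_eq (by norm_num)]
      have : (0 : ℝ) < 1 := one_pos
      linarith
    rw [h1]
    calc (2 : ℝ) ^ M + ∑ i : Fin (E.len + 1), |(2 : ℝ)| ^ i.val
        ≤ 2 ^ M + 2 ^ (M + 1) := by linarith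
      _ ≤ 2 ^ (M + 2) := by
          have : (0 : ℝ) < 2 ^ M := by positivity
          rw [pow_succ, pow_add 2 M 2]
          linarith
  have hsum := co_sum_sq a gf G (2 ^ (M + 2)) w (by rw [hw]; positivity) hA (by
    rintro (y | i)
    · exact hwt _ (hS.1 y)
    · exact hwt _ (hS.2 i))
  have hpars := parseval F
  rw [hn] at hpars
  have hcard := card_allOdd q m hm
  set X := Finset.univ.filter (fun x : (Fin q → Fin m) × Fin m → Bool => x ∈ AllOdd q m) with hX
  have hXF : (X.card : ℝ) ≤ ∑ x, (F x) ^ 2 := by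
    calc (X.card : ℝ) = ∑ _x ∈ X, (1 : ℝ) := by simp
      _ ≤ ∑ x ∈ X, (F x) ^ 2 :=
          Finset.sum_le_sum (fun x hx => hF1 x (Finset.mem_filter.1 hx).2)
      _ ≤ ∑ x, (F x) ^ 2 :=
          Finset.sum_le_sum_of_subset_of_nonneg (Finset.subset_univ _)
            (fun x _ _ => sq_nonneg _)
  have hcard' : (2 : ℝ) ^ (m ^ (q + 1)) ≤ X.card * 2 ^ (m ^ q) := by exact_mod_cast hcard
  have hnum : (2 : ℝ) ^ (m ^ q + 2 * M + 6) * d * (48 * (l : ℝ) + 1) ^ d < 2 ^ (l * u) := by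
    have := ex_num1 l d M (m ^ q) hl
    exact_mod_cast this
  have hchain : (2 : ℝ) ^ (m ^ (q + 1)) * 2 ^ (m ^ (q + 1)) ≤
      2 ^ (m ^ q) * (2 * ((2 ^ (M + 2)) ^ 2 * w)) := by
    calc (2 : ℝ) ^ (m ^ (q + 1)) * 2 ^ (m ^ (q + 1))
        ≤ 2 ^ (m ^ (q + 1)) * (X.card * 2 ^ (m ^ q)) := by gcongr
      _ ≤ 2 ^ (m ^ (q + 1)) * ((∑ x, (F x) ^ 2) * 2 ^ (m ^ q)) := by gcongr
      _ = 2 ^ (m ^ q) * ∑ T : Finset ((Fin q → Fin m) × Fin m), (co F T) ^ 2 := by
          rw [hpars]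
          ring
      _ ≤ 2 ^ (m ^ q) * (2 * ∑ T ∈ G, (co F T) ^ 2) := by gcongr
      _ ≤ 2 ^ (m ^ q) * (2 * ((2 ^ (M + 2)) ^ 2 * w)) := by gcongr
  have hfin : (2 : ℝ) ^ (m ^ q) * (2 * ((2 ^ (M + 2)) ^ 2 * w)) <
      2 ^ (m ^ (q + 1)) * 2 ^ (m ^ (q + 1)) := by
    have h1 : (2 : ℝ) ^ (m ^ q) * (2 * ((2 ^ (M + 2)) ^ 2 * w)) =
        (2 ^ (m ^ (q + 1)) * 2 ^ (m ^ (q + 1))) *
          ((2 ^ (m ^ q + 2 * M + 6) * d * (48 * (l : ℝ) + 1) ^ d) / 2 ^ (l * u)) := by
      rw [hw]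
      have h2 : ((2 : ℝ) ^ (M + 2)) ^ 2 = 2 ^ (2 * M) * 16 := by
        rw [← pow_mul, show (M + 2) * 2 = 2 * M + 4 by ring, pow_add]
        norm_num
      have h3 : (2 : ℝ) ^ (m ^ q + 2 * M + 6) = 2 ^ (m ^ q) * 2 ^ (2 * M) * 64 := by
        rw [pow_add, pow_add]
        norm_num
      rw [h2, h3]
      ring
    rw [h1]
    have h2 : (2 ^ (m ^ q + 2 * M + 6) * d * (48 * (l : ℝ) + 1) ^ d) / 2 ^ (l * u) < 1 := by
      rw [div_lt_one (by positivity)]
      exact hnum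
    have h3 : (0 : ℝ) < 2 ^ (m ^ (q + 1)) * 2 ^ (m ^ (q + 1)) := by positivity
    calc _ < (2 : ℝ) ^ (m ^ (q + 1)) * 2 ^ (m ^ (q + 1)) * 1 :=
          mul_lt_mul_of_pos_left h2 h3
      _ = _ := mul_one _
  linarith

/-- **Lower bound for exact counting.** -/
theorem ex_lower (k v S d : ℕ) (hk : 3 ≤ k) (E : Counting (Clause k v)) (hS : E.Small S d)
    (hE : E.Exactly (SAT k v)) :
    v ^ k ≤ (5 * k) ^ k * (E.len + v ^ (k - 1)) *
      (392 * Nat.log 2 (S + E.len + v + 2)) ^ (d + 2) := by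
  set Λ := Nat.log 2 (S + E.len + v + 2) with hΛ
  have hΛ1 : 1 ≤ Λ := Nat.log_pos (by norm_num) (by omega)
  rcases Nat.eq_zero_or_pos v with hv0 | hv0
  · have h0 : v ^ k = 0 := by rw [hv0, zero_pow (by omega)]
    rw [h0]
    exact Nat.zero_le _
  rcases lt_or_ge v (3 * k) with hv9 | hv9
  · have h1 : v ^ k ≤ (5 * k) ^ k := Nat.pow_le_pow_left (by omega) k
    have h2 : 1 ≤ E.len + v ^ (k - 1) := by
      have : 1 ≤ v ^ (k - 1) := Nat.one_le_pow _ _ hv0
      omega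
    have h3 : 1 ≤ (392 * Λ) ^ (d + 2) := Nat.one_le_pow _ _ (by omega)
    calc v ^ k ≤ (5 * k) ^ k * 1 * 1 := by rw [mul_one, mul_one]; exact h1
      _ ≤ _ := by gcongr
  · obtain ⟨q, rfl⟩ : ∃ q, k = q + 1 := ⟨k - 1, by omega⟩
    set m := (v / (q + 1) - 1) / 2 with hm
    set l := Λ + 1 with hl
    have hdiv : 3 ≤ v / (q + 1) := (Nat.le_div_iff_mul_le (by omega)).2 hv9
    have hm1 : 1 ≤ m := by omega
    have hmv : (q + 1) * (2 * m + 1) ≤ v := by
      calc (q + 1) * (2 * m + 1) ≤ (q + 1) * (v / (q + 1)) := by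
            apply Nat.mul_le_mul_left
            omega
        _ ≤ v := Nat.mul_div_le v (q + 1)
    have hvm : v ≤ 5 * (q + 1) * m := by
      have h1 : v < (q + 1) * (v / (q + 1) + 1) := by
        rw [mul_add, mul_one]
        have := Nat.div_add_mod v (q + 1)
        have h2 := Nat.mod_lt v (show 0 < q + 1 by omega)
        omega
      have h2 : v / (q + 1) + 1 ≤ 5 * m := by omega
      calc v ≤ (q + 1) * (v / (q + 1) + 1) := h1.le
        _ ≤ (q + 1) * (5 * m) := Nat.mul_le_mul_left _ h2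
        _ = 5 * (q + 1) * m := by ring
    have hlt : S + E.len + v + 2 < 2 ^ (Λ + 1) := Nat.lt_pow_succ_log_self (by norm_num) _
    have hmv2 : m ≤ v := by
      have : 2 * m + 1 ≤ (q + 1) * (2 * m + 1) := Nat.le_mul_of_pos_left _ (by omega)
      omega
    have hSl : S ≤ 2 ^ l := by
      rw [hl]
      omega
    have h1 := ex_core q v S d (by omega) E hS hE m l hm1 hmv (by omega) hSl
    have h2 := ex_num4 l d E.len (m ^ q) (by omega) (Nat.one_le_pow _ _ hm1)
    have h6 : (q + 1 - 1 : ℕ) = q := by omega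
    rw [h6]
    calc v ^ (q + 1) ≤ (5 * (q + 1) * m) ^ (q + 1) := Nat.pow_le_pow_left hvm _
      _ = (5 * (q + 1)) ^ (q + 1) * m ^ (q + 1) := by rw [mul_pow]
      _ ≤ (5 * (q + 1)) ^ (q + 1) * ((E.len + m ^ q) * (196 * l) ^ (d + 2)) := by
          apply Nat.mul_le_mul_left
          exact h1.le.trans h2
      _ ≤ (5 * (q + 1)) ^ (q + 1) * ((E.len + v ^ q) * (392 * Λ) ^ (d + 2)) := by
          have h7 : 196 * l ≤ 392 * Λ := by omega
          gcongr
      _ = _ := by ring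

end Pool.Agent.AC0IP
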