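import Pool.Agent.Lib.AC0IP.ExDefs

/-!
# Counting schemes for SAT, UNSAT and arbitrary sets (module ExUpper)

See Upper.lean for very similar arguments (`Computed 1 1` for one AND gate of literals).
`ex_sat`: `len := v`, `pred y z := ` (`y` satisfies the formula `z`) `= AND of !z cl` over the
clauses `cl` with `∀ j, y (cl j).1 ≠ (cl j).2`; `digit 0 := true`, all other digits `false`
(constants are `IsLit`): threshold `1`.
`ex_unsat`: the same `pred`, all digits `false`: threshold `0`, and `count = 0` iff unsatisfiable.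
`ex_all`: `len := Fintype.card ι`, `y` encodes the input through `Fintype.equivFin`; all digits
`false`; `pred y x := (y as an input is not in L) and x = y` (one AND gate of literals, or the
constant `false`): the count is `1` if `x ∉ L` and `0` if `x ∈ L`.
-/

namespace Pool.Agent.AC0IP

private theorem ex_lit {ι : Type} {f : BF ι} (h : IsLit f) : Computed 1 1 f :=
  ⟨fun _ => 0, fun _ _ => false, fun _ => ⟨∅, by simp, Or.inl fun x => by simp⟩,
    fun _ => Nat.one_pos, Or.inl h⟩

private theorem ex_and {ι : Type} {f : BF ι} (A : Set (BF ι)) (hA : ∀ f ∈ A, IsLit f)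
    (h : ∀ x, f x = true ↔ ∀ f' ∈ A, f' x = true) : Computed 1 1 f :=
  ⟨fun _ => 0, fun _ => f, fun _ => ⟨A, fun f' hf' => Or.inl (hA f' hf'), Or.inr h⟩,
    fun _ => Nat.one_pos, Or.inr ⟨0, Or.inl fun _ => rfl⟩⟩

open Classical in
/-- the satisfaction predicate -/
private noncomputable def exP (k v : ℕ) (y : Fin v → Bool) : BF (Clause k v) := fun z =>
  decide (∀ cl : Clause k v, z cl = true → ∃ j, y (cl j).1 = (cl j).2)

private theorem exP_comp (k v : ℕ) (y : Fin v → Bool) : Computed 1 1 (exP k v y) := by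
  classical
  refine ex_and {f | ∃ cl : Clause k v, (∀ j, y (cl j).1 ≠ (cl j).2) ∧
    f = fun z => !z cl} ?_ ?_
  · rintro f ⟨cl, -, rfl⟩
    exact Or.inr ⟨cl, true, fun x => by simp⟩
  · intro z
    unfold exP
    rw [decide_eq_true_iff]
    constructor
    · rintro h1 f ⟨cl, hcl, rfl⟩
      by_contra h2
      have h3 : z cl = true := by simpa using h2
      obtain ⟨j, hj⟩ := h1 cl h3
      exact hcl j hj
    · intro h1 cl hcl
      by_contra h2
      push Not at h2
      have h3 := h1 (fun z => !z cl) ⟨cl, h2, rfl⟩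
      simp only [hcl] at h3
      exact absurd h3 (by decide)

private theorem exP_sat (k v : ℕ) (z : Clause k v → Bool) :
    (∃ y, exP k v y z = true) ↔ Satisfiable z := by
  unfold exP Satisfiable
  simp only [decide_eq_true_iff]

private theorem ex_pos {ι : Type} (E : Counting ι) (x : ι → Bool) :
    1 ≤ E.count x ↔ ∃ y, E.pred y x = true := by
  unfold Counting.count
  rw [Nat.one_le_iff_ne_zero, ← Nat.pos_iff_ne_zero, Nat.card_pos_iff]
  constructor
  · rintro ⟨⟨y⟩, -⟩
    exact ⟨y.1, y.2⟩
  · rintro ⟨y, hy⟩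
    exact ⟨⟨⟨y, hy⟩⟩, inferInstance⟩

theorem ex_sat (k v : ℕ) : ∃ E : Counting (Clause k v), E.len = v ∧ E.Small 1 1 ∧
    (∀ z, E.threshold z = 1) ∧ E.AtLeast (SAT k v) := by
  refine ⟨⟨v, exP k v, fun i _ => decide (i = 0)⟩, rfl, ⟨fun y => exP_comp k v y, fun i => ?_⟩,
    ?_, ?_⟩
  · exact ex_lit (Or.inl ⟨decide (i = 0), fun _ => rfl⟩)
  · intro z
    unfold Counting.threshold
    simp only [decide_eq_true_iff]
    rw [Finset.sum_ite_eq' Finset.univ (0 : Fin (v + 1)) (fun i => 2 ^ i.val)]
    simp
  · intro z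
    have h1 : (⟨v, exP k v, fun i _ => decide (i = 0)⟩ : Counting (Clause k v)).threshold z = 1 := by
      unfold Counting.threshold
      simp only [decide_eq_true_iff]
      rw [Finset.sum_ite_eq' Finset.univ (0 : Fin (v + 1)) (fun i => 2 ^ i.val)]
      simp
    rw [h1, ex_pos]
    exact (exP_sat k v z).symm

theorem ex_unsat (k v : ℕ) : ∃ E : Counting (Clause k v), E.len = v ∧ E.Small 1 1 ∧
    (∀ z, E.threshold z = 0) ∧ E.Exactly (UNSAT k v) := by
  refine ⟨⟨v, exP k v, fun _ _ => false⟩, rfl, ⟨fun y => exP_comp k v y, fun i => ?_⟩,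
    ?_, ?_⟩
  · exact ex_lit (Or.inl ⟨false, fun _ => rfl⟩)
  · intro z
    unfold Counting.threshold
    simp
  · intro z
    have h1 : (⟨v, exP k v, fun _ _ => false⟩ : Counting (Clause k v)).threshold z = 0 := by
      unfold Counting.threshold
      simp
    rw [h1]
    have h2 := ex_pos (⟨v, exP k v, fun _ _ => false⟩ : Counting (Clause k v)) z
    have h3 := exP_sat k v z
    change ¬ Satisfiable z ↔ _
    rw [← h3]
    constructor
    · intro h4
      by_contra h5
      exact h4 (h2.1 (Nat.one_le_iff_ne_zero.2 h5))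
    · intro h4 h5
      have h6 := h2.2 h5
      rw [h4] at h6
      exact absurd h6 (by norm_num)

theorem ex_all (ι : Type) [Fintype ι] (L : Set (ι → Bool)) :
    ∃ E : Counting ι, E.len = Fintype.card ι ∧ E.Small 1 1 ∧ E.Exactly L := by
  classical
  set e := Fintype.equivFin ι with he
  let pr : (Fin (Fintype.card ι) → Bool) → BF ι := fun y x =>
    decide ((fun i => y (e i)) ∉ L ∧ ∀ i, x i = y (e i))
  refine ⟨⟨Fintype.card ι, pr, fun _ _ => false⟩, rfl, ⟨fun y => ?_, fun i => ?_⟩, ?_⟩
  · by_cases hL : (fun i => y (e i)) ∈ L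
    · refine ex_lit (Or.inl ⟨false, fun x => ?_⟩)
      change decide _ = false
      rw [decide_eq_false_iff_not]
      exact fun h1 => h1.1 hL
    · refine ex_and {f | ∃ i : ι, f = fun x => xor (x i) (!y (e i))} ?_ ?_
      · rintro f ⟨i, rfl⟩
        exact Or.inr ⟨i, _, fun x => rfl⟩
      · intro x
        change decide _ = true ↔ _
        rw [decide_eq_true_iff]
        constructor
        · rintro ⟨-, h1⟩ f ⟨i, rfl⟩
          simp [h1 i]
        · intro h1
          refine ⟨hL, fun i => ?_⟩
          have h2 := h1 (fun x => xor (x i) (!y (e i))) ⟨i, rfl⟩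
          simpa using h2
  · exact ex_lit (Or.inl ⟨false, fun _ => rfl⟩)
  · intro x
    have h1 : (⟨Fintype.card ι, pr, fun _ _ => false⟩ : Counting ι).threshold x = 0 := by
      unfold Counting.threshold
      simp
    rw [h1]
    have h2 := ex_pos (⟨Fintype.card ι, pr, fun _ _ => false⟩ : Counting ι) x
    have h3 : (∃ y, pr y x = true) ↔ x ∉ L := by
      constructor
      · rintro ⟨y, hy⟩
        obtain ⟨h4, h5⟩ := of_decide_eq_true hy
        have h6 : x = fun i => y (e i) := funext h5
        rw [h6]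
        exact h4
      · intro hx
        refine ⟨fun j => x (e.symm j), decide_eq_true ⟨?_, fun i => ?_⟩⟩
        · simpa using hx
        · simp
    constructor
    · intro h4
      by_contra h5
      exact h3.1 (h2.1 (Nat.one_le_iff_ne_zero.2 h5)) h4
    · intro h4
      by_contra h5
      have h6 := h2.2 (h3.2 h5)
      rw [h4] at h6
      exact absurd h6 (by norm_num)

end Pool.Agent.AC0IP
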