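import Pool.Agent.Lib.AC0IP.Stages
import Pool.Agent.Lib.AC0IP.Cert

/-!
# One level of the circuit
-/

set_option linter.unusedSectionVars false

namespace Pool.Agent.AC0IP

variable {ι Γ : Type} [Fintype ι] [DecidableEq ι]

/-- A partition of the cube into subcubes: the subcube of `x` has the free variables `free x`. -/
structure AR (ι : Type) where
  free : (ι → Bool) → Finset ι
  coh : ∀ x x', off (free x) x x' → free x' = free x

/-- All terms over `U` with fewer than `l` variables which imply `h` in the subcube. -/
def termSet (l : ℕ) (h : BF ι) (x : ι → Bool) (U : Finset ι) : Set (Term ι) :=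
  {T | T.1 ⊆ U ∧ T.1.card < l ∧ ∀ z, off U x z → (∀ i ∈ T.1, z i = T.2 i) → h z = true}

/-- A list of the members of a set of terms. -/
noncomputable def setList (s : Set (Term ι)) : List (Term ι) := s.toFinite.toFinset.toList

/-- The list of all terms over `U` with fewer than `l` variables which imply `h` in the
subcube. -/
noncomputable def terms (l : ℕ) (h : BF ι) (x : ι → Bool) (U : Finset ι) : List (Term ι) :=
  setList (termSet l h x U)

theorem mem_terms (l : ℕ) (h : BF ι) (x : ι → Bool) (U : Finset ι) (T : Term ι) :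
    T ∈ terms l h x U ↔ T.1 ⊆ U ∧ T.1.card < l ∧
      ∀ z, off U x z → (∀ i ∈ T.1, z i = T.2 i) → h z = true := by
  unfold terms setList
  rw [Finset.mem_toList, Set.Finite.mem_toFinset]
  rfl

theorem terms_congr (l : ℕ) (h : BF ι) (x x' : ι → Bool) (U : Finset ι) (hx : off U x x') :
    terms l h x' U = terms l h x U := by
  unfold terms
  congr 1
  unfold termSet
  have h1 : ∀ z, off U x' z ↔ off U x z := fun z =>
    ⟨fun hz => off_trans hx hz (Finset.Subset.refl _),
      fun hz => off_trans (off_symm hx) hz (Finset.Subset.refl _)⟩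
  simp only [h1]

/-- The lists of terms of all functions `h a` in the subcubes of `R`. -/
noncomputable def lst (l : ℕ) (h : Γ → BF ι) (R : AR ι) : (ι → Bool) → Γ → List (Term ι) :=
  fun x a => terms l (h a) x (R.free x)

theorem lst_coh (l : ℕ) (h : Γ → BF ι) (R : AR ι) (x x' : ι → Bool)
    (hx : off (R.free x) x x') : R.free x' = R.free x ∧ lst l h R x' = lst l h R x := by
  have h1 := R.coh x x' hx
  refine ⟨h1, ?_⟩
  funext a
  unfold lst
  rw [h1]
  exact terms_congr l (h a) x x' _ hx

theorem lst_card (l : ℕ) (h : Γ → BF ι) (R : AR ι) (x : ι → Bool) (a : Γ) :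
    ∀ T ∈ lst l h R x a, T.1.card ≤ l := by
  intro T hT
  exact ((mem_terms l (h a) x (R.free x) T).1 hT).2.1.le

/-- Restrict the free variables to `Q`, then fix the variables of `u` long walks. -/
noncomputable def next (l u : ℕ) (h : Γ → BF ι) (R : AR ι) (Q : Finset ι) : AR ι where
  free := fun x => fin l (lst l h R) x u (R.free x ∩ Q)
  coh := by
    intro x x' hx
    have h1 : R.free x' = R.free x := R.coh x x'
      (off_mono hx ((fin_subset _ _ _ _ _).trans Finset.inter_subset_left))
    rw [h1]
    exact fin_congr l (lst l h R) x x' u _ hx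

/-- The failure event at the point `x` for the random set `Q`. -/
def Fail (l u : ℕ) (h : Γ → BF ι) (R : AR ι) (Q : Finset ι) (x : ι → Bool) : Prop :=
  bad l (lst l h R) x u (R.free x ∩ Q)

theorem next_subset (l u : ℕ) (h : Γ → BF ι) (R : AR ι) (Q : Finset ι) (x : ι → Bool) :
    (next l u h R Q).free x ⊆ R.free x :=
  (fin_subset _ _ _ _ _).trans Finset.inter_subset_left

theorem card_next (l u : ℕ) (h : Γ → BF ι) (R : AR ι) (Q : Finset ι) (x : ι → Bool) :
    ((R.free x ∩ Q) \ (next l u h R Q).free x).card ≤ u * (l * l) :=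
  card_fin l (lst l h R) (lst_card l h R) x u _

/-- The circuit in OR form. -/
theorem or_form (lev : Γ → ℕ) (g : Γ → BF ι) (hc : IsCircuit lev g) :
    ∃ pol : Γ → Bool, ∀ a : Γ, ∃ A : Set (BF ι),
      (∀ f ∈ A, IsLit f ∨ ∃ b : Γ, lev b < lev a ∧ ((∀ x, f x = g b x) ∨ ∀ x, f x = !g b x)) ∧
      ∀ x, xor (g a x) (pol a) = true ↔ ∃ f ∈ A, f x = true := by
  have h : ∀ a : Γ, ∃ pol : Bool, ∃ A : Set (BF ι),
      (∀ f ∈ A, IsLit f ∨ ∃ b : Γ, lev b < lev a ∧ ((∀ x, f x = g b x) ∨ ∀ x, f x = !g b x)) ∧
      ∀ x, xor (g a x) pol = true ↔ ∃ f ∈ A, f x = true := by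
    intro a
    obtain ⟨A, hA, h1 | h1⟩ := hc a
    · exact ⟨false, A, hA, fun x => by rw [Bool.xor_false]; exact h1 x⟩
    · refine ⟨true, {f | (fun x => !f x) ∈ A}, ?_, ?_⟩
      · intro f hf
        rcases hA _ hf with (⟨c, hc⟩ | ⟨i, b, hib⟩) | ⟨b, hb, h2 | h2⟩
        · refine Or.inl (Or.inl ⟨!c, fun x => ?_⟩)
          have : (!f x) = c := hc x
          rw [← this, Bool.not_not]
        · refine Or.inl (Or.inr ⟨i, !b, fun x => ?_⟩)
          have : (!f x) = xor (x i) b := hib x
          rw [Bool.xor_not, ← this, Bool.not_not]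
        · refine Or.inr ⟨b, hb, Or.inr fun x => ?_⟩
          have : (!f x) = g b x := h2 x
          rw [← this, Bool.not_not]
        · refine Or.inr ⟨b, hb, Or.inl fun x => ?_⟩
          have : (!f x) = !g b x := h2 x
          have h3 : (!(!f x)) = !(!g b x) := by rw [this]
          rwa [Bool.not_not, Bool.not_not] at h3
      · intro x
        have h2 := h1 x
        constructor
        · intro h3
          have h4 : ¬ g a x = true := by
            intro h5
            rw [h5] at h3
            exact absurd h3 (by decide)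
          rw [h2] at h4
          push Not at h4
          obtain ⟨f, hf, hfx⟩ := h4
          refine ⟨fun x => !f x, ?_, ?_⟩
          · change (fun x => !(!f x)) ∈ A
            have h6 : (fun x => !(!f x)) = f := by
              funext y
              rw [Bool.not_not]
            rw [h6]
            exact hf
          · change (!f x) = true
            cases hfx' : f x with
            | true => exact absurd hfx' hfx
            | false => rfl
        · rintro ⟨f, hf, hfx⟩
          have h4 : ¬ g a x = true := by
            intro h5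
            have h6 : (!f x) = true := h2.1 h5 _ hf
            rw [hfx] at h6
            exact absurd h6 (by decide)
          rw [Bool.not_eq_true] at h4
          rw [h4]
          rfl
  choose pol h2 using h
  exact ⟨pol, h2⟩

/-- One level: after restricting to `Q` and fixing the variables of the long walks, all gates of
the next level have short certificates at every point which does not fail. -/
theorem level_step (lev : Γ → ℕ) (g : Γ → BF ι) (pol : Γ → Bool)
    (hp : ∀ a : Γ, ∃ A : Set (BF ι),
      (∀ f ∈ A, IsLit f ∨ ∃ b : Γ, lev b < lev a ∧ ((∀ x, f x = g b x) ∨ ∀ x, f x = !g b x)) ∧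
      ∀ x, xor (g a x) (pol a) = true ↔ ∃ f ∈ A, f x = true) (l u : ℕ) (hl : 2 ≤ l)
    (t : ℕ) (R : AR ι) (Q : Finset ι) (x : ι → Bool)
    (hG : ∀ a, lev a < t → Good l (g a) x (R.free x))
    (hf : ¬ Fail l u (fun a x => xor (g a x) (pol a)) R Q x) :
    ∀ a, lev a < t + 1 →
      Good l (g a) x ((next l u (fun a x => xor (g a x) (pol a)) R Q).free x) := by
  intro a ha
  set h : Γ → BF ι := fun a x => xor (g a x) (pol a) with hh
  set F := (next l u h R Q).free x with hF
  have hFR : F ⊆ R.free x := next_subset l u h R Q x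
  have hns : ¬ stuckE l (lst l h R) x F := fin_not_stuck l (lst l h R) x u _ hf
  have hmask : lst l h R (mask F x) = lst l h R x :=
    (lst_coh l h R x _ (off_mono (mask_off F x) hFR)).2
  obtain ⟨A, hA, hA2⟩ := hp a
  have hgood : Good l (h a) x F := by
    apply good_of_walk l (h a) x F (lst l h R x a)
    · intro T hT z hz hTz
      exact ((mem_terms l (h a) x (R.free x) T).1 hT).2.2 z (off_mono hz hFR) hTz
    · intro z hz hhz
      obtain ⟨f, hfA, hfz⟩ := (hA2 z).1 hhz
      have hgf : Good l f x (R.free x) := by
        rcases hA f hfA with h1 | ⟨b, hb, h1 | h1⟩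
        · exact good_lit l hl f h1 x _
        · exact good_xor l (g b) f false (fun y => by rw [Bool.xor_false]; exact h1 y) x _
            (hG b (by omega))
        · exact good_xor l (g b) f true (fun y => by rw [Bool.xor_true]; exact h1 y) x _
            (hG b (by omega))
      obtain ⟨C, hC1, hC2, hC3⟩ := hgf z (off_mono hz hFR)
      refine ⟨(C, z), ?_, fun i _ => rfl⟩
      refine (mem_terms l (h a) x (R.free x) (C, z)).2 ⟨hC1, hC2, ?_⟩
      intro z' hz' hz'C
      have h2 : off (R.free x \ C) z z' := by
        intro i hi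
        by_cases hiC : i ∈ C
        · exact hz'C i hiC
        · have hiR : i ∉ R.free x := fun h3 => hi (Finset.mem_sdiff.2 ⟨h3, hiC⟩)
          rw [hz' i hiR, hz i (fun h3 => hiR (hFR h3))]
      have h3 := hC3 z' h2
      rw [hfz] at h3
      exact (hA2 z').2 ⟨f, hfA, h3⟩
    · intro z hz
      by_contra h1
      apply hns
      refine ⟨(a, z), (off_mask F x z).2 hz, ?_⟩
      rw [hmask]
      exact not_lt.1 h1
  apply good_xor l (h a) (g a) (pol a) _ x F hgood
  intro y
  simp only [hh]
  rw [Bool.xor_assoc, Bool.xor_self, Bool.xor_false]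

end Pool.Agent.AC0IP
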