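import Pool.Agent.Lib.AC0IP.Char
import Pool.Agent.Lib.AC0IP.Levels

/-!
# Functions with short certificates have small degree (module Leaf)

`leaf_sum`. Let `cube x U := univ.filter (fun z => off U x z)`. STEP 0 (splitting): for `A ⊆ U`,
`∑ z ∈ cube x U, g z = ∑ y ∈ cube x A, ∑ z ∈ cube y (U \ A), g z` (the map `z ↦ (z on A, x off A)`;
`Finset.sum_fiberwise_of_maps_to` or a sigma bijection). STEP 1 (constant functions): if `f` is
constant on `cube x U` and `i ∈ S ∩ U` then the sum is `0`: the involution flipping the bit `i`
maps `cube x U` to itself and changes the sign of `chi S`. STEP 2 (main induction, on `c`): let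
`P c x U` be: for all `z ∈ cube x U` with `f z = true` there is `C ⊆ U`, `C.card ≤ a`, with
`f z' = true` for all `z'` with `off (U \ C) z z'`, and for all `z ∈ cube x U` with `f z = false`
there is `C ⊆ U`, `C.card ≤ c`, with `f z' = false` for all such `z'`. Then
`a * c < (S ∩ U).card → ∑ z ∈ cube x U, (if f z then 1 else 0) * chi S z = 0`.
If `f` is constantly `false` on the cube the sum is `0`. If there is a point `z₁` with
`f z₁ = true`, let `C₁` be its certificate. If `c = 0` and some point has the value `false` then
`f` is constant on the cube, contradiction; so for `c = 0` the function is constant: STEP 1.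
For `c + 1`: split along `A := C₁`. On `cube y (U \ C₁)` (a subset of `cube x U`) the property
`P c y (U \ C₁)` holds: for a true point replace its certificate `C` by `C \ C₁`; for a false
point `z` with certificate `C`, `C ∩ C₁ ≠ ∅` (otherwise the point equal to `z₁` on `C₁` and to `z`
elsewhere would be both `true` and `false`), so `(C \ C₁).card ≤ c`; and
`(S ∩ (U \ C₁)).card ≥ (S ∩ U).card - a > a * (c + 1) - a = a * c`.
Apply STEP 2 with `a = c = l` (`Good l f x U` gives `C.card < l` for all points).
-/

namespace Pool.Agent.AC0IP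

variable {ι : Type} [Fintype ι] [DecidableEq ι]

open Classical in
private theorem leaf_split (g : (ι → Bool) → ℝ) (x : ι → Bool) (A U : Finset ι) (hA : A ⊆ U) :
    ∑ z ∈ Finset.univ.filter (fun z => off U x z), g z =
      ∑ y ∈ Finset.univ.filter (fun y => off A x y),
        ∑ z ∈ Finset.univ.filter (fun z => off (U \ A) y z), g z := by
  have hmaps : ∀ z ∈ Finset.univ.filter (fun z : ι → Bool => off U x z),
      (fun i => if i ∈ A then z i else x i) ∈ Finset.univ.filter (fun y => off A x y) := by
    intro z _
    rw [Finset.mem_filter]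
    refine ⟨Finset.mem_univ _, fun i hi => ?_⟩
    simp [hi]
  rw [← Finset.sum_fiberwise_of_maps_to hmaps]
  refine Finset.sum_congr rfl fun y hy => ?_
  have hy' : off A x y := (Finset.mem_filter.1 hy).2
  refine Finset.sum_congr ?_ fun _ _ => rfl
  ext z
  rw [Finset.mem_filter, Finset.mem_filter, Finset.mem_filter]
  constructor
  · rintro ⟨⟨-, h1⟩, h2⟩
    refine ⟨Finset.mem_univ _, fun i hi => ?_⟩
    have h3 := congrFun h2 i
    by_cases hiA : i ∈ A
    · simpa [hiA] using h3
    · simp only [hiA, if_false] at h3
      have hiU : i ∉ U := fun h => hi (Finset.mem_sdiff.2 ⟨h, hiA⟩)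
      rw [h1 i hiU, ← h3]
  · rintro ⟨-, h1⟩
    refine ⟨⟨Finset.mem_univ _, fun i hi => ?_⟩, ?_⟩
    · rw [h1 i fun h => hi (Finset.mem_sdiff.1 h).1, hy' i fun h => hi (hA h)]
    · funext i
      by_cases hiA : i ∈ A
      · simp only [hiA, if_true]
        exact h1 i fun h => (Finset.mem_sdiff.1 h).2 hiA
      · simp only [hiA, if_false]
        exact (hy' i hiA).symm

omit [Fintype ι] in
private theorem chi_flip (S : Finset ι) (i : ι) (hi : i ∈ S) (z : ι → Bool) :
    chi S (Function.update z i (!z i)) = - chi S z := by
  unfold chi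
  rw [← Finset.mul_prod_erase S _ hi, ← Finset.mul_prod_erase S _ hi]
  have h1 : ∏ j ∈ S.erase i, (if Function.update z i (!z i) j = true then (-1 : ℝ) else 1) =
      ∏ j ∈ S.erase i, (if z j = true then (-1 : ℝ) else 1) := by
    refine Finset.prod_congr rfl fun j hj => ?_
    rw [Function.update_of_ne (Finset.ne_of_mem_erase hj)]
  rw [h1, Function.update_self]
  cases z i <;> simp

open Classical in
private theorem leaf_const (x : ι → Bool) (U S : Finset ι) (i : ι) (hi : i ∈ S ∩ U) :
    ∑ z ∈ Finset.univ.filter (fun z => off U x z), chi S z = 0 := by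
  rw [Finset.mem_inter] at hi
  refine Finset.sum_involution (fun z _ => Function.update z i (!z i)) ?_ ?_ ?_ ?_
  · intro z _
    rw [chi_flip S i hi.1]
    ring
  · intro z _ _ h
    have h1 := congrFun h i
    rw [Function.update_self] at h1
    cases h2 : z i <;> simp [h2] at h1
  · intro z hz
    rw [Finset.mem_filter] at hz ⊢
    refine ⟨Finset.mem_univ _, fun j hj => ?_⟩
    have hji : j ≠ i := fun h => hj (h ▸ hi.2)
    rw [Function.update_of_ne hji]
    exact hz.2 j hj
  · intro z _
    funext j
    by_cases hji : j = i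
    · subst hji
      simp
    · simp [Function.update_of_ne hji]

open Classical in
private theorem leaf_ind (a : ℕ) (f : BF ι) (S : Finset ι) : ∀ (c : ℕ) (x : ι → Bool)
    (U : Finset ι),
    (∀ z, off U x z → f z = true → ∃ C ⊆ U, C.card ≤ a ∧ ∀ z', off (U \ C) z z' → f z' = true) →
    (∀ z, off U x z → f z = false → ∃ C ⊆ U, C.card ≤ c ∧ ∀ z', off (U \ C) z z' → f z' = false) →
    a * c < (S ∩ U).card →
    ∑ z ∈ Finset.univ.filter (fun z => off U x z), (if f z = true then (1 : ℝ) else 0) * chi S z
      = 0 := by
  intro c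
  induction c with
  | zero =>
    intro x U ht hf hS
    by_cases h1 : ∃ z₁, off U x z₁ ∧ f z₁ = true
    · obtain ⟨z₁, hz₁, hfz₁⟩ := h1
      have hall : ∀ z ∈ Finset.univ.filter (fun z => off U x z),
          (if f z = true then (1 : ℝ) else 0) * chi S z = chi S z := by
        intro z hz
        have hz' : off U x z := (Finset.mem_filter.1 hz).2
        have h2 : f z = true := by
          by_contra hcon
          have h3 : f z = false := by simpa using hcon
          obtain ⟨C, hCU, hC0, hC⟩ := hf z hz' h3
          have hC1 : C = ∅ := Finset.card_eq_zero.1 (Nat.le_zero.1 hC0)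
          have h4 := hC z₁ (fun i hi => by
            rw [hC1, Finset.sdiff_empty] at hi
            rw [hz₁ i hi, hz' i hi])
          rw [hfz₁] at h4
          exact Bool.noConfusion h4
        rw [if_pos h2, one_mul]
      rw [Finset.sum_congr rfl hall]
      have h5 : 0 < (S ∩ U).card := by
        rw [mul_zero] at hS
        exact hS
      obtain ⟨i, hi⟩ := Finset.card_pos.1 h5
      exact leaf_const x U S i hi
    · refine Finset.sum_eq_zero fun z hz => ?_
      have hz' : off U x z := (Finset.mem_filter.1 hz).2
      rw [if_neg fun h => h1 ⟨z, hz', h⟩, zero_mul]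
  | succ c ih =>
    intro x U ht hf hS
    by_cases h1 : ∃ z₁, off U x z₁ ∧ f z₁ = true
    · obtain ⟨z₁, hz₁, hfz₁⟩ := h1
      obtain ⟨C₁, hC₁U, hC₁a, hC₁⟩ := ht z₁ hz₁ hfz₁
      rw [leaf_split _ x C₁ U hC₁U]
      refine Finset.sum_eq_zero fun y hy => ?_
      have hy' : off C₁ x y := (Finset.mem_filter.1 hy).2
      have hoff : ∀ z, off (U \ C₁) y z → off U x z := by
        intro z hz i hi
        rw [hz i fun h => hi (Finset.mem_sdiff.1 h).1, hy' i fun h => hi (hC₁U h)]
      have hsub : ∀ C : Finset ι, (U \ C₁) \ (C \ C₁) ⊆ U \ C := by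
        intro C i hi
        rw [Finset.mem_sdiff, Finset.mem_sdiff, Finset.mem_sdiff] at hi
        rw [Finset.mem_sdiff]
        exact ⟨hi.1.1, fun h => hi.2 ⟨h, hi.1.2⟩⟩
      refine ih y (U \ C₁) ?_ ?_ ?_
      · intro z hz hfz
        obtain ⟨C, hCU, hCa, hC⟩ := ht z (hoff z hz) hfz
        refine ⟨C \ C₁, Finset.sdiff_subset_sdiff hCU (Finset.Subset.refl _),
          (Finset.card_le_card Finset.sdiff_subset).trans hCa, fun z' hz' => hC z' ?_⟩
        exact fun i hi => hz' i fun h => hi (hsub C h)
      · intro z hz hfz
        obtain ⟨C, hCU, hCa, hC⟩ := hf z (hoff z hz) hfz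
        refine ⟨C \ C₁, Finset.sdiff_subset_sdiff hCU (Finset.Subset.refl _), ?_,
          fun z' hz' => hC z' ?_⟩
        · have hne : ∃ i, i ∈ C ∧ i ∈ C₁ := by
            by_contra hcon
            have hdis : ∀ i, i ∈ C → i ∉ C₁ := fun i hi hi' => hcon ⟨i, hi, hi'⟩
            have hz' := hoff z hz
            have hw1 : f (fun i => if i ∈ C₁ then z₁ i else z i) = true := by
              refine hC₁ _ fun i hi => ?_
              by_cases hiC : i ∈ C₁
              · simp [hiC]
              · have hiU : i ∉ U := fun h => hi (Finset.mem_sdiff.2 ⟨h, hiC⟩)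
                simp only [hiC, if_false]
                rw [hz' i hiU, hz₁ i hiU]
            have hw2 : f (fun i => if i ∈ C₁ then z₁ i else z i) = false := by
              refine hC _ fun i hi => ?_
              by_cases hiC : i ∈ C₁
              · exact absurd (Finset.mem_sdiff.2 ⟨hC₁U hiC, fun h => hdis i h hiC⟩) hi
              · simp [hiC]
            rw [hw1] at hw2
            exact Bool.noConfusion hw2
          obtain ⟨i, hiC, hiC₁⟩ := hne
          have hlt : (C \ C₁).card < C.card := by
            refine Finset.card_lt_card ⟨Finset.sdiff_subset, fun h => ?_⟩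
            exact (Finset.mem_sdiff.1 (h hiC)).2 hiC₁
          omega
        · exact fun i hi => hz' i fun h => hi (hsub C h)
      · have h2 : (S ∩ U).card ≤ (S ∩ (U \ C₁)).card + C₁.card := by
          rw [← Finset.card_union_of_disjoint]
          · refine Finset.card_le_card fun i hi => ?_
            rw [Finset.mem_inter] at hi
            rw [Finset.mem_union, Finset.mem_inter, Finset.mem_sdiff]
            by_cases hiC : i ∈ C₁
            · exact Or.inr hiC
            · exact Or.inl ⟨hi.1, hi.2, hiC⟩
          · rw [Finset.disjoint_left]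
            intro i hi hi'
            rw [Finset.mem_inter, Finset.mem_sdiff] at hi
            exact hi.2.2 hi'
        have h3 : a * (c + 1) = a * c + a := by ring
        omega
    · refine Finset.sum_eq_zero fun z hz => ?_
      have hz' : off U x z := (Finset.mem_filter.1 hz).2
      rw [if_neg fun h => h1 ⟨z, hz', h⟩, zero_mul]

open Classical in
theorem leaf_sum (l : ℕ) (f : BF ι) (x : ι → Bool) (U : Finset ι) (hG : Good l f x U)
    (S : Finset ι) (hS : l * l < (S ∩ U).card) :
    ∑ z ∈ Finset.univ.filter (fun z => off U x z), (if f z = true then (1 : ℝ) else 0) * chi S z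
      = 0 := by
  refine leaf_ind l f S l x U ?_ ?_ hS
  · intro z hz hfz
    obtain ⟨C, hCU, hCl, hC⟩ := hG z hz
    exact ⟨C, hCU, hCl.le, fun z' hz' => by rw [hC z' hz', hfz]⟩
  · intro z hz hfz
    obtain ⟨C, hCU, hCl, hC⟩ := hG z hz
    exact ⟨C, hCU, hCl.le, fun z' hz' => by rw [hC z' hz', hfz]⟩

end Pool.Agent.AC0IP
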