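import Pool.Agent.Lib.AC0IP.Levels

/-!
# Sums over the classes of a partition into subcubes (module LeafB)

`sum_good`: the relation `off (R.free x) x x'` is an equivalence relation (by `R.coh`), `Zᶜ` is a
union of classes; sum over the classes (`Finset.sum_partition` or strong induction on the number
of points: remove the class of one point).
`bad_congr`: as `fin_congr` in Stages.lean: the definition of `bad` only uses `mask U x` for sets
`U` containing `fin l L x j U`.
-/

namespace Pool.Agent.AC0IP

variable {ι : Type} [Fintype ι] [DecidableEq ι]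

private theorem leafB_sum (R : AR ι) (g : (ι → Bool) → ℝ) (n : ℕ) :
    ∀ T : Finset (ι → Bool), T.card = n → (∀ x ∈ T, ∀ x', off (R.free x) x x' → x' ∈ T) →
      (∀ (C : Finset (ι → Bool)) (x : ι → Bool), x ∈ T →
        (∀ z, z ∈ C ↔ off (R.free x) x z) → ∑ z ∈ C, g z = 0) → ∑ x ∈ T, g x = 0 := by
  classical
  induction n using Nat.strong_induction_on with
  | _ n ih =>
    intro T hn hT hg
    rcases T.eq_empty_or_nonempty with rfl | ⟨x, hx⟩
    · exact Finset.sum_empty
    · have hCx : ∀ z, z ∈ T.filter (fun z => off (R.free x) x z) ↔ off (R.free x) x z := by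
        intro z
        rw [Finset.mem_filter]
        exact ⟨fun h => h.2, fun h => ⟨hT x hx z h, h⟩⟩
      have h1 := hg _ x hx hCx
      have hxx : x ∈ T.filter (fun z => off (R.free x) x z) := (hCx x).2 fun _ _ => rfl
      have h2 := Finset.sum_filter_add_sum_filter_not T (fun z => off (R.free x) x z) g
      rw [← h2, h1, zero_add]
      refine ih (T.filter fun z => ¬ off (R.free x) x z).card ?_ _ rfl ?_ ?_
      · rw [← hn]
        refine Finset.card_lt_card ⟨Finset.filter_subset _ _, fun hsub => ?_⟩
        exact (Finset.mem_filter.1 (hsub hx)).2 fun _ _ => rfl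
      · intro y hy y' hyy'
        rw [Finset.mem_filter] at hy ⊢
        refine ⟨hT y hy.1 y' hyy', fun hcon => hy.2 ?_⟩
        have h3 : R.free y = R.free x := by
          rw [← R.coh y y' hyy', R.coh x y' hcon]
        rw [h3] at hyy'
        exact off_trans hcon (off_symm hyy') (Finset.Subset.refl _)
      · intro C y hy hC
        exact hg C y (Finset.mem_filter.1 hy).1 hC

open Classical in
theorem sum_good (R : AR ι) (Z : Finset (ι → Bool))
    (hZ : ∀ x x', off (R.free x) x x' → x ∈ Z → x' ∈ Z) (g : (ι → Bool) → ℝ)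
    (h : ∀ x, x ∉ Z → ∑ z ∈ Finset.univ.filter (fun z => off (R.free x) x z), g z = 0) :
    ∑ x ∈ Finset.univ.filter (fun x => x ∉ Z), g x = 0 := by
  refine leafB_sum R g _ _ rfl ?_ ?_
  · intro x hx x' hxx'
    rw [Finset.mem_filter] at hx ⊢
    refine ⟨Finset.mem_univ _, fun hcon => hx.2 ?_⟩
    have h1 := R.coh x x' hxx'
    refine hZ x' x ?_ hcon
    rw [h1]
    exact off_symm hxx'
  · intro C x hx hC
    rw [← h x (Finset.mem_filter.1 hx).2]
    refine Finset.sum_congr ?_ fun _ _ => rfl
    ext z
    rw [hC z, Finset.mem_filter]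
    exact ⟨fun hz => ⟨Finset.mem_univ _, hz⟩, fun hz => hz.2⟩

theorem bad_congr {Γ : Type} (l : ℕ) (L : (ι → Bool) → Γ → List (Term ι)) (x x' : ι → Bool)
    (j : ℕ) (U : Finset ι) (h : off (fin l L x j U) x x') :
    bad l L x' j U ↔ bad l L x j U := by
  induction j generalizing U with
  | zero => exact Iff.rfl
  | succ j ih =>
    have h1 : off U x x' := off_mono h (fin_subset l L x (j + 1) U)
    have h2 : stuckE l L x' U ↔ stuckE l L x U := by
      unfold stuckE
      rw [mask_eq U x x' h1]
    change (stuckE l L x' U ∧ bad l L x' j (nxt l L x' U)) ↔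
      (stuckE l L x U ∧ bad l L x j (nxt l L x U))
    rw [nxt_congr l L x x' U h1, h2]
    exact and_congr_right fun _ => ih (nxt l L x U) h

end Pool.Agent.AC0IP
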