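import Pool.Agent.Lib.AC0IP.Tail
import Pool.Agent.Lib.AC0IP.Leaf
import Pool.Agent.Lib.AC0IP.LeafB

/-!
# Fourier tail of constant-depth circuits
-/

set_option linter.unusedSectionVars false

namespace Pool.Agent.AC0IP

variable {ι Γ : Type} [Fintype ι] [DecidableEq ι] [Fintype Γ]

open Classical in
/-- The failure event depends only on the class of the point in the next partition. -/
theorem fail_congr (l u : ℕ) (h : Γ → BF ι) (R : AR ι) (Q : Finset ι) (x x' : ι → Bool)
    (hx : off ((next l u h R Q).free x) x x') :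
    Fail l u h R Q x' ↔ Fail l u h R Q x := by
  have hx2 : off (R.free x) x x' := off_mono hx (next_subset l u h R Q x)
  have h1 := lst_coh l h R x x' hx2
  unfold Fail
  rw [h1.1]
  exact bad_congr l (lst l h R) x x' u (R.free x ∩ Q) hx

open Classical in
/-- Fourier weight of the sets which meet the random set in more than `B` elements. -/
theorem EJ_le_fail (lev : Γ → ℕ) (g : Γ → BF ι) (pol : Γ → Bool)
    (hpol : ∀ a : Γ, ∃ A : Set (BF ι),
      (∀ f ∈ A, IsLit f ∨ ∃ b : Γ, lev b < lev a ∧ ((∀ x, f x = g b x) ∨ ∀ x, f x = !g b x)) ∧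
      ∀ x, xor (g a x) (pol a) = true ↔ ∃ f ∈ A, f x = true) (p : ℝ) (h0 : 0 ≤ p) (h1 : p ≤ 1)
    (l u : ℕ) (hl : 2 ≤ l) (d : ℕ) (f : BF ι)
    (hf : ∀ (x : ι → Bool) (U : Finset ι), (∀ a, lev a < d → Good l (g a) x U) → Good l f x U)
    (B : ℕ) (r t : ℕ) (R : AR ι) (A : Finset ι) (Z : Finset (ι → Bool)) (c : ℕ)
    (htr : t + r = d)
    (hZ : ∀ x x', off (R.free x) x x' → x ∈ Z → x' ∈ Z)
    (hG : ∀ x, x ∉ Z → ∀ a, lev a < t → Good l (g a) x (R.free x))
    (hc : ∀ x, x ∉ Z → (A \ R.free x).card ≤ c)
    (hB : l * l + c + r * (u * (l * l)) ≤ B) :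
    EJ p (fun Q => ∑ S ∈ Finset.univ.filter (fun S : Finset ι => B < (S ∩ Q).card),
        (co (fun x => if f x = true then (1 : ℝ) else 0) S) ^ 2) r A ≤
      2 ^ Fintype.card ι * ((Z.card : ℝ) + ∑ x ∈ Finset.univ.filter (fun x => x ∉ Z),
        beta p l u (fun a x => xor (g a x) (pol a)) x r R) := by
  induction r generalizing t R A Z c with
  | zero =>
    set F : (ι → Bool) → ℝ := fun x => if f x = true then (1 : ℝ) else 0 with hF
    set F' : (ι → Bool) → ℝ := fun x => if x ∈ Z then F x else 0 with hF'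
    have key : ∀ S ∈ Finset.univ.filter (fun S : Finset ι => B < (S ∩ A).card),
        co F S = co F' S := by
      intro S hS
      rw [Finset.mem_filter] at hS
      unfold co
      have h2 : ∑ x : ι → Bool, F x * chi S x =
          ∑ x ∈ Finset.univ.filter (fun x => x ∈ Z), F x * chi S x +
          ∑ x ∈ Finset.univ.filter (fun x => x ∉ Z), F x * chi S x :=
        (Finset.sum_filter_add_sum_filter_not Finset.univ (fun x => x ∈ Z) _).symm
      have h3 : ∑ x ∈ Finset.univ.filter (fun x => x ∉ Z), F x * chi S x = 0 := by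
        apply sum_good R Z hZ
        intro x hx
        apply leaf_sum l f x (R.free x)
        · exact hf x _ (fun a ha => hG x hx a (by omega))
        · have h4 := hc x hx
          have h5 : S ∩ A ⊆ (S ∩ R.free x) ∪ (A \ R.free x) := by
            intro i hi
            rw [Finset.mem_inter] at hi
            rw [Finset.mem_union, Finset.mem_inter, Finset.mem_sdiff]
            by_cases h6 : i ∈ R.free x
            · exact Or.inl ⟨hi.1, h6⟩
            · exact Or.inr ⟨hi.2, h6⟩
          have h6 := (Finset.card_le_card h5).trans (Finset.card_union_le _ _)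
          have h7 := hS.2
          omega
      rw [h2, h3, add_zero, Finset.sum_filter]
      apply Finset.sum_congr rfl
      intro x _
      simp only [hF']
      split_ifs <;> simp
    change ∑ S ∈ Finset.univ.filter (fun S : Finset ι => B < (S ∩ A).card), (co F S) ^ 2 ≤ _
    have h2 : ∑ x ∈ Finset.univ.filter (fun x => x ∉ Z),
        beta p l u (fun a x => xor (g a x) (pol a)) x 0 R = 0 :=
      Finset.sum_eq_zero (fun x _ => rfl)
    rw [h2, add_zero]
    calc ∑ S ∈ Finset.univ.filter (fun S : Finset ι => B < (S ∩ A).card), (co F S) ^ 2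
        = ∑ S ∈ Finset.univ.filter (fun S : Finset ι => B < (S ∩ A).card), (co F' S) ^ 2 :=
          Finset.sum_congr rfl (fun S hS => by rw [key S hS])
      _ ≤ ∑ S : Finset ι, (co F' S) ^ 2 :=
          Finset.sum_le_sum_of_subset_of_nonneg (Finset.filter_subset _ _)
            (fun S _ _ => sq_nonneg _)
      _ = 2 ^ Fintype.card ι * ∑ x : ι → Bool, (F' x) ^ 2 := parseval F'
      _ ≤ 2 ^ Fintype.card ι * (Z.card : ℝ) := by
          apply mul_le_mul_of_nonneg_left _ (by positivity)
          have h3 : ∀ x : ι → Bool, (F' x) ^ 2 ≤ if x ∈ Z then (1 : ℝ) else 0 := by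
            intro x
            simp only [hF', hF]
            split_ifs <;> norm_num
          calc ∑ x : ι → Bool, (F' x) ^ 2 ≤ ∑ x : ι → Bool, (if x ∈ Z then (1 : ℝ) else 0) :=
                Finset.sum_le_sum (fun x _ => h3 x)
            _ = (Z.card : ℝ) := by simp
  | succ r ih =>
    set h : Γ → BF ι := fun a x => xor (g a x) (pol a) with hh
    have step : ∀ Q : Finset ι,
        EJ p (fun Q => ∑ S ∈ Finset.univ.filter (fun S : Finset ι => B < (S ∩ Q).card),
          (co (fun x => if f x = true then (1 : ℝ) else 0) S) ^ 2) r (A ∩ Q) ≤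
        2 ^ Fintype.card ι * ((Z.card : ℝ) + ∑ x ∈ Finset.univ.filter (fun x => x ∉ Z),
          ((if Fail l u h R Q x then (1 : ℝ) else 0) + beta p l u h x r (next l u h R Q))) := by
      intro Q
      set Z' : Finset (ι → Bool) := Finset.univ.filter
        (fun x => x ∈ Z ∨ Fail l u h R Q x) with hZ'
      have hmem : ∀ x, x ∈ Z' ↔ x ∈ Z ∨ Fail l u h R Q x := by
        intro x
        rw [hZ', Finset.mem_filter]
        exact ⟨fun h => h.2, fun h => ⟨Finset.mem_univ _, h⟩⟩
      have h2 := ih (t + 1) (next l u h R Q) (A ∩ Q) Z' (c + u * (l * l)) (by omega)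
        (by
          intro x x' hx hxZ
          rw [hmem] at hxZ ⊢
          rcases hxZ with h3 | h3
          · exact Or.inl (hZ x x' (off_mono hx (next_subset l u h R Q x)) h3)
          · exact Or.inr ((fail_congr l u h R Q x x' hx).2 h3))
        (by
          intro x hx
          rw [hmem, not_or] at hx
          exact level_step lev g pol hpol l u hl t R Q x (hG x hx.1) hx.2)
        (by
          intro x hx
          rw [hmem, not_or] at hx
          have h4 : (A ∩ Q) \ (next l u h R Q).free x ⊆
              (A \ R.free x) ∪ ((R.free x ∩ Q) \ (next l u h R Q).free x) := by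
            intro i hi
            rw [Finset.mem_sdiff, Finset.mem_inter] at hi
            rw [Finset.mem_union, Finset.mem_sdiff, Finset.mem_sdiff, Finset.mem_inter]
            by_cases h5 : i ∈ R.free x
            · exact Or.inr ⟨⟨h5, hi.1.2⟩, hi.2⟩
            · exact Or.inl ⟨hi.1.1, h5⟩
          have h5 := (Finset.card_le_card h4).trans (Finset.card_union_le _ _)
          have h6 := card_next l u h R Q x
          have h7 := hc x hx.1
          omega)
        (by
          have h7 : (r + 1) * (u * (l * l)) = r * (u * (l * l)) + u * (l * l) := by ring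
          omega)
      refine h2.trans ?_
      apply mul_le_mul_of_nonneg_left _ (by positivity)
      have h3 : (Z'.card : ℝ) ≤ (Z.card : ℝ) + ∑ x ∈ Finset.univ.filter (fun x => x ∉ Z),
          (if Fail l u h R Q x then (1 : ℝ) else 0) := by
        have h4 : (Z'.card : ℝ) = ∑ x : ι → Bool, (if x ∈ Z ∨ Fail l u h R Q x then (1 : ℝ)
            else 0) := by
          rw [hZ', Finset.card_filter]
          push_cast
          rfl
        have h5 : (Z.card : ℝ) = ∑ x : ι → Bool, (if x ∈ Z then (1 : ℝ) else 0) := by simp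
        rw [h4, h5, Finset.sum_filter, ← Finset.sum_add_distrib]
        apply Finset.sum_le_sum
        intro x _
        by_cases h6 : x ∈ Z
        · simp [h6]
        · by_cases h7 : Fail l u h R Q x
          · simp [h6, h7]
          · simp [h6, h7]
      have h4 : ∑ x ∈ Finset.univ.filter (fun x => x ∉ Z'), beta p l u h x r (next l u h R Q) ≤
          ∑ x ∈ Finset.univ.filter (fun x => x ∉ Z), beta p l u h x r (next l u h R Q) := by
        apply Finset.sum_le_sum_of_subset_of_nonneg
        · intro x hx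
          rw [Finset.mem_filter] at hx ⊢
          refine ⟨hx.1, fun h5 => hx.2 ((hmem x).2 (Or.inl h5))⟩
        · intro x _ _
          exact beta_nonneg p h0 h1 l u h x r _
      rw [Finset.sum_add_distrib]
      linarith
    calc EJ p (fun Q => ∑ S ∈ Finset.univ.filter (fun S : Finset ι => B < (S ∩ Q).card),
          (co (fun x => if f x = true then (1 : ℝ) else 0) S) ^ 2) (r + 1) A
        = ∑ Q : Finset ι, W p Q * EJ p (fun Q => ∑ S ∈ Finset.univ.filter
          (fun S : Finset ι => B < (S ∩ Q).card),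
          (co (fun x => if f x = true then (1 : ℝ) else 0) S) ^ 2) r (A ∩ Q) := rfl
      _ ≤ ∑ Q : Finset ι, W p Q * (2 ^ Fintype.card ι * ((Z.card : ℝ) +
          ∑ x ∈ Finset.univ.filter (fun x => x ∉ Z),
          ((if Fail l u h R Q x then (1 : ℝ) else 0) + beta p l u h x r (next l u h R Q)))) :=
          Finset.sum_le_sum (fun Q _ => mul_le_mul_of_nonneg_left (step Q) (W_nonneg p h0 h1 Q))
      _ = 2 ^ Fintype.card ι * ((Z.card : ℝ) + ∑ x ∈ Finset.univ.filter (fun x => x ∉ Z),
          ∑ Q : Finset ι, W p Q * ((if Fail l u h R Q x then (1 : ℝ) else 0) +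
            beta p l u h x r (next l u h R Q))) := by
          rw [Finset.sum_comm]
          have h2 : ∀ Q : Finset ι, W p Q * (2 ^ Fintype.card ι * ((Z.card : ℝ) +
              ∑ x ∈ Finset.univ.filter (fun x => x ∉ Z),
              ((if Fail l u h R Q x then (1 : ℝ) else 0) +
                beta p l u h x r (next l u h R Q)))) =
              2 ^ Fintype.card ι * (W p Q * (Z.card : ℝ) +
              ∑ x ∈ Finset.univ.filter (fun x => x ∉ Z), W p Q *
              ((if Fail l u h R Q x then (1 : ℝ) else 0) +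
                beta p l u h x r (next l u h R Q))) := by
            intro Q
            rw [← Finset.mul_sum]
            ring
          rw [Finset.sum_congr rfl (fun Q _ => h2 Q), ← Finset.mul_sum,
            Finset.sum_add_distrib, ← Finset.sum_mul, W_sum, one_mul]
      _ = _ := rfl

open Classical in
/-- **Fourier tail** of a function computed by a constant-depth circuit. -/
theorem ftail (lev : Γ → ℕ) (g : Γ → BF ι) (hc : IsCircuit lev g)
    (d : ℕ) (hd : ∀ a, lev a < d) (f : BF ι) (hout : IsOut g f)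
    (l u : ℕ) (hl : 2 ≤ l) (B : ℕ) (hB0 : 0 < B)
    (hB : l * l + d * (u * (l * l)) ≤ B) (D : ℕ)
    (hD : 2 * (48 * l + 1) ^ d * B ≤ D) :
    (∑ S ∈ Finset.univ.filter (fun S : Finset ι => D ≤ S.card),
      (co (fun x => if f x = true then (1 : ℝ) else 0) S) ^ 2) *
      ((1 / (48 * (l : ℝ) + 1)) ^ d / 2) ≤
      2 ^ Fintype.card ι *
        (d * (2 ^ Fintype.card ι * ((Fintype.card Γ : ℝ) / 4 ^ l) ^ u)) := by
  have hp0 : (0 : ℝ) < 1 / (48 * (l : ℝ) + 1) := by positivity
  have hp1 : (1 : ℝ) / (48 * (l : ℝ) + 1) ≤ 1 := by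
    rw [div_le_one (by positivity)]
    have : (0 : ℝ) ≤ l := Nat.cast_nonneg l
    linarith
  set p : ℝ := 1 / (48 * (l : ℝ) + 1) with hp
  obtain ⟨pol, hpol⟩ := or_form lev g hc
  set h : Γ → BF ι := fun a x => xor (g a x) (pol a) with hh
  set R0 : AR ι := ⟨fun _ => Finset.univ, fun _ _ _ => rfl⟩ with hR0
  set w : Finset ι → ℝ := fun S => (co (fun x => if f x = true then (1 : ℝ) else 0) S) ^ 2
    with hw
  have hw0 : ∀ S, 0 ≤ w S := fun S => sq_nonneg _
  have hfg : ∀ (x : ι → Bool) (U : Finset ι), (∀ a, lev a < d → Good l (g a) x U) →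
      Good l f x U := by
    intro x U hG
    rcases hout with h1 | ⟨a, h1 | h1⟩
    · exact good_lit l hl _ h1 x U
    · exact good_xor l (g a) _ false (fun y => by rw [Bool.xor_false]; exact h1 y) x U
        (hG a (hd a))
    · exact good_xor l (g a) _ true (fun y => by rw [Bool.xor_true]; exact h1 y) x U
        (hG a (hd a))
  have h1 := EJ_le_fail lev g pol hpol p hp0.le hp1 l u hl d f hfg B d 0 R0 Finset.univ ∅ 0
    (by omega) (fun x x' _ hx => absurd hx (Finset.notMem_empty _))
    (fun x _ a ha => absurd ha (Nat.not_lt_zero _))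
    (fun x _ => by rw [hR0, Finset.sdiff_self, Finset.card_empty]) (by omega)
  have h2 : ∑ x ∈ Finset.univ.filter (fun x : ι → Bool => x ∉ (∅ : Finset (ι → Bool))),
      beta p l u h x d R0 = ∑ x : ι → Bool, beta p l u h x d R0 := by
    apply Finset.sum_congr _ (fun _ _ => rfl)
    ext x
    simp
  have h3 := sum_beta l u (by omega : 0 < l) h d R0
  rw [← hp] at h3
  -- lower bound for the iterated expectation
  have h4 : ∀ S : Finset ι, D ≤ S.card → p ^ d / 2 ≤
      EJ p (fun Q => if B < (S ∩ Q).card then (1 : ℝ) else 0) d Finset.univ := by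
    intro S hx
    have h2 : EJ p (fun Q => ((S ∩ Q).card : ℝ)) d Finset.univ ≤
        EJ p (fun Q => (B : ℝ) + (S.card : ℝ) *
          (if B < (S ∩ Q).card then (1 : ℝ) else 0)) d Finset.univ := by
      apply EJ_mono p hp0.le hp1
      intro Q
      split_ifs with h3
      · have h4 : ((S ∩ Q).card : ℝ) ≤ S.card := by
          exact_mod_cast Finset.card_le_card Finset.inter_subset_left
        have h5 : (0 : ℝ) ≤ B := Nat.cast_nonneg B
        linarith
      · have h4 : ((S ∩ Q).card : ℝ) ≤ B := by exact_mod_cast not_lt.1 h3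
        linarith
    rw [EJ_affine, EJ_card, Finset.inter_univ] at h2
    have hSD : (2 : ℝ) * (48 * (l : ℝ) + 1) ^ d * B ≤ S.card := by
      have h3 : 2 * (48 * l + 1) ^ d * B ≤ S.card := hD.trans hx
      exact_mod_cast h3
    have hpd : p ^ d * (48 * (l : ℝ) + 1) ^ d = 1 := by
      rw [← mul_pow, hp, one_div, inv_mul_cancel₀ (by positivity), one_pow]
    have hBp : (0 : ℝ) < B := by exact_mod_cast hB0
    have hSp : (0 : ℝ) < S.card := lt_of_lt_of_le (by positivity) hSD
    have h4 : 2 * (B : ℝ) ≤ p ^ d * S.card := by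
      calc 2 * (B : ℝ) = p ^ d * (48 * (l : ℝ) + 1) ^ d * (2 * B) := by rw [hpd, one_mul]
        _ = p ^ d * (2 * (48 * (l : ℝ) + 1) ^ d * B) := by ring
        _ ≤ p ^ d * S.card := mul_le_mul_of_nonneg_left hSD (by positivity)
    have h5 : p ^ d / 2 * S.card ≤ S.card * EJ p
        (fun Q => if B < (S ∩ Q).card then (1 : ℝ) else 0) d Finset.univ := by linarith
    rw [mul_comm] at h5
    exact le_of_mul_le_mul_left h5 hSp
  -- linearity of the iterated expectation
  have h5 : ∀ (T : Finset (Finset ι)) (r : ℕ) (A : Finset ι),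
      EJ p (fun Q => ∑ S ∈ T, w S * (if B < (S ∩ Q).card then (1 : ℝ) else 0)) r A =
      ∑ S ∈ T, w S * EJ p (fun Q => if B < (S ∩ Q).card then (1 : ℝ) else 0) r A := by
    intro T r
    induction r with
    | zero => intro A; rfl
    | succ r ih =>
      intro A
      change ∑ Q : Finset ι, W p Q * EJ p (fun Q => ∑ S ∈ T, w S *
        (if B < (S ∩ Q).card then (1 : ℝ) else 0)) r (A ∩ Q) = ∑ S ∈ T, w S *
        ∑ Q : Finset ι, W p Q * EJ p (fun Q => if B < (S ∩ Q).card then (1 : ℝ) else 0) r (A ∩ Q)
      have h6 : ∀ Q : Finset ι, W p Q * EJ p (fun Q => ∑ S ∈ T, w S *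
          (if B < (S ∩ Q).card then (1 : ℝ) else 0)) r (A ∩ Q) = ∑ S ∈ T, w S * (W p Q *
          EJ p (fun Q => if B < (S ∩ Q).card then (1 : ℝ) else 0) r (A ∩ Q)) := by
        intro Q
        rw [ih (A ∩ Q), Finset.mul_sum]
        apply Finset.sum_congr rfl
        intro S _
        ring
      rw [Finset.sum_congr rfl (fun Q _ => h6 Q), Finset.sum_comm]
      apply Finset.sum_congr rfl
      intro S _
      rw [Finset.mul_sum]
  have h6 : (fun Q : Finset ι => ∑ S ∈ Finset.univ.filter
      (fun S : Finset ι => B < (S ∩ Q).card), w S) =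
      fun Q => ∑ S : Finset ι, w S * (if B < (S ∩ Q).card then (1 : ℝ) else 0) := by
    funext Q
    rw [Finset.sum_filter]
    apply Finset.sum_congr rfl
    intro S _
    split_ifs <;> simp
  rw [h2] at h1
  have h7 : EJ p (fun Q : Finset ι => ∑ S ∈ Finset.univ.filter
      (fun S : Finset ι => B < (S ∩ Q).card), w S) d Finset.univ ≤
      2 ^ Fintype.card ι * (0 + ∑ x : ι → Bool, beta p l u h x d R0) := by
    refine h1.trans (le_of_eq ?_)
    rw [Finset.card_empty, Nat.cast_zero]
  rw [h6, h5, zero_add] at h7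
  calc (∑ S ∈ Finset.univ.filter (fun S : Finset ι => D ≤ S.card), w S) * (p ^ d / 2)
      = ∑ S ∈ Finset.univ.filter (fun S : Finset ι => D ≤ S.card), w S * (p ^ d / 2) := by
        rw [Finset.sum_mul]
    _ ≤ ∑ S ∈ Finset.univ.filter (fun S : Finset ι => D ≤ S.card), w S *
        EJ p (fun Q => if B < (S ∩ Q).card then (1 : ℝ) else 0) d Finset.univ :=
        Finset.sum_le_sum (fun S hS => mul_le_mul_of_nonneg_left
          (h4 S (Finset.mem_filter.1 hS).2) (hw0 S))
    _ ≤ ∑ S : Finset ι, w S *
        EJ p (fun Q => if B < (S ∩ Q).card then (1 : ℝ) else 0) d Finset.univ := by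
        apply Finset.sum_le_sum_of_subset_of_nonneg (Finset.filter_subset _ _)
        intro S _ _
        apply mul_nonneg (hw0 S)
        have h8 := EJ_mono p hp0.le hp1 (fun Q => 0 + 0 * (0 : ℝ))
          (fun Q => if B < (S ∩ Q).card then (1 : ℝ) else 0)
          (fun A => by split_ifs <;> norm_num) d Finset.univ
        rw [EJ_affine p (fun _ => (0 : ℝ)) 0 0 d Finset.univ] at h8
        simpa using h8
    _ ≤ _ := h7
    _ ≤ _ := mul_le_mul_of_nonneg_left h3 (by positivity)

end Pool.Agent.AC0IP
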