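import Pool.Agent.Lib.AC0IP.Walk

/-!
# The sum over the advice (module Kappa)

`ρ ^ som c ≤ θ ^ som c * γ ^ l` when `l ≤ som c`, where `ρ = 1 / (48 l) = θ γ`, `θ = 1 / (4 l)`,
`γ = 1 / 12`; and `∑ c : Fin l → Fin l → Option (Bool × Bool), θ ^ som c = ((1 + 4 θ) ^ l) ^ l`,
because `θ ^ som c = ∏ a, ∏ j, (if c a j = none then 1 else θ)` and `Fintype.sum_pow` (twice;
`(∑ a, f a) ^ n = ∑ p : Fin n → α, ∏ i, f (p i)`); `1 + 4 θ = 1 + 1 / l ≤ exp (1 / l)`
(`Real.add_one_le_exp`), so `(1 + 4 θ) ^ l ≤ exp 1 ≤ 3` (`Real.exp_one_lt_d9`).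
Total `≤ 3 ^ l / 12 ^ l = 1 / 4 ^ l`.
-/

namespace Pool.Agent.AC0IP

theorem kappa (l : ℕ) (hl : 0 < l) :
    ∑ c : Fin l → Fin l → Option (Bool × Bool),
      (if l ≤ som c then ((1 : ℝ) / (48 * l)) ^ som c else 0) ≤ 1 / 4 ^ l := by
  have hl0 : (0 : ℝ) < l := by exact_mod_cast hl
  set θ : ℝ := 1 / (4 * l) with hθ
  have hθ0 : 0 < θ := by positivity
  have h1 : ∀ c : Fin l → Fin l → Option (Bool × Bool),
      (if l ≤ som c then ((1 : ℝ) / (48 * l)) ^ som c else 0) ≤
        (1 / 12) ^ l * ∏ a, ∏ j, (if c a j = none then (1 : ℝ) else θ) := by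
    intro c
    have h2 : ∏ a, ∏ j, (if c a j = none then (1 : ℝ) else θ) = θ ^ som c := by
      unfold som
      rw [← Finset.prod_pow_eq_pow_sum]
      apply Finset.prod_congr rfl
      intro a _
      rw [← Finset.prod_pow_eq_pow_sum]
      apply Finset.prod_congr rfl
      intro j _
      split_ifs <;> simp
    rw [h2]
    split_ifs with h3
    · have h4 : (1 : ℝ) / (48 * l) = (1 / 12) * θ := by
        rw [hθ]
        field_simp
        norm_num
      rw [h4, mul_pow]
      apply mul_le_mul_of_nonneg_right _ (by positivity)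
      exact pow_le_pow_of_le_one (by norm_num) (by norm_num) h3
    · positivity
  have h5 : ∑ c : Fin l → Fin l → Option (Bool × Bool),
      ∏ a, ∏ j, (if c a j = none then (1 : ℝ) else θ) = ((1 + 4 * θ) ^ l) ^ l := by
    have h6 := Fintype.sum_pow (fun b : Fin l → Option (Bool × Bool) =>
      ∏ j, (if b j = none then (1 : ℝ) else θ)) l
    rw [← h6]
    have h7 := Fintype.sum_pow (fun o : Option (Bool × Bool) =>
      (if o = none then (1 : ℝ) else θ)) l
    rw [← h7]
    congr 2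
    rw [Fintype.sum_option]
    simp
  have h8 : (1 + 4 * θ) ^ l ≤ 3 := by
    have h9 : 1 + 4 * θ ≤ Real.exp (1 / l) := by
      have h10 := Real.add_one_le_exp (1 / (l : ℝ))
      have h11 : 4 * θ = 1 / l := by
        rw [hθ]
        field_simp
      linarith
    calc (1 + 4 * θ) ^ l ≤ (Real.exp (1 / l)) ^ l := pow_le_pow_left₀ (by positivity) h9 l
      _ = Real.exp 1 := by
        rw [← Real.exp_nat_mul]
        congr 1
        field_simp
      _ ≤ 3 := by
        have := Real.exp_one_lt_d9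
        linarith
  calc _ ≤ ∑ c : Fin l → Fin l → Option (Bool × Bool),
        (1 / 12 : ℝ) ^ l * ∏ a, ∏ j, (if c a j = none then (1 : ℝ) else θ) :=
        Finset.sum_le_sum (fun c _ => h1 c)
    _ = (1 / 12) ^ l * ((1 + 4 * θ) ^ l) ^ l := by rw [← Finset.mul_sum, h5]
    _ ≤ (1 / 12) ^ l * 3 ^ l := by
        apply mul_le_mul_of_nonneg_left _ (by positivity)
        exact pow_le_pow_left₀ (by positivity) h8 l
    _ = 1 / 4 ^ l := by
        rw [← mul_pow, ← one_div_pow]
        norm_num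

end Pool.Agent.AC0IP
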