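import Mathlib

/-!
# Product weights (module Wt)

`W p Q = p ^ |Q| (1 - p) ^ (n - |Q|)` is the probability that a random subset of `ι` (every
element independently with probability `p`) equals `Q`.
`W_sum`: `Finset.sum_pow_mul_eq_add_pow` (with `Finset.powerset_univ`), `p + (1 - p) = 1`.
`W_card_inter`: `|S ∩ Q| = ∑ i ∈ S, [i ∈ Q]`, and `∑ Q, W p Q [i ∈ Q] = p`: split off the element
`i` (`Q = insert i Q'` with `Q' ⊆ univ \ {i}`), or prove `∑ Q, W p Q [i ∈ Q] = p` from the
bijection `Q ↦ insert i Q` between sets without and with `i`: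
`W p (insert i Q) (1 - p) = p W p Q` and `∑ = 1`, so `A (1 - p) = p (1 - A)`, `A = p`.
`W_sdiff`: `|Q \ V| = |Q| - |V|`, `p = ρ (1 - p)`.
`exists_pos`: for `A.card ≤ l`, `0 < l` there is `f : ι → Fin l` injective on `A`
(`A.equivFin`, `Fin.castLE`); choose one for every `A`.
-/

namespace Pool.Agent.AC0IP

/-- Weight of the set `Q`. -/
noncomputable def W {ι : Type} [Fintype ι] (p : ℝ) (Q : Finset ι) : ℝ :=
  p ^ Q.card * (1 - p) ^ (Fintype.card ι - Q.card)

theorem W_nonneg {ι : Type} [Fintype ι] (p : ℝ) (h0 : 0 ≤ p) (h1 : p ≤ 1) (Q : Finset ι) :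
    0 ≤ W p Q := by
  unfold W
  have : 0 ≤ 1 - p := by linarith
  positivity

theorem W_sum {ι : Type} [Fintype ι] (p : ℝ) : ∑ Q : Finset ι, W p Q = 1 := by
  have h := Finset.sum_pow_mul_eq_add_pow p (1 - p) (Finset.univ : Finset ι)
  rw [Finset.powerset_univ, Finset.card_univ] at h
  unfold W
  rw [h]
  simp

theorem W_card_inter {ι : Type} [Fintype ι] [DecidableEq ι] (p : ℝ) (S : Finset ι) :
    ∑ Q : Finset ι, W p Q * ((S ∩ Q).card : ℝ) = p * S.card := by
  have key : ∀ i : ι, ∑ Q : Finset ι, W p Q * (if i ∈ Q then (1 : ℝ) else 0) = p := by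
    intro i
    set A : ℝ := ∑ Q : Finset ι, W p Q * (if i ∈ Q then (1 : ℝ) else 0) with hA
    set B : ℝ := ∑ Q : Finset ι, W p Q * (if i ∈ Q then (0 : ℝ) else 1) with hB
    have h1 : A + B = 1 := by
      refine Eq.trans ?_ (W_sum (ι := ι) p)
      rw [hA, hB, ← Finset.sum_add_distrib]
      apply Finset.sum_congr rfl
      intro Q _
      split_ifs <;> ring
    have h2 : A * (1 - p) = p * B := by
      rw [hA, hB, Finset.sum_mul, Finset.mul_sum]
      refine Finset.sum_bij' (fun Q _ => symmDiff Q {i}) (fun Q _ => symmDiff Q {i})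
        (fun Q _ => Finset.mem_univ _) (fun Q _ => Finset.mem_univ _) ?_ ?_ ?_
      · intro Q _; simp only [symmDiff_assoc, symmDiff_self, symmDiff_bot]
      · intro Q _; simp only [symmDiff_assoc, symmDiff_self, symmDiff_bot]
      · intro Q _
        by_cases hi : i ∈ Q
        · have h3 : symmDiff Q {i} = Q.erase i := by
            ext j
            rw [Finset.mem_symmDiff, Finset.mem_erase, Finset.mem_singleton]
            constructor
            · rintro (⟨h4, h5⟩ | ⟨h4, h5⟩)
              · exact ⟨h5, h4⟩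
              · rw [h4] at h5
                exact absurd hi h5
            · rintro ⟨h4, h5⟩
              exact Or.inl ⟨h5, h4⟩
          have h4 : i ∉ symmDiff Q {i} := by
            rw [h3]
            exact Finset.notMem_erase i Q
          rw [if_pos hi, if_neg h4, h3]
          unfold W
          rw [Finset.card_erase_of_mem hi]
          have h5 : 1 ≤ Q.card := Finset.card_pos.2 ⟨i, hi⟩
          have h6 : Q.card ≤ Fintype.card ι := Finset.card_le_univ Q
          obtain ⟨a, ha⟩ : ∃ a, Q.card = a + 1 := ⟨Q.card - 1, by omega⟩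
          obtain ⟨b, hb⟩ : ∃ b, Fintype.card ι = a + 1 + b := ⟨Fintype.card ι - (a + 1), by omega⟩
          rw [ha, hb]
          have h7 : a + 1 + b - (a + 1) = b := by omega
          have h8 : a + 1 + b - (a + 1 - 1) = b + 1 := by omega
          have h9 : a + 1 - 1 = a := by omega
          rw [h7, h8, h9]
          ring
        · have h4 : i ∈ symmDiff Q {i} := by
            rw [Finset.mem_symmDiff]
            exact Or.inr ⟨Finset.mem_singleton_self i, hi⟩
          rw [if_neg hi, if_pos h4]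
          ring
    have h3 : B = 1 - A := by linarith
    rw [h3] at h2
    linarith
  have h1 : ∀ Q : Finset ι, W p Q * ((S ∩ Q).card : ℝ) =
      ∑ i ∈ S, W p Q * (if i ∈ Q then (1 : ℝ) else 0) := by
    intro Q
    rw [← Finset.mul_sum]
    congr 1
    rw [Finset.sum_ite, Finset.sum_const_zero, add_zero, Finset.sum_const, nsmul_eq_mul, mul_one,
      Finset.filter_mem_eq_inter]
  rw [Finset.sum_congr rfl (fun Q _ => h1 Q), Finset.sum_comm,
    Finset.sum_congr rfl (fun i _ => key i), Finset.sum_const, nsmul_eq_mul]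
  ring

theorem W_sdiff {ι : Type} [Fintype ι] [DecidableEq ι] (p ρ : ℝ) (_h1 : p < 1)
    (hρ : p = ρ * (1 - p)) (Q V : Finset ι) (hV : V ⊆ Q) :
    W p Q = W p (Q \ V) * ρ ^ V.card := by
  unfold W
  have h2 : (Q \ V).card + V.card = Q.card := Finset.card_sdiff_add_card_eq_card hV
  have h3 : Q.card ≤ Fintype.card ι := Finset.card_le_univ Q
  obtain ⟨b, hb⟩ : ∃ b, Fintype.card ι = Q.card + b := ⟨Fintype.card ι - Q.card, by omega⟩
  rw [hb, ← h2]
  have h4 : (Q \ V).card + V.card + b - ((Q \ V).card + V.card) = b := by omega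
  have h5 : (Q \ V).card + V.card + b - (Q \ V).card = V.card + b := by omega
  rw [h4, h5, pow_add, pow_add]
  have h6 : p ^ V.card = ρ ^ V.card * (1 - p) ^ V.card := by
    rw [← mul_pow, ← hρ]
  rw [h6]
  ring

theorem exists_pos {ι : Type} [DecidableEq ι] (l : ℕ) (hl : 0 < l) :
    ∃ pos : Finset ι → ι → Fin l,
      ∀ A : Finset ι, A.card ≤ l → Set.InjOn (pos A) (A : Set ι) := by
  have h : ∀ A : Finset ι, ∃ f : ι → Fin l, A.card ≤ l → Set.InjOn f (A : Set ι) := by
    intro A
    by_cases hA : A.card ≤ l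
    · refine ⟨fun i => if hi : i ∈ A then Fin.castLE hA (A.equivFin ⟨i, hi⟩) else ⟨0, hl⟩,
        fun _ => ?_⟩
      intro i hi j hj hij
      have hi' : i ∈ A := hi
      have hj' : j ∈ A := hj
      simp only [dif_pos hi', dif_pos hj'] at hij
      have h1 := A.equivFin.injective (Fin.castLE_injective hA hij)
      exact congrArg Subtype.val h1
    · exact ⟨fun _ => ⟨0, hl⟩, fun h => absurd h hA⟩
  choose pos hpos using h
  exact ⟨pos, hpos⟩

end Pool.Agent.AC0IP
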