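import Pool.Agent.Lib.AC0IP.Stages
import Pool.Agent.Lib.AC0IP.Wt
import Pool.Agent.Lib.AC0IP.Kappa

/-!
# The multi-switching lemma
-/

namespace Pool.Agent.AC0IP

open Classical in
theorem ms {ι Γ : Type} [Fintype ι] [DecidableEq ι] [Fintype Γ] (l u : ℕ) (hl : 0 < l)
    (R : (ι → Bool) → Finset ι) (L : (ι → Bool) → Γ → List (Term ι))
    (hR : ∀ x x', off (R x) x x' → R x' = R x ∧ L x' = L x)
    (hL : ∀ x a, ∀ T ∈ L x a, T.1.card ≤ l) :
    ∑ x : ι → Bool, ∑ Q : Finset ι,
      W (1 / (48 * (l : ℝ) + 1)) Q * (if bad l L x u (R x ∩ Q) then 1 else 0)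
      ≤ 2 ^ Fintype.card ι * ((Fintype.card Γ : ℝ) / 4 ^ l) ^ u := by
  obtain ⟨pos, hpos⟩ := exists_pos (ι := ι) l hl
  have hl0 : (0 : ℝ) < l := by exact_mod_cast hl
  set p : ℝ := 1 / (48 * (l : ℝ) + 1) with hp
  set ρ : ℝ := 1 / (48 * (l : ℝ)) with hρ
  have hp0 : 0 ≤ p := by positivity
  have hp1 : p < 1 := by
    rw [hp, div_lt_one (by positivity)]
    linarith
  have hpρ : p = ρ * (1 - p) := by
    rw [hp, hρ]
    field_simp
    ring
  have hρ0 : 0 ≤ ρ := by positivity
  set f : Γ × (Fin l → Fin l → Option (Bool × Bool)) → ℝ :=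
    fun c => if l ≤ som c.2 then ρ ^ som c.2 else 0 with hf
  have hf0 : ∀ c, 0 ≤ f c := by
    intro c
    simp only [hf]
    split_ifs
    · positivity
    · exact le_refl _
  set F : (ι → Bool) × Finset ι × (Fin u → Γ × (Fin l → Fin l → Option (Bool × Bool))) → ℝ :=
    fun t => W p t.2.1 * ∏ i, f (t.2.2 i) with hF
  have hF0 : ∀ t, 0 ≤ F t := by
    intro t
    exact mul_nonneg (W_nonneg p hp0 hp1.le _) (Finset.prod_nonneg (fun i _ => hf0 _))
  set g : (ι → Bool) × Finset ι × (Fin u → Γ × (Fin l → Fin l → Option (Bool × Bool))) →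
      (ι → Bool) × Finset ι :=
    fun t => ((dec pos L (R t.1 ∩ t.2.1) u t.1 t.2.2).1,
      t.2.1 ∪ (dec pos L (R t.1 ∩ t.2.1) u t.1 t.2.2).2) with hg
  have key : ∀ s : (ι → Bool) × Finset ι, bad l L s.1 u (R s.1 ∩ s.2) →
      ∃ t, W p s.2 = F t ∧ g t = s := by
    rintro ⟨x, Q⟩ hb
    obtain ⟨y, W', c, h1, h2, h3, h4, h5⟩ := enc_exists pos hpos R L hR hL u x (R x ∩ Q)
      Finset.inter_subset_left hb
    refine ⟨(y, Q \ ((R x ∩ Q) \ W'), c), ?_, ?_⟩
    · have h6 : (R x ∩ Q) \ W' ⊆ Q := Finset.sdiff_subset.trans Finset.inter_subset_right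
      simp only [hF]
      rw [W_sdiff p ρ hp1 hpρ Q _ h6, ← h4, ← Finset.prod_pow_eq_pow_sum]
      congr 1
      apply Finset.prod_congr rfl
      intro i _
      simp only [hf]
      rw [if_pos (h3 i)]
    · have h6 : R y = R x := (hR x y (off_mono h1 Finset.inter_subset_left)).1
      have h7 : R y ∩ (Q \ ((R x ∩ Q) \ W')) = W' := by
        rw [h6]
        ext i
        simp only [Finset.mem_inter, Finset.mem_sdiff]
        constructor
        · rintro ⟨h8, h9, h10⟩
          by_contra h11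
          exact h10 ⟨⟨h8, h9⟩, h11⟩
        · intro h8
          have h9 := Finset.mem_inter.1 (h2 h8)
          exact ⟨h9.1, h9.2, fun h => h.2 h8⟩
      simp only [hg]
      rw [h7, h5]
      refine Prod.ext rfl ?_
      ext i
      simp only [Finset.mem_union, Finset.mem_inter, Finset.mem_sdiff]
      constructor
      · rintro (⟨h8, -⟩ | ⟨-, h8⟩) <;> exact h8
      · intro h8
        by_cases h9 : i ∈ R x
        · exact Or.inr ⟨h9, h8⟩
        · exact Or.inl ⟨h8, fun h => h9 h.1.1⟩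
  have step1 : ∑ x : ι → Bool, ∑ Q : Finset ι,
      W p Q * (if bad l L x u (R x ∩ Q) then 1 else 0) =
      ∑ s : (ι → Bool) × Finset ι, W p s.2 * (if bad l L s.1 u (R s.1 ∩ s.2) then 1 else 0) := by
    rw [Fintype.sum_prod_type]
  have step2 : ∑ s : (ι → Bool) × Finset ι,
      W p s.2 * (if bad l L s.1 u (R s.1 ∩ s.2) then 1 else 0) ≤
      ∑ s : (ι → Bool) × Finset ι, ∑ t with g t = s, F t := by
    apply Finset.sum_le_sum
    intro s _
    by_cases hb : bad l L s.1 u (R s.1 ∩ s.2)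
    · rw [if_pos hb, mul_one]
      obtain ⟨t, ht1, ht2⟩ := key s hb
      rw [ht1]
      exact Finset.single_le_sum (f := F) (fun t _ => hF0 t)
        (Finset.mem_filter.2 ⟨Finset.mem_univ _, ht2⟩)
    · rw [if_neg hb, mul_zero]
      exact Finset.sum_nonneg (fun t _ => hF0 t)
  have step3 : ∑ s : (ι → Bool) × Finset ι, ∑ t with g t = s, F t = ∑ t, F t :=
    Finset.sum_fiberwise Finset.univ g F
  have hκ : ∑ c : Γ × (Fin l → Fin l → Option (Bool × Bool)), f c ≤
      (Fintype.card Γ : ℝ) / 4 ^ l := by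
    rw [Fintype.sum_prod_type]
    have h1 : ∀ a : Γ, ∑ c : Fin l → Fin l → Option (Bool × Bool), f (a, c) ≤ 1 / 4 ^ l := by
      intro a
      exact kappa l hl
    calc _ ≤ ∑ _a : Γ, (1 : ℝ) / 4 ^ l := Finset.sum_le_sum (fun a _ => h1 a)
      _ = _ := by
        rw [Finset.sum_const, nsmul_eq_mul, Finset.card_univ]
        ring
  have step4 : ∑ t, F t = 2 ^ Fintype.card ι *
      (∑ c : Γ × (Fin l → Fin l → Option (Bool × Bool)), f c) ^ u := by
    rw [Fintype.sum_prod_type]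
    have h1 : ∀ y : ι → Bool, ∑ t : Finset ι × (Fin u → Γ × (Fin l → Fin l →
        Option (Bool × Bool))), F (y, t) =
        (∑ c : Γ × (Fin l → Fin l → Option (Bool × Bool)), f c) ^ u := by
      intro y
      rw [Fintype.sum_prod_type, Fintype.sum_pow]
      have h2 : ∀ Q : Finset ι, ∑ c : Fin u → Γ × (Fin l → Fin l → Option (Bool × Bool)),
          F (y, Q, c) = W p Q * ∑ c : Fin u → Γ × (Fin l → Fin l → Option (Bool × Bool)),
            ∏ i, f (c i) := by
        intro Q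
        rw [Finset.mul_sum]
      rw [Finset.sum_congr rfl (fun Q _ => h2 Q), ← Finset.sum_mul, W_sum, one_mul]
    rw [Finset.sum_congr rfl (fun y _ => h1 y), Finset.sum_const, nsmul_eq_mul,
      Finset.card_univ, Fintype.card_fun, Fintype.card_bool]
    push_cast
    ring
  rw [step1]
  refine step2.trans ?_
  rw [step3, step4]
  apply mul_le_mul_of_nonneg_left _ (by positivity)
  exact pow_le_pow_left₀ (Finset.sum_nonneg (fun c _ => hf0 c)) hκ u

end Pool.Agent.AC0IP
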