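import Pool.Agent.Lib.AC0IP.Sens

/-!
# Confusing the verifier (module Proto)

PROOF. Fix `V, C, L, c, s` with `hV`.
(a) Lemma: for a prover `P`, coins `ω`, inputs `x x'` and `h := (V.run P ω x V.len).2`, if
`outs V ω h j x' = outs V ω h j x` for all `j : Fin (V.len + 1)` then
`V.accepts P ω x' = V.accepts P ω x`. Proof: `h.length = V.len` and for `k ≤ V.len` one has
`h.drop (V.len - k) = (V.run P ω x k).2` (both by induction: every round puts one answer in
front); then `V.run P ω x' k = V.run P ω x k` for `k ≤ V.len` by induction on `k`: the only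
ingredient depending on the input is `V.ask ω (V.run P ω x k).2 x'`, which is `outs V ω h k x'`
for `k < V.len`. Finally use `j = V.len` for the verdict.
(b) For `x ∈ X` choose `P ∈ C` with `c ≤ V.accProb P x` and put `h ω := (V.run P ω x V.len).2`.
For every `i`, `V.accProb P (flip x i) ≤ s` (as `flip x i ∉ L`), so
`(c - s) * card Coin ≤ #{ω | accepts P ω x = true} - #{ω | accepts P ω (flip x i) = true}
 ≤ #{ω | i ∈ SensSet (outs V ω (h ω)) x}` by (a). Sum over `i`:
`(c - s) * card ι * card Coin ≤ ∑ ω, (SensSet (outs V ω (h ω)) x).card` (double counting).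
(c) For each `ω`: `(SensSet (outs V ω (h ω)) x).card ≤ D + (if ∃ h' of length V.len with
`D ≤ (SensSet (outs V ω h') x).card` then card ι else 0)`. Sum over `x ∈ X` and `ω`:
`(c - s) * card ι * card Coin * X.card ≤ card Coin * (D * X.card) + ∑ ω, card ι * #{x | ∃ h' ...}`
and `#{x | ∃ h' ...} ≤ ∑ over h' : Fin V.len → Bool (h' ↦ List.ofFn h') of hT ≤ 2 ^ V.len * τ`.
Divide by `card Coin > 0`. (For `card Coin` use `Nat.card`, `Nat.card_eq_fintype_card` with
`letI := V.fin`, `haveI := V.ne`.)
-/

namespace Pool.Agent.AC0IP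

variable {ι : Type} [Fintype ι] [DecidableEq ι]

private theorem run_len (V : Verifier ι) (P : V.Prover) (ω : V.Coin) (x : ι → Bool) (k : ℕ) :
    (V.run P ω x k).2.length = k := by
  induction k with
  | zero => rfl
  | succ k ih =>
    show (_ :: (V.run P ω x k).2).length = _
    rw [List.length_cons, ih]

private theorem run_drop (V : Verifier ι) (P : V.Prover) (ω : V.Coin) (x : ι → Bool) (k j : ℕ) :
    (V.run P ω x (k + j)).2.drop j = (V.run P ω x k).2 := by
  induction j with
  | zero => rfl
  | succ j ih =>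
    show List.drop (j + 1) (_ :: (V.run P ω x (k + j)).2) = _
    rw [List.drop_succ_cons, ih]

private theorem run_eq (V : Verifier ι) (P : V.Prover) (ω : V.Coin) (x x' : ι → Bool)
    (h : ∀ j : Fin (V.len + 1), outs V ω (V.run P ω x V.len).2 j x' =
      outs V ω (V.run P ω x V.len).2 j x) (k : ℕ) (hk : k ≤ V.len) :
    V.run P ω x' k = V.run P ω x k := by
  induction k with
  | zero => rfl
  | succ k ih =>
    have ih' := ih (by omega)
    have h1 := h ⟨k, by omega⟩
    have h2 : (V.run P ω x V.len).2.drop (V.len - k) = (V.run P ω x k).2 := by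
      have := run_drop V P ω x k (V.len - k)
      rwa [show k + (V.len - k) = V.len by omega] at this
    have h3 : V.ask ω (V.run P ω x k).2 x' = V.ask ω (V.run P ω x k).2 x := by
      unfold outs at h1
      have hkl : ¬ (k = V.len) := by omega
      simp only [hkl, if_false, h2] at h1
      exact h1
    simp only [Verifier.run, ih', h3]

private theorem accepts_eq (V : Verifier ι) (P : V.Prover) (ω : V.Coin) (x x' : ι → Bool)
    (h : ∀ j : Fin (V.len + 1), outs V ω (V.run P ω x V.len).2 j x' =
      outs V ω (V.run P ω x V.len).2 j x) : V.accepts P ω x' = V.accepts P ω x := by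
  unfold Verifier.accepts
  rw [run_eq V P ω x x' h V.len le_rfl]
  have h1 := h ⟨V.len, by omega⟩
  unfold outs at h1
  simp only [if_true] at h1
  exact h1

attribute [local instance] Verifier.fin Verifier.ne

private theorem coin_pos (V : Verifier ι) : (0 : ℝ) < Nat.card V.Coin := by
  rw [Nat.card_eq_fintype_card]
  exact_mod_cast Fintype.card_pos

open Classical in
private theorem main_x (V : Verifier ι) (P : V.Prover) (x : ι → Bool) (c s : ℝ)
    (hc : c ≤ V.accProb P x) (hs : ∀ i, V.accProb P (flip x i) ≤ s) :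
    (c - s) * Fintype.card ι * Nat.card V.Coin ≤
      ∑ ω : V.Coin, ((SensSet (outs V ω (V.run P ω x V.len).2) x).card : ℝ) := by
  have hN : (0:ℝ) < Nat.card V.Coin := coin_pos V
  have h1 : ∀ i, (c - s) * Nat.card V.Coin ≤ ((Finset.univ.filter (fun ω : V.Coin =>
      i ∈ SensSet (outs V ω (V.run P ω x V.len).2) x)).card : ℝ) := by
    intro i
    have h2 : (Nat.card {ω : V.Coin // V.accepts P ω x = true} : ℝ) ≤
        Nat.card {ω : V.Coin // V.accepts P ω (flip x i) = true} +
        ((Finset.univ.filter (fun ω : V.Coin =>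
          i ∈ SensSet (outs V ω (V.run P ω x V.len).2) x)).card : ℝ) := by
      rw [Nat.card_eq_fintype_card, Nat.card_eq_fintype_card, Fintype.card_subtype,
        Fintype.card_subtype]
      norm_cast
      refine le_trans (Finset.card_le_card ?_) (Finset.card_union_le _ _)
      intro ω hω
      simp only [Finset.mem_union, Finset.mem_filter, Finset.mem_univ, true_and] at hω ⊢
      by_contra hn
      push Not at hn
      obtain ⟨hn1, hn2⟩ := hn
      apply hn1
      rw [accepts_eq V P ω x (flip x i), hω]
      intro j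
      by_contra hj
      exact hn2 (by
        simp only [SensSet, Finset.mem_filter, Finset.mem_univ, true_and]
        exact ⟨j, hj⟩)
    have h3 := hs i
    unfold Verifier.accProb at hc h3
    rw [le_div_iff₀ hN] at hc
    rw [div_le_iff₀ hN] at h3
    linarith [sub_mul c s (Nat.card V.Coin : ℝ)]
  have h2 : (∑ i : ι, (Finset.univ.filter (fun ω : V.Coin =>
      i ∈ SensSet (outs V ω (V.run P ω x V.len).2) x)).card) =
      ∑ ω : V.Coin, (SensSet (outs V ω (V.run P ω x V.len).2) x).card := by
    have h3 := Finset.sum_card_bipartiteAbove_eq_sum_card_bipartiteBelow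
      (s := (Finset.univ : Finset ι)) (t := (Finset.univ : Finset V.Coin))
      (fun i ω => i ∈ SensSet (outs V ω (V.run P ω x V.len).2) x)
    unfold Finset.bipartiteAbove Finset.bipartiteBelow at h3
    rw [h3]
    refine Finset.sum_congr rfl fun ω _ => ?_
    rw [Finset.filter_mem_eq_inter, Finset.univ_inter]
  calc (c - s) * Fintype.card ι * Nat.card V.Coin
      = ∑ _i : ι, (c - s) * Nat.card V.Coin := by
        rw [Finset.sum_const, Finset.card_univ, nsmul_eq_mul]; ring
    _ ≤ ∑ i : ι, ((Finset.univ.filter (fun ω : V.Coin =>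
          i ∈ SensSet (outs V ω (V.run P ω x V.len).2) x)).card : ℝ) :=
        Finset.sum_le_sum (fun i _ => h1 i)
    _ = ∑ ω : V.Coin, ((SensSet (outs V ω (V.run P ω x V.len).2) x).card : ℝ) := by
        exact_mod_cast h2

open Classical in
private theorem bad_card (V : Verifier ι) (ω : V.Coin) (D : ℕ) (τ : ℝ)
    (hT : ∀ (h : List Bool), h.length = V.len →
      ((Finset.univ.filter (fun x : ι → Bool => D ≤ (SensSet (outs V ω h) x).card)).card : ℝ)
        ≤ τ) :
    ((Finset.univ.filter (fun x : ι → Bool => ∃ h : List Bool, h.length = V.len ∧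
      D ≤ (SensSet (outs V ω h) x).card)).card : ℝ) ≤ 2 ^ V.len * τ := by
  have h1 : Finset.univ.filter (fun x : ι → Bool => ∃ h : List Bool, h.length = V.len ∧
      D ≤ (SensSet (outs V ω h) x).card) ⊆
      (Finset.univ : Finset (Fin V.len → Bool)).biUnion (fun g =>
        Finset.univ.filter (fun x : ι → Bool =>
          D ≤ (SensSet (outs V ω (List.ofFn g)) x).card)) := by
    intro x hx
    simp only [Finset.mem_filter, Finset.mem_univ, true_and, Finset.mem_biUnion] at hx ⊢
    obtain ⟨h, hl, hD⟩ := hx
    refine ⟨fun i => h.get (Fin.cast hl.symm i), ?_⟩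
    have e : List.ofFn (fun i : Fin V.len => h.get (Fin.cast hl.symm i)) = h := by
      apply List.ext_get
      · rw [List.length_ofFn, hl]
      · intro n h1 h2
        simp
    rw [e]
    exact hD
  calc ((Finset.univ.filter (fun x : ι → Bool => ∃ h : List Bool, h.length = V.len ∧
      D ≤ (SensSet (outs V ω h) x).card)).card : ℝ)
      ≤ (((Finset.univ : Finset (Fin V.len → Bool)).biUnion (fun g =>
        Finset.univ.filter (fun x : ι → Bool =>
          D ≤ (SensSet (outs V ω (List.ofFn g)) x).card))).card : ℝ) := by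
        exact_mod_cast Finset.card_le_card h1
    _ ≤ ∑ g : Fin V.len → Bool, ((Finset.univ.filter (fun x : ι → Bool =>
          D ≤ (SensSet (outs V ω (List.ofFn g)) x).card)).card : ℝ) := by
        exact_mod_cast Finset.card_biUnion_le
    _ ≤ ∑ _g : Fin V.len → Bool, τ :=
        Finset.sum_le_sum fun g _ => hT _ (List.length_ofFn)
    _ = 2 ^ V.len * τ := by
        rw [Finset.sum_const, Finset.card_univ, nsmul_eq_mul]
        simp

open Classical in
theorem proto (V : Verifier ι) (C : Set V.Prover) (L : Set (ι → Bool)) (c s : ℝ)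
    (hV : V.Decides C L c s) (X : Finset (ι → Bool)) (hX : ∀ x ∈ X, x ∈ L)
    (hflip : ∀ x ∈ X, ∀ i, flip x i ∉ L) (D : ℕ) (τ : ℝ)
    (hT : ∀ (ω : V.Coin) (h : List Bool), h.length = V.len →
      ((Finset.univ.filter (fun x : ι → Bool => D ≤ (SensSet (outs V ω h) x).card)).card : ℝ)
        ≤ τ) :
    (c - s) * Fintype.card ι * X.card ≤
      D * X.card + Fintype.card ι * (2 ^ V.len * τ) := by
  have hN : (0:ℝ) < Nat.card V.Coin := coin_pos V
  have hNc : (Nat.card V.Coin : ℝ) = Fintype.card V.Coin := by rw [Nat.card_eq_fintype_card]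
  set n : ℝ := (Fintype.card ι : ℝ) with hn
  set bad : V.Coin → Finset (ι → Bool) := fun ω =>
    Finset.univ.filter (fun x : ι → Bool => ∃ h : List Bool, h.length = V.len ∧
      D ≤ (SensSet (outs V ω h) x).card) with hbad
  have hn0 : (0 : ℝ) ≤ n := Nat.cast_nonneg _
  have key : ∀ x ∈ X, (c - s) * n * Nat.card V.Coin ≤
      ∑ ω : V.Coin, ((D : ℝ) + (if x ∈ bad ω then n else 0)) := by
    intro x hx
    obtain ⟨P, hP, hc⟩ := hV.1 x (hX x hx)
    refine le_trans (main_x V P x c s hc (fun i => hV.2 _ (hflip x hx i) P hP)) ?_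
    refine Finset.sum_le_sum fun ω _ => ?_
    split_ifs with hb
    · have h1 : ((SensSet (outs V ω (V.run P ω x V.len).2) x).card : ℝ) ≤ n := by
        rw [hn]
        exact_mod_cast Finset.card_le_univ _
      have h2 : (0 : ℝ) ≤ D := Nat.cast_nonneg _
      linarith
    · have h1 : (SensSet (outs V ω (V.run P ω x V.len).2) x).card ≤ D := by
        by_contra h2
        apply hb
        rw [hbad]
        simp only [Finset.mem_filter, Finset.mem_univ, true_and]
        exact ⟨_, run_len V P ω x V.len, by omega⟩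
      rw [add_zero]
      exact_mod_cast h1
  have h2 : ∑ _x ∈ X, (c - s) * n * Nat.card V.Coin ≤
      ∑ x ∈ X, ∑ ω : V.Coin, ((D : ℝ) + (if x ∈ bad ω then n else 0)) :=
    Finset.sum_le_sum key
  have h3 : ∑ x ∈ X, ∑ ω : V.Coin, ((D : ℝ) + (if x ∈ bad ω then n else 0)) ≤
      Nat.card V.Coin * (D * X.card + n * (2 ^ V.len * τ)) := by
    rw [Finset.sum_comm]
    have h4 : ∀ ω : V.Coin, ∑ x ∈ X, ((D : ℝ) + (if x ∈ bad ω then n else 0)) ≤
        D * X.card + n * (2 ^ V.len * τ) := by
      intro ω
      rw [Finset.sum_add_distrib, Finset.sum_const, nsmul_eq_mul, ← Finset.sum_filter,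
        Finset.sum_const, nsmul_eq_mul]
      have h5 : ((X.filter (fun x => x ∈ bad ω)).card : ℝ) ≤ (bad ω).card := by
        exact_mod_cast Finset.card_le_card (fun x hx => (Finset.mem_filter.1 hx).2)
      have h6 : ((bad ω).card : ℝ) ≤ 2 ^ V.len * τ := bad_card V ω D τ (hT ω)
      have h7 := mul_le_mul_of_nonneg_right (h5.trans h6) hn0
      nlinarith
    refine le_trans (Finset.sum_le_sum fun ω _ => h4 ω) ?_
    rw [Finset.sum_const, Finset.card_univ, nsmul_eq_mul, hNc]
  rw [Finset.sum_const, nsmul_eq_mul] at h2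
  have h8 := h2.trans h3
  have h9 : Nat.card V.Coin * ((c - s) * n * X.card) ≤
      Nat.card V.Coin * (D * X.card + n * (2 ^ V.len * τ)) := by
    refine le_trans (le_of_eq ?_) h8
    ring
  exact le_of_mul_le_mul_left h9 hN

end Pool.Agent.AC0IP
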