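import Pool.Agent.Lib.AC0IP.Tail
import Pool.Agent.Lib.AC0IP.Proto
import Pool.Agent.Lib.AC0IP.Blocks
import Pool.Agent.Lib.AC0IP.Red
import Pool.Agent.Lib.AC0IP.Comp
import Pool.Agent.Lib.AC0IP.Num

/-!
# The lower bound
-/

namespace Pool.Agent.AC0IP

theorem main_core (q v S d : ℕ) (hq : 2 ≤ q) (V : Verifier (Clause (q + 1) v))
    (C : Set V.Prover) (c s : ℝ)
    (hS : V.Small S d) (hV : V.Decides C (UNSAT (q + 1) v) c s) (m l : ℕ) (hm : 1 ≤ m)
    (hmv : (q + 1) * (2 * m + 1) ≤ v) (hl : 2 ≤ l) (hml : m ≤ 2 ^ l)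
    (hSl : (V.len + 1) * S ≤ 2 ^ l) :
    (c - s) * (m : ℝ) ^ (q + 1) ≤ ((2 * (48 * l + 1) ^ d *
      ((V.len + 1) * l + d * ((V.len + m ^ q + 5 * d + (q + 1) + 1) * (l * l))) + 1 : ℕ) : ℝ) := by
  classical
  obtain ⟨red, hred1, hred2⟩ := red_exists q m v hq hmv
  have hdec := comp_decides V red C (UNSAT (q + 1) v) c s hV
  have hsm := comp_small V red hred1 S d hS
  have hset : {x | red x ∈ UNSAT (q + 1) v} = AllOdd q m := by
    ext x
    exact hred2 x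
  rw [hset] at hdec
  set V' := comp V red with hV'
  have hlen : V'.len = V.len := rfl
  set M := V.len with hM
  set u := M + m ^ q + 5 * d + (q + 1) + 1 with hu
  set B := (M + 1) * l + d * (u * (l * l)) with hB
  set D := 2 * (48 * l + 1) ^ d * B with hD
  set X := Finset.univ.filter (fun x : (Fin q → Fin m) × Fin m → Bool => x ∈ AllOdd q m) with hX
  have hcard := card_allOdd q m hm
  rw [← hX] at hcard
  have hn : Fintype.card ((Fin q → Fin m) × Fin m) = m ^ (q + 1) := by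
    rw [Fintype.card_prod, Fintype.card_fun, Fintype.card_fin, Fintype.card_fin, pow_succ]
  set τ : ℝ := 2 * (48 * (l : ℝ) + 1) ^ d * (d * (2 ^ (m ^ (q + 1)) * (1 / 2 ^ (l * u))))
    with hτ
  have hT : ∀ (ω : V'.Coin) (h : List Bool), h.length = V'.len →
      ((Finset.univ.filter (fun x : (Fin q → Fin m) × Fin m → Bool =>
        D ≤ (SensSet (outs V' ω h) x).card)).card : ℝ) ≤ τ := by
    intro ω h _
    obtain ⟨lev, g, hc, hd, hout⟩ := joint S d (outs V' ω h)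
      (fun j => small_outs V' S d hsm ω h j)
    have h1 := tail lev g hc d hd (outs V' ω h) hout l u hl B (by
      have : 0 < (M + 1) * l := Nat.mul_pos (by omega) (by omega)
      omega) (by
      rw [Fintype.card_fin]
      exact le_refl _) D (le_refl _)
    rw [hn, Fintype.card_prod, Fintype.card_fin, Fintype.card_fin] at h1
    have h2 : (((V'.len + 1) * S : ℕ) : ℝ) / 4 ^ l ≤ 1 / 2 ^ l := by
      rw [div_le_div_iff₀ (by positivity) (by positivity)]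
      have h3 : (((V'.len + 1) * S : ℕ) : ℝ) ≤ 2 ^ l := by exact_mod_cast hSl
      calc (((V'.len + 1) * S : ℕ) : ℝ) * 2 ^ l ≤ 2 ^ l * 2 ^ l := by gcongr
        _ = 1 * 4 ^ l := by rw [← mul_pow]; norm_num
    have h4 : ((((V'.len + 1) * S : ℕ) : ℝ) / 4 ^ l) ^ u ≤ 1 / 2 ^ (l * u) := by
      calc _ ≤ (1 / (2 : ℝ) ^ l) ^ u := pow_le_pow_left₀ (by positivity) h2 u
        _ = 1 / 2 ^ (l * u) := by rw [div_pow, one_pow, ← pow_mul]
    have h5 : (1 / (48 * (l : ℝ) + 1)) ^ d = 1 / (48 * (l : ℝ) + 1) ^ d := by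
      rw [div_pow, one_pow]
    rw [h5] at h1
    set N : ℝ := ((Finset.univ.filter (fun x : (Fin q → Fin m) × Fin m → Bool =>
        D ≤ (SensSet (outs V' ω h) x).card)).card : ℝ) with hN
    have h6 : N * (1 / (48 * (l : ℝ) + 1) ^ d / 2) ≤
        d * (2 ^ (m ^ (q + 1)) * (1 / 2 ^ (l * u))) := by
      refine h1.trans ?_
      gcongr
    calc N = (N * (1 / (48 * (l : ℝ) + 1) ^ d / 2)) * (2 * (48 * (l : ℝ) + 1) ^ d) := by
          field_simp
      _ ≤ (d * (2 ^ (m ^ (q + 1)) * (1 / 2 ^ (l * u)))) * (2 * (48 * (l : ℝ) + 1) ^ d) := by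
          gcongr
      _ = τ := by rw [hτ]; ring
  have hmain := proto V' C (AllOdd q m) c s hdec X (fun x hx => (Finset.mem_filter.1 hx).2)
    (fun x hx i => flip_allOdd x (Finset.mem_filter.1 hx).2 i) D τ hT
  rw [hn, hlen] at hmain
  have hXpos : (0 : ℝ) < X.card := by
    have h1 : 0 < X.card * 2 ^ (m ^ q) := lt_of_lt_of_le (by positivity) hcard
    exact_mod_cast Nat.pos_of_mul_pos_right h1
  have hcard' : (2 : ℝ) ^ (m ^ (q + 1)) ≤ X.card * 2 ^ (m ^ q) := by exact_mod_cast hcard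
  have h7 : ((m ^ (q + 1) : ℕ) : ℝ) * (2 ^ M * τ) ≤ X.card := by
    have h8 := num2 l d m M (q + 1) (m ^ q) hl hml
    rw [← hu] at h8
    have h9 : (m : ℝ) ^ (q + 1) * 2 * d * (48 * (l : ℝ) + 1) ^ d * 2 ^ (M + m ^ q) ≤
        2 ^ (l * u) := by exact_mod_cast h8
    calc ((m ^ (q + 1) : ℕ) : ℝ) * (2 ^ M * τ)
        = ((m : ℝ) ^ (q + 1) * 2 * d * (48 * (l : ℝ) + 1) ^ d * 2 ^ M *
          2 ^ (m ^ (q + 1))) * (1 / 2 ^ (l * u)) := by
          rw [hτ]
          push_cast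
          ring
      _ ≤ ((m : ℝ) ^ (q + 1) * 2 * d * (48 * (l : ℝ) + 1) ^ d * 2 ^ M *
          (X.card * 2 ^ (m ^ q))) * (1 / 2 ^ (l * u)) := by gcongr
      _ = X.card * ((m : ℝ) ^ (q + 1) * 2 * d * (48 * (l : ℝ) + 1) ^ d * 2 ^ (M + m ^ q)) *
          (1 / 2 ^ (l * u)) := by rw [pow_add 2 M]; ring
      _ ≤ X.card * (2 ^ (l * u)) * (1 / 2 ^ (l * u)) := by gcongr
      _ = X.card := by field_simp
  have h10 : (c - s) * ((m ^ (q + 1) : ℕ) : ℝ) * X.card ≤ ((D : ℝ) + 1) * X.card := by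
    calc _ ≤ _ := hmain
      _ ≤ _ := by linarith
  have h11 := le_of_mul_le_mul_right h10 hXpos
  push_cast at h11 ⊢
  exact h11

theorem unsat_nonempty (k v : ℕ) (hv : 1 ≤ v) :
    (fun _ => true : Clause k v → Bool) ∈ UNSAT k v := by
  rintro ⟨y, hy⟩
  obtain ⟨j, hj⟩ := hy (fun _ => (⟨0, hv⟩, !y ⟨0, hv⟩)) rfl
  simp at hj

theorem sat_nonempty (k v : ℕ) : (fun _ => false : Clause k v → Bool) ∉ UNSAT k v := by
  intro h
  exact h ⟨fun _ => false, fun cl h => by simp at h⟩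

theorem gap_le_one (k v : ℕ) (hv : 1 ≤ v) (V : Verifier (Clause k v)) (C : Set V.Prover)
    (c s : ℝ) (hV : V.Decides C (UNSAT k v) c s) : c - s ≤ 1 := by
  obtain ⟨P, hP, h1⟩ := hV.1 _ (unsat_nonempty k v hv)
  have h2 := hV.2 _ (sat_nonempty k v) P hP
  have h3 : (0 : ℝ) ≤ V.accProb P (fun _ => false) := by
    unfold Verifier.accProb
    positivity
  have h4 : V.accProb P (fun _ => true) ≤ 1 := by
    unfold Verifier.accProb
    let _ := V.fin
    apply div_le_one_of_le₀ _ (Nat.cast_nonneg _)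
    exact_mod_cast Nat.card_le_card_of_injective (Subtype.val) Subtype.val_injective
  linarith

/-- **Lower bound.** -/
theorem lower (k v S d : ℕ) (hk : 3 ≤ k) (V : Verifier (Clause k v)) (C : Set V.Prover)
    (c s : ℝ) (hS : V.Small S d) (hV : V.Decides C (UNSAT k v) c s) :
    (c - s) * (v : ℝ) ^ k ≤ k * (5 * k) ^ k * (V.len + (v : ℝ) ^ (k - 1)) *
      (784 * (Nat.log 2 (S + V.len + v + 2) : ℝ)) ^ (d + 2) := by
  set Λ := Nat.log 2 (S + V.len + v + 2) with hΛ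
  have hΛ1 : 1 ≤ Λ := Nat.log_pos (by norm_num) (by omega)
  have hΛ1' : (1 : ℝ) ≤ Λ := by exact_mod_cast hΛ1
  have hk1 : (1 : ℝ) ≤ k := by exact_mod_cast (by omega : 1 ≤ k)
  have hR0 : 0 ≤ k * (5 * k) ^ k * (V.len + (v : ℝ) ^ (k - 1)) *
      (784 * (Λ : ℝ)) ^ (d + 2) := by positivity
  rcases le_or_gt (c - s) 0 with h0 | h0
  · exact le_trans (mul_nonpos_of_nonpos_of_nonneg h0 (by positivity)) hR0
  rcases Nat.eq_zero_or_pos v with hv0 | hv0
  · have hv0' : (v : ℝ) = 0 := by exact_mod_cast hv0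
    refine le_trans (le_of_eq ?_) hR0
    rw [hv0', zero_pow (by omega), mul_zero]
  have hgap := gap_le_one k v hv0 V C c s hV
  have hv1 : (1 : ℝ) ≤ v := by exact_mod_cast hv0
  rcases lt_or_ge v (3 * k) with hv9 | hv9
  · have h1 : (c - s) * (v : ℝ) ^ k ≤ 1 * (5 * (k : ℝ)) ^ k := by
      have : (v : ℝ) ≤ 5 * k := by
        have : v ≤ 5 * k := by omega
        exact_mod_cast this
      gcongr
    have h2 : (1 : ℝ) ≤ V.len + (v : ℝ) ^ (k - 1) := by
      have h4 : (1 : ℝ) ≤ (v : ℝ) ^ (k - 1) := one_le_pow₀ hv1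
      have h5 : (0 : ℝ) ≤ V.len := Nat.cast_nonneg _
      linarith
    have h6 : (1 : ℝ) ≤ (784 * (Λ : ℝ)) ^ (d + 2) := by
      apply one_le_pow₀
      linarith
    calc _ ≤ _ := h1
      _ ≤ k * (5 * (k : ℝ)) ^ k := by gcongr
      _ = k * (5 * (k : ℝ)) ^ k * 1 * 1 := by ring
      _ ≤ _ := by gcongr
  · obtain ⟨q, rfl⟩ : ∃ q, k = q + 1 := ⟨k - 1, by omega⟩
    set m := (v / (q + 1) - 1) / 2 with hm
    set l := 2 * Λ + 2 with hl
    have hdiv : 3 ≤ v / (q + 1) := (Nat.le_div_iff_mul_le (by omega)).2 hv9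
    have hm1 : 1 ≤ m := by omega
    have hmv : (q + 1) * (2 * m + 1) ≤ v := by
      calc (q + 1) * (2 * m + 1) ≤ (q + 1) * (v / (q + 1)) := by
            apply Nat.mul_le_mul_left
            omega
        _ ≤ v := Nat.mul_div_le v (q + 1)
    have hvm : v ≤ 5 * (q + 1) * m := by
      have h1 : v < (q + 1) * (v / (q + 1) + 1) := by
        rw [mul_add, mul_one]
        have := Nat.div_add_mod v (q + 1)
        have h2 := Nat.mod_lt v (show 0 < q + 1 by omega)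
        omega
      have h2 : v / (q + 1) + 1 ≤ 5 * m := by omega
      calc v ≤ (q + 1) * (v / (q + 1) + 1) := h1.le
        _ ≤ (q + 1) * (5 * m) := Nat.mul_le_mul_left _ h2
        _ = 5 * (q + 1) * m := by ring
    have hlt : S + V.len + v + 2 < 2 ^ (Λ + 1) := Nat.lt_pow_succ_log_self (by norm_num) _
    have hpow : 2 ^ (Λ + 1) * 2 ^ (Λ + 1) = 2 ^ l := by
      rw [← pow_add]
      congr 1
      omega
    have hpow1 : 1 ≤ 2 ^ (Λ + 1) := Nat.one_le_two_pow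
    have hmv2 : m ≤ v := by
      have : 2 * m + 1 ≤ (q + 1) * (2 * m + 1) := Nat.le_mul_of_pos_left _ (by omega)
      omega
    have hml : m ≤ 2 ^ l := by
      rw [← hpow]
      nlinarith
    have hSl : (V.len + 1) * S ≤ 2 ^ l := by
      rw [← hpow]
      exact Nat.mul_le_mul (by omega) (by omega)
    have h1 := main_core q v S d (by omega) V C c s hS hV m l hm1 hmv (by omega) hml hSl
    have h2 := num4 l d V.len (q + 1) (m ^ q) (by omega) (by omega)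
      (Nat.one_le_pow _ _ hm1)
    have h3 : (v : ℝ) ^ (q + 1) ≤ (5 * ((q + 1 : ℕ) : ℝ)) ^ (q + 1) * (m : ℝ) ^ (q + 1) := by
      have : (v : ℝ) ≤ 5 * ((q + 1 : ℕ) : ℝ) * m := by exact_mod_cast hvm
      calc (v : ℝ) ^ (q + 1) ≤ (5 * ((q + 1 : ℕ) : ℝ) * (m : ℝ)) ^ (q + 1) := by gcongr
        _ = _ := by rw [mul_pow]
    have h4 : ((2 * (48 * l + 1) ^ d * ((V.len + 1) * l +
        d * ((V.len + m ^ q + 5 * d + (q + 1) + 1) * (l * l))) + 1 : ℕ) : ℝ) ≤
        (((q + 1) * ((V.len + m ^ q) * (196 * l) ^ (d + 2)) : ℕ) : ℝ) := by exact_mod_cast h2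
    have hmv' : (m : ℝ) ≤ v := by exact_mod_cast hmv2
    have hll : (l : ℝ) ≤ 4 * Λ := by
      have : l ≤ 4 * Λ := by omega
      exact_mod_cast this
    have h5 : (c - s) * (m : ℝ) ^ (q + 1) ≤ ((q + 1 : ℕ) : ℝ) *
        (((V.len : ℝ) + (v : ℝ) ^ q) * (784 * (Λ : ℝ)) ^ (d + 2)) := by
      calc (c - s) * (m : ℝ) ^ (q + 1) ≤ _ := h1
        _ ≤ _ := h4
        _ = ((q + 1 : ℕ) : ℝ) * (((V.len : ℝ) + (m : ℝ) ^ q) *
          (196 * (l : ℝ)) ^ (d + 2)) := by push_cast; ring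
        _ ≤ ((q + 1 : ℕ) : ℝ) * (((V.len : ℝ) + (v : ℝ) ^ q) *
          (196 * (4 * (Λ : ℝ))) ^ (d + 2)) := by gcongr
        _ = _ := by ring
    have h6 : (q + 1 - 1 : ℕ) = q := by omega
    rw [h6]
    calc (c - s) * (v : ℝ) ^ (q + 1)
        ≤ (c - s) * ((5 * ((q + 1 : ℕ) : ℝ)) ^ (q + 1) * (m : ℝ) ^ (q + 1)) := by gcongr
      _ = (5 * ((q + 1 : ℕ) : ℝ)) ^ (q + 1) * ((c - s) * (m : ℝ) ^ (q + 1)) := by ring
      _ ≤ (5 * ((q + 1 : ℕ) : ℝ)) ^ (q + 1) * (((q + 1 : ℕ) : ℝ) *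
        (((V.len : ℝ) + (v : ℝ) ^ q) * (784 * (Λ : ℝ)) ^ (d + 2))) := by gcongr
      _ = _ := by ring

end Pool.Agent.AC0IP
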