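import Pool.Agent.Lib.AC0IP.Defs

/-!
# Flipping a bit, joint sensitivity, the functions met during a run
-/

namespace Pool.Agent.AC0IP

variable {ι : Type}

/-- The input `x` with the bit `i` flipped. -/
def flip [DecidableEq ι] (x : ι → Bool) (i : ι) : ι → Bool := Function.update x i (!x i)

open Classical in
/-- The bits of `x` whose flip changes the value of at least one of the functions `out j`. -/
noncomputable def SensSet [Fintype ι] [DecidableEq ι] {K : Type} (out : K → BF ι)
    (x : ι → Bool) : Finset ι :=
  Finset.univ.filter (fun i => ∃ j, out j (flip x i) ≠ out j x)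

/-- The functions of the input which the verifier evaluates when its coins are `ω` and the list
of all answers (latest first) is `h`. -/
def outs (V : Verifier ι) (ω : V.Coin) (h : List Bool) : Fin (V.len + 1) → BF ι :=
  fun j => if (j : ℕ) = V.len then V.verdict ω h else V.ask ω (h.drop (V.len - j))

/-- Parity of the block `σ` of `x` is odd. -/
def OddBlock {q m : ℕ} (x : (Fin q → Fin m) × Fin m → Bool) (σ : Fin q → Fin m) : Prop :=
  Odd (Finset.univ.filter (fun j => x (σ, j) = true)).card

/-- All blocks are odd. -/
def AllOdd (q m : ℕ) : Set ((Fin q → Fin m) × Fin m → Bool) := {x | ∀ σ, OddBlock x σ}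

/-- The verifier which applies `V` to `red x`. -/
def comp {ι' : Type} (V : Verifier ι') (red : (ι → Bool) → (ι' → Bool)) : Verifier ι where
  Coin := V.Coin
  fin := V.fin
  ne := V.ne
  Pub := V.Pub
  len := V.len
  pub := V.pub
  ask := fun ω h x => V.ask ω h (red x)
  verdict := fun ω h x => V.verdict ω h (red x)

end Pool.Agent.AC0IP
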