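import Pool.Agent.Lib.AC0IP.Cert

/-!
# Several walks one after the other: encoding and decoding
-/

set_option linter.unusedSectionVars false

namespace Pool.Agent.AC0IP

variable {ι Γ : Type} [DecidableEq ι]

/-- The point `x` with the bits in `U` replaced by `false`. -/
def mask (U : Finset ι) (x : ι → Bool) : ι → Bool := fun i => if i ∈ U then false else x i

theorem mask_off (U : Finset ι) (x : ι → Bool) : off U x (mask U x) := by
  intro i hi
  unfold mask
  rw [if_neg hi]

theorem off_mask (U : Finset ι) (x z : ι → Bool) : off U (mask U x) z ↔ off U x z := by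
  constructor
  · intro h i hi
    rw [h i hi, mask_off U x i hi]
  · intro h i hi
    rw [h i hi, mask_off U x i hi]

theorem mask_eq (U : Finset ι) (x x' : ι → Bool) (h : off U x x') : mask U x' = mask U x := by
  funext i
  unfold mask
  by_cases hi : i ∈ U
  · rw [if_pos hi, if_pos hi]
  · rw [if_neg hi, if_neg hi]
    exact h i hi

theorem off_trans {U V : Finset ι} {x y z : ι → Bool} (h1 : off U x y) (h2 : off V y z)
    (hV : V ⊆ U) : off U x z := by
  intro i hi
  rw [h2 i (fun h => hi (hV h)), h1 i hi]

theorem off_mono {U V : Finset ι} {x y : ι → Bool} (h1 : off V x y) (hV : V ⊆ U) :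
    off U x y := fun i hi => h1 i (fun h => hi (hV h))

theorem off_symm {U : Finset ι} {x y : ι → Bool} (h1 : off U x y) : off U y x :=
  fun i hi => (h1 i hi).symm

/-- Some list `L y a` has, at some point of the subcube, a walk meeting at least `l` variables. -/
def stuck0 (l : ℕ) (L : (ι → Bool) → Γ → List (Term ι)) (y : ι → Bool) (U : Finset ι) : Prop :=
  ∃ p : Γ × (ι → Bool), off U y p.2 ∧ l ≤ (U \ walk (L y p.1) p.2 l U).card

open Classical in
/-- The free variables after one long walk (unchanged if there is no long walk). -/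
noncomputable def nxt0 (l : ℕ) (L : (ι → Bool) → Γ → List (Term ι)) (y : ι → Bool)
    (U : Finset ι) : Finset ι :=
  if h : stuck0 l L y U then walk (L y h.choose.1) h.choose.2 l U else U

/-- Some list has, at some point of the subcube, a walk meeting at least `l` variables. -/
def stuckE (l : ℕ) (L : (ι → Bool) → Γ → List (Term ι)) (x : ι → Bool) (U : Finset ι) : Prop :=
  stuck0 l L (mask U x) U

/-- The free variables after one long walk (unchanged if there is no long walk). -/
noncomputable def nxt (l : ℕ) (L : (ι → Bool) → Γ → List (Term ι)) (x : ι → Bool)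
    (U : Finset ι) : Finset ι := nxt0 l L (mask U x) U

/-- The free variables after `j` long walks. -/
noncomputable def fin (l : ℕ) (L : (ι → Bool) → Γ → List (Term ι)) (x : ι → Bool) :
    ℕ → Finset ι → Finset ι
  | 0, U => U
  | j + 1, U => fin l L x j (nxt l L x U)

/-- There are `j` long walks one after the other. -/
def bad (l : ℕ) (L : (ι → Bool) → Γ → List (Term ι)) (x : ι → Bool) : ℕ → Finset ι → Prop
  | 0, _ => True
  | j + 1, U => stuckE l L x U ∧ bad l L x j (nxt l L x U)

theorem nxt_subset (l : ℕ) (L : (ι → Bool) → Γ → List (Term ι)) (x : ι → Bool) (U : Finset ι) :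
    nxt l L x U ⊆ U := by
  unfold nxt nxt0
  split_ifs with h
  · exact walk_subset _ _ _ _
  · exact Finset.Subset.refl _

theorem fin_subset (l : ℕ) (L : (ι → Bool) → Γ → List (Term ι)) (x : ι → Bool) (j : ℕ)
    (U : Finset ι) : fin l L x j U ⊆ U := by
  induction j generalizing U with
  | zero => exact Finset.Subset.refl _
  | succ j ih => exact (ih _).trans (nxt_subset l L x U)

theorem fin_not_stuck (l : ℕ) (L : (ι → Bool) → Γ → List (Term ι)) (x : ι → Bool) (j : ℕ)
    (U : Finset ι) (h : ¬ bad l L x j U) : ¬ stuckE l L x (fin l L x j U) := by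
  induction j generalizing U with
  | zero => exact absurd trivial h
  | succ j ih =>
    by_cases h1 : stuckE l L x U
    · exact ih _ (fun h2 => h ⟨h1, h2⟩)
    · have h2 : nxt l L x U = U := by
        unfold nxt nxt0
        exact dif_neg h1
      have h3 : ∀ j, fin l L x j U = U := by
        intro j
        induction j with
        | zero => rfl
        | succ j ih2 =>
          change fin l L x j (nxt l L x U) = U
          rw [h2]
          exact ih2
      rw [h3]
      exact h1

theorem nxt_congr (l : ℕ) (L : (ι → Bool) → Γ → List (Term ι)) (x x' : ι → Bool)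
    (U : Finset ι) (h : off U x x') : nxt l L x' U = nxt l L x U := by
  unfold nxt
  rw [mask_eq U x x' h]

theorem fin_congr (l : ℕ) (L : (ι → Bool) → Γ → List (Term ι)) (x x' : ι → Bool) (j : ℕ)
    (U : Finset ι) (h : off (fin l L x j U) x x') : fin l L x' j U = fin l L x j U := by
  induction j generalizing U with
  | zero => rfl
  | succ j ih =>
    change fin l L x' j (nxt l L x' U) = fin l L x j (nxt l L x U)
    rw [nxt_congr l L x x' U (off_mono h (fin_subset l L x (j + 1) U))]
    exact ih _ h

theorem card_fin (l : ℕ) (L : (ι → Bool) → Γ → List (Term ι))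
    (hL : ∀ x a, ∀ T ∈ L x a, T.1.card ≤ l) (x : ι → Bool) (j : ℕ)
    (U : Finset ι) : (U \ fin l L x j U).card ≤ j * (l * l) := by
  induction j generalizing U with
  | zero => simp [fin]
  | succ j ih =>
    have h1 : U \ fin l L x (j + 1) U ⊆
        (U \ nxt l L x U) ∪ (nxt l L x U \ fin l L x j (nxt l L x U)) := by
      intro i hi
      rw [Finset.mem_sdiff] at hi
      rw [Finset.mem_union, Finset.mem_sdiff, Finset.mem_sdiff]
      by_cases h : i ∈ nxt l L x U
      · exact Or.inr ⟨h, hi.2⟩
      · exact Or.inl ⟨hi.1, h⟩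
    have h2 : (U \ nxt l L x U).card ≤ l * l := by
      unfold nxt nxt0
      split_ifs with h
      · exact card_walk _ _ (hL _ _) l U
      · simp
    calc _ ≤ _ := Finset.card_le_card h1
      _ ≤ _ := Finset.card_union_le _ _
      _ ≤ l * l + j * (l * l) := Nat.add_le_add h2 (ih _)
      _ = (j + 1) * (l * l) := by ring

/-- Decoding. -/
def dec {l : ℕ} (pos : Finset ι → ι → Fin l) (L : (ι → Bool) → Γ → List (Term ι))
    (W' : Finset ι) : (j : ℕ) → (ι → Bool) →
      (Fin j → Γ × (Fin l → Fin l → Option (Bool × Bool))) → (ι → Bool) × Finset ι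
  | 0, y, _ => (y, W')
  | j + 1, y, c =>
    ((dec pos L W' j (dcd pos (L y (c 0).1) W' l y (c 0).2).2 (Fin.tail c)).1,
      (dec pos L W' j (dcd pos (L y (c 0).1) W' l y (c 0).2).2 (Fin.tail c)).2 ∪
        (dcd pos (L y (c 0).1) W' l y (c 0).2).1)

/-- Encoding of a point with `j` long walks. -/
theorem enc_exists {l : ℕ} (pos : Finset ι → ι → Fin l)
    (hpos : ∀ A : Finset ι, A.card ≤ l → Set.InjOn (pos A) (A : Set ι))
    (R : (ι → Bool) → Finset ι) (L : (ι → Bool) → Γ → List (Term ι))
    (hR : ∀ x x', off (R x) x x' → R x' = R x ∧ L x' = L x)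
    (hL : ∀ x a, ∀ T ∈ L x a, T.1.card ≤ l) (j : ℕ) (x : ι → Bool) (U : Finset ι)
    (hU : U ⊆ R x) (hb : bad l L x j U) :
    ∃ (y : ι → Bool) (W' : Finset ι) (c : Fin j → Γ × (Fin l → Fin l → Option (Bool × Bool))),
      off U x y ∧ W' ⊆ U ∧ (∀ i, l ≤ som (c i).2) ∧ ∑ i, som (c i).2 = (U \ W').card ∧
      dec pos L W' j y c = (x, U) := by
  induction j generalizing U with
  | zero =>
    refine ⟨x, U, Fin.elim0, fun _ _ => rfl, Finset.Subset.refl _, fun i => i.elim0, ?_, rfl⟩
    simp
  | succ j ih =>
    obtain ⟨h1, h2⟩ := hb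
    set a := h1.choose.1 with ha
    set z := h1.choose.2 with hz
    have hoff : off U (mask U x) z := h1.choose_spec.1
    have hlen : l ≤ (U \ walk (L (mask U x) a) z l U).card := h1.choose_spec.2
    have hn : nxt l L x U = walk (L (mask U x) a) z l U := by
      unfold nxt nxt0
      exact dif_pos h1
    have hLm : L (mask U x) = L x := (hR x _ (off_mono (mask_off U x) hU)).2
    rw [hLm] at hn hlen
    rw [hn] at h2
    set V := walk (L x a) z l U with hV
    have hVU : V ⊆ U := walk_subset _ _ _ _
    obtain ⟨y, W', c, h3, h4, h5, h6, h7⟩ := ih V (hVU.trans hU) h2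
    have hoff' : off U x z := (off_mask U x z).1 hoff
    have hy' : off U x (sat (L x a) z l U y) := by
      intro i hi
      rw [sat_off (L x a) z l U y i hi]
      exact h3 i (fun h => hi (hVU h))
    have hLy : L (sat (L x a) z l U y) = L x := (hR x _ (off_mono hy' hU)).2
    have hdc : dcd pos (L x a) W' l (sat (L x a) z l U y) (adv pos (L x a) z x l U) =
        (U \ V, y) :=
      dcd_sat pos (L x a) hpos (hL x a) z W' l U x y hoff' h4 h3
    have hsom : som (adv pos (L x a) z x l U) = (U \ V).card :=
      som_adv pos (L x a) z x hpos (hL x a) l U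
    refine ⟨sat (L x a) z l U y, W', Fin.cons (a, adv pos (L x a) z x l U) c, hy',
      h4.trans hVU, ?_, ?_, ?_⟩
    · intro i
      refine Fin.cases ?_ ?_ i
      · rw [Fin.cons_zero]
        change l ≤ som (adv pos (L x a) z x l U)
        rw [hsom]
        exact hlen
      · intro i
        rw [Fin.cons_succ]
        exact h5 i
    · rw [Fin.sum_univ_succ]
      simp only [Fin.cons_zero, Fin.cons_succ]
      rw [h6, hsom]
      have h8 : U \ W' = (U \ V) ∪ (V \ W') := by
        ext i
        simp only [Finset.mem_sdiff, Finset.mem_union]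
        constructor
        · rintro ⟨h8, h9⟩
          by_cases h10 : i ∈ V
          · exact Or.inr ⟨h10, h9⟩
          · exact Or.inl ⟨h8, h10⟩
        · rintro (⟨h8, h9⟩ | ⟨h8, h9⟩)
          · exact ⟨h8, fun h => h9 (h4 h)⟩
          · exact ⟨hVU h8, h9⟩
      rw [h8, Finset.card_union_of_disjoint]
      rw [Finset.disjoint_left]
      intro i hi hi'
      exact (Finset.mem_sdiff.1 hi).2 (Finset.mem_sdiff.1 hi').1
    · unfold dec
      rw [Fin.cons_zero, Fin.tail_cons, hLy]
      change ((dec pos L W' j (dcd pos (L x a) W' l (sat (L x a) z l U y)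
        (adv pos (L x a) z x l U)).2 c).1,
        (dec pos L W' j (dcd pos (L x a) W' l (sat (L x a) z l U y)
        (adv pos (L x a) z x l U)).2 c).2 ∪
        (dcd pos (L x a) W' l (sat (L x a) z l U y)
        (adv pos (L x a) z x l U)).1) = (x, U)
      rw [hdc]
      change ((dec pos L W' j y c).1, (dec pos L W' j y c).2 ∪ (U \ V)) = (x, U)
      rw [h7]
      change (x, V ∪ (U \ V)) = (x, U)
      rw [Finset.union_sdiff_of_subset hVU]

end Pool.Agent.AC0IP
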