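import Pool.Agent.Lib.AC0IP.Levels
import Pool.Agent.Lib.AC0IP.MS
import Pool.Agent.Lib.AC0IP.EJ
import Pool.Agent.Lib.AC0IP.Sens

/-!
# The tail bound for the joint sensitivity of the outputs of a constant-depth circuit
-/

set_option linter.unusedSectionVars false

namespace Pool.Agent.AC0IP

variable {ι Γ : Type} [Fintype ι] [DecidableEq ι] [Fintype Γ]

open Classical in
/-- Expected number of failures at the point `x` during the next `r` levels. -/
noncomputable def beta (p : ℝ) (l u : ℕ) (h : Γ → BF ι) (x : ι → Bool) : ℕ → AR ι → ℝ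
  | 0, _ => 0
  | r + 1, R => ∑ Q : Finset ι, W p Q *
      ((if Fail l u h R Q x then 1 else 0) + beta p l u h x r (next l u h R Q))

theorem beta_nonneg (p : ℝ) (h0 : 0 ≤ p) (h1 : p ≤ 1) (l u : ℕ) (h : Γ → BF ι)
    (x : ι → Bool) (r : ℕ) (R : AR ι) : 0 ≤ beta p l u h x r R := by
  induction r generalizing R with
  | zero => exact le_refl _
  | succ r ih =>
    apply Finset.sum_nonneg
    intro Q _
    apply mul_nonneg (W_nonneg p h0 h1 Q)
    apply add_nonneg _ (ih _)
    split_ifs <;> norm_num

/-- The total of `beta` over all points. -/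
theorem sum_beta (l u : ℕ) (hl : 0 < l) (h : Γ → BF ι) (r : ℕ) (R : AR ι) :
    ∑ x : ι → Bool, beta (1 / (48 * (l : ℝ) + 1)) l u h x r R ≤
      r * (2 ^ Fintype.card ι * ((Fintype.card Γ : ℝ) / 4 ^ l) ^ u) := by
  have hp0 : (0 : ℝ) ≤ 1 / (48 * (l : ℝ) + 1) := by positivity
  have hp1 : (1 : ℝ) / (48 * (l : ℝ) + 1) ≤ 1 := by
    rw [div_le_one (by positivity)]
    have : (0 : ℝ) ≤ l := Nat.cast_nonneg l
    linarith
  set p : ℝ := 1 / (48 * (l : ℝ) + 1) with hp
  set δ : ℝ := 2 ^ Fintype.card ι * ((Fintype.card Γ : ℝ) / 4 ^ l) ^ u with hδ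
  induction r generalizing R with
  | zero => simp [beta]
  | succ r ih =>
    classical
    have h1 : ∑ x : ι → Bool, beta p l u h x (r + 1) R =
        ∑ x : ι → Bool, ∑ Q : Finset ι, W p Q * (if Fail l u h R Q x then 1 else 0) +
        ∑ Q : Finset ι, W p Q * ∑ x : ι → Bool, beta p l u h x r (next l u h R Q) := by
      have h2 : ∀ x : ι → Bool, beta p l u h x (r + 1) R =
          ∑ Q : Finset ι, W p Q * (if Fail l u h R Q x then 1 else 0) +
          ∑ Q : Finset ι, W p Q * beta p l u h x r (next l u h R Q) := by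
        intro x
        rw [← Finset.sum_add_distrib]
        apply Finset.sum_congr rfl
        intro Q _
        rw [mul_add]
      rw [Finset.sum_congr rfl (fun x _ => h2 x), Finset.sum_add_distrib]
      congr 1
      rw [Finset.sum_comm]
      apply Finset.sum_congr rfl
      intro Q _
      rw [Finset.mul_sum]
    have h3 : ∑ x : ι → Bool, ∑ Q : Finset ι, W p Q * (if Fail l u h R Q x then 1 else 0)
        ≤ δ := by
      have h4 := ms l u hl R.free (lst l h R) (fun x x' hx => lst_coh l h R x x' hx)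
        (fun x a => lst_card l h R x a)
      refine le_trans (le_of_eq ?_) h4
      apply Finset.sum_congr rfl
      intro x _
      apply Finset.sum_congr rfl
      intro Q _
      congr
    have h5 : ∑ Q : Finset ι, W p Q * ∑ x : ι → Bool, beta p l u h x r (next l u h R Q)
        ≤ ∑ Q : Finset ι, W p Q * (r * δ) :=
      Finset.sum_le_sum (fun Q _ => mul_le_mul_of_nonneg_left (ih _) (W_nonneg p hp0 hp1 Q))
    rw [← Finset.sum_mul, W_sum, one_mul] at h5
    rw [h1]
    push_cast
    linarith

open Classical in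
/-- The probability that many sensitive bits survive is at most the expected number of
failures. -/
theorem EJ_le_beta (lev : Γ → ℕ) (g : Γ → BF ι) (pol : Γ → Bool)
    (hpol : ∀ a : Γ, ∃ A : Set (BF ι),
      (∀ f ∈ A, IsLit f ∨ ∃ b : Γ, lev b < lev a ∧ ((∀ x, f x = g b x) ∨ ∀ x, f x = !g b x)) ∧
      ∀ x, xor (g a x) (pol a) = true ↔ ∃ f ∈ A, f x = true) (p : ℝ) (h0 : 0 ≤ p) (h1 : p ≤ 1)
    (l u : ℕ) (hl : 2 ≤ l) (d : ℕ) (x : ι → Bool) (S : Finset ι) (B0 B : ℕ)
    (hS : ∀ R : AR ι, (∀ a, lev a < d → Good l (g a) x (R.free x)) →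
      (S ∩ R.free x).card ≤ B0)
    (r t : ℕ) (R : AR ι) (A : Finset ι) (c : ℕ) (htr : t + r = d)
    (hG : ∀ a, lev a < t → Good l (g a) x (R.free x)) (hc : (A \ R.free x).card ≤ c)
    (hB : B0 + c + r * (u * (l * l)) ≤ B) :
    EJ p (fun Q => if B < (S ∩ Q).card then (1 : ℝ) else 0) r A ≤
      beta p l u (fun a x => xor (g a x) (pol a)) x r R := by
  induction r generalizing t R A c with
  | zero =>
    have h2 : (S ∩ R.free x).card ≤ B0 := hS R (by
      rw [add_zero] at htr
      rw [← htr]
      exact hG)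
    have h3 : (S ∩ A).card ≤ B := by
      have h4 : S ∩ A ⊆ (S ∩ R.free x) ∪ (A \ R.free x) := by
        intro i hi
        rw [Finset.mem_inter] at hi
        rw [Finset.mem_union, Finset.mem_inter, Finset.mem_sdiff]
        by_cases h5 : i ∈ R.free x
        · exact Or.inl ⟨hi.1, h5⟩
        · exact Or.inr ⟨hi.2, h5⟩
      have h5 := (Finset.card_le_card h4).trans (Finset.card_union_le _ _)
      omega
    change (if B < (S ∩ A).card then (1 : ℝ) else 0) ≤ 0
    rw [if_neg (by omega)]
  | succ r ih =>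
    apply Finset.sum_le_sum
    intro Q _
    apply mul_le_mul_of_nonneg_left _ (W_nonneg p h0 h1 Q)
    by_cases hf : Fail l u (fun a x => xor (g a x) (pol a)) R Q x
    · rw [if_pos hf]
      have h2 : EJ p (fun Q => if B < (S ∩ Q).card then (1 : ℝ) else 0) r (A ∩ Q) ≤ 1 :=
        EJ_le_one p h0 h1 _ (fun A => by split_ifs <;> norm_num) r _
      have h3 := beta_nonneg p h0 h1 l u (fun a x => xor (g a x) (pol a)) x r
        (next l u (fun a x => xor (g a x) (pol a)) R Q)
      linarith
    · rw [if_neg hf, zero_add]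
      apply ih (t + 1) (next l u (fun a x => xor (g a x) (pol a)) R Q) (A ∩ Q)
        (c + u * (l * l)) (by omega)
      · exact level_step lev g pol hpol l u hl t R Q x hG hf
      · have h4 : (A ∩ Q) \ (next l u (fun a x => xor (g a x) (pol a)) R Q).free x ⊆
            (A \ R.free x) ∪ ((R.free x ∩ Q) \
              (next l u (fun a x => xor (g a x) (pol a)) R Q).free x) := by
          intro i hi
          rw [Finset.mem_sdiff, Finset.mem_inter] at hi
          rw [Finset.mem_union, Finset.mem_sdiff, Finset.mem_sdiff, Finset.mem_inter]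
          by_cases h5 : i ∈ R.free x
          · exact Or.inr ⟨⟨h5, hi.1.2⟩, hi.2⟩
          · exact Or.inl ⟨hi.1.1, h5⟩
        have h5 := (Finset.card_le_card h4).trans (Finset.card_union_le _ _)
        have h6 := card_next l u (fun a x => xor (g a x) (pol a)) R Q x
        omega
      · have h7 : (r + 1) * (u * (l * l)) = r * (u * (l * l)) + u * (l * l) := by ring
        omega

theorem mem_sensSet {K : Type} (out : K → BF ι) (x : ι → Bool) (i : ι) :
    i ∈ SensSet out x ↔ ∃ j, out j (flip x i) ≠ out j x := by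
  unfold SensSet
  simp only [Finset.mem_filter, Finset.mem_univ, true_and]

/-- At a point where all gates have short certificates few sensitive bits are free. -/
theorem card_sens_good {K : Type} [Fintype K] (lev : Γ → ℕ) (g : Γ → BF ι) (d : ℕ)
    (hd : ∀ a, lev a < d) (out : K → BF ι) (hout : ∀ j, IsOut g (out j)) (l : ℕ) (hl : 2 ≤ l)
    (x : ι → Bool) (U : Finset ι) (hG : ∀ a, lev a < d → Good l (g a) x U) :
    (SensSet out x ∩ U).card ≤ Fintype.card K * l := by
  classical
  have h1 : ∀ j, Good l (out j) x U := by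
    intro j
    rcases hout j with h1 | ⟨a, h1 | h1⟩
    · exact good_lit l hl _ h1 x U
    · exact good_xor l (g a) _ false (fun y => by rw [Bool.xor_false]; exact h1 y) x U
        (hG a (hd a))
    · exact good_xor l (g a) _ true (fun y => by rw [Bool.xor_true]; exact h1 y) x U
        (hG a (hd a))
  have h2 : ∀ j, ∃ C ⊆ U, C.card < l ∧ ∀ z', off (U \ C) x z' → out j z' = out j x :=
    fun j => h1 j x (fun i _ => rfl)
  choose C hC1 hC2 hC3 using h2
  have h3 : SensSet out x ∩ U ⊆ Finset.univ.biUnion C := by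
    intro i hi
    rw [Finset.mem_inter] at hi
    obtain ⟨hi1, hiU⟩ := hi
    obtain ⟨j, hj⟩ := (mem_sensSet out x i).1 hi1
    rw [Finset.mem_biUnion]
    refine ⟨j, Finset.mem_univ _, ?_⟩
    by_contra h4
    apply hj
    apply hC3 j
    intro i' hi'
    unfold flip
    apply Function.update_of_ne
    rintro rfl
    exact hi' (Finset.mem_sdiff.2 ⟨hiU, h4⟩)
  calc _ ≤ _ := Finset.card_le_card h3
    _ ≤ ∑ j : K, (C j).card := Finset.card_biUnion_le
    _ ≤ ∑ _j : K, l := Finset.sum_le_sum (fun j _ => (hC2 j).le)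
    _ = Fintype.card K * l := by rw [Finset.sum_const, Finset.card_univ, smul_eq_mul]

open Classical in
/-- Tail bound for the joint sensitivity. -/
theorem tail {K : Type} [Fintype K] (lev : Γ → ℕ) (g : Γ → BF ι) (hc : IsCircuit lev g)
    (d : ℕ) (hd : ∀ a, lev a < d) (out : K → BF ι) (hout : ∀ j, IsOut g (out j))
    (l u : ℕ) (hl : 2 ≤ l) (B : ℕ) (hB0 : 0 < B)
    (hB : Fintype.card K * l + d * (u * (l * l)) ≤ B) (D : ℕ)
    (hD : 2 * (48 * l + 1) ^ d * B ≤ D) :
    ((Finset.univ.filter (fun x : ι → Bool => D ≤ (SensSet out x).card)).card : ℝ) *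
      ((1 / (48 * (l : ℝ) + 1)) ^ d / 2) ≤
      d * (2 ^ Fintype.card ι * ((Fintype.card Γ : ℝ) / 4 ^ l) ^ u) := by
  have hp0 : (0 : ℝ) < 1 / (48 * (l : ℝ) + 1) := by positivity
  have hp1 : (1 : ℝ) / (48 * (l : ℝ) + 1) ≤ 1 := by
    rw [div_le_one (by positivity)]
    have : (0 : ℝ) ≤ l := Nat.cast_nonneg l
    linarith
  set p : ℝ := 1 / (48 * (l : ℝ) + 1) with hp
  obtain ⟨pol, hpol⟩ := or_form lev g hc
  set h : Γ → BF ι := fun a x => xor (g a x) (pol a) with hh
  set R0 : AR ι := ⟨fun _ => Finset.univ, fun _ _ _ => rfl⟩ with hR0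
  have key : ∀ x : ι → Bool, D ≤ (SensSet out x).card → p ^ d / 2 ≤ beta p l u h x d R0 := by
    intro x hx
    set S := SensSet out x with hS
    have h1 : EJ p (fun Q => if B < (S ∩ Q).card then (1 : ℝ) else 0) d Finset.univ ≤
        beta p l u h x d R0 := by
      apply EJ_le_beta lev g pol hpol p hp0.le hp1 l u hl d x S (Fintype.card K * l) B
        (fun R hG => card_sens_good lev g d hd out hout l hl x (R.free x) hG) d 0 R0
        Finset.univ 0 (by omega) (fun a ha => absurd ha (Nat.not_lt_zero _))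
      · rw [hR0, Finset.sdiff_self, Finset.card_empty]
      · omega
    have h2 : EJ p (fun Q => ((S ∩ Q).card : ℝ)) d Finset.univ ≤
        EJ p (fun Q => (B : ℝ) + (S.card : ℝ) *
          (if B < (S ∩ Q).card then (1 : ℝ) else 0)) d Finset.univ := by
      apply EJ_mono p hp0.le hp1
      intro Q
      split_ifs with h3
      · have h4 : ((S ∩ Q).card : ℝ) ≤ S.card := by
          exact_mod_cast Finset.card_le_card Finset.inter_subset_left
        have h5 : (0 : ℝ) ≤ B := Nat.cast_nonneg B
        linarith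
      · have h4 : ((S ∩ Q).card : ℝ) ≤ B := by exact_mod_cast not_lt.1 h3
        linarith
    rw [EJ_affine, EJ_card, Finset.inter_univ] at h2
    have hSD : (2 : ℝ) * (48 * (l : ℝ) + 1) ^ d * B ≤ S.card := by
      have h3 : 2 * (48 * l + 1) ^ d * B ≤ S.card := hD.trans hx
      exact_mod_cast h3
    have hpd : p ^ d * (48 * (l : ℝ) + 1) ^ d = 1 := by
      rw [← mul_pow, hp, one_div, inv_mul_cancel₀ (by positivity), one_pow]
    have hBp : (0 : ℝ) < B := by exact_mod_cast hB0
    have hSp : (0 : ℝ) < S.card := lt_of_lt_of_le (by positivity) hSD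
    have h4 : 2 * (B : ℝ) ≤ p ^ d * S.card := by
      calc 2 * (B : ℝ) = p ^ d * (48 * (l : ℝ) + 1) ^ d * (2 * B) := by rw [hpd, one_mul]
        _ = p ^ d * (2 * (48 * (l : ℝ) + 1) ^ d * B) := by ring
        _ ≤ p ^ d * S.card := mul_le_mul_of_nonneg_left hSD (by positivity)
    have h5 : p ^ d / 2 * S.card ≤ S.card * EJ p
        (fun Q => if B < (S ∩ Q).card then (1 : ℝ) else 0) d Finset.univ := by linarith
    have h6 : p ^ d / 2 ≤ EJ p
        (fun Q => if B < (S ∩ Q).card then (1 : ℝ) else 0) d Finset.univ := by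
      rw [mul_comm] at h5
      exact le_of_mul_le_mul_left h5 hSp
    exact h6.trans h1
  have h7 := sum_beta l u (by omega : 0 < l) h d R0
  rw [← hp] at h7
  refine le_trans ?_ h7
  rw [← nsmul_eq_mul, ← Finset.sum_const]
  calc ∑ _x ∈ Finset.univ.filter (fun x : ι → Bool => D ≤ (SensSet out x).card), p ^ d / 2
      ≤ ∑ x ∈ Finset.univ.filter (fun x : ι → Bool => D ≤ (SensSet out x).card),
        beta p l u h x d R0 :=
        Finset.sum_le_sum (fun x hx => key x (Finset.mem_filter.1 hx).2)
    _ ≤ ∑ x : ι → Bool, beta p l u h x d R0 :=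
        Finset.sum_le_sum_of_subset_of_nonneg (Finset.filter_subset _ _)
          (fun x _ _ => beta_nonneg p hp0.le hp1 l u h x d R0)

end Pool.Agent.AC0IP
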