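import Pool.Agent.Lib.AC0IP.Sens

/-!
# Protocols for 3-SAT and for arbitrary languages (module Upper)

`upper_sat`: `Coin := Unit`, `Pub := Unit`, `len := v`, `ask := fun _ _ _ => false`,
`verdict _ h z := ` the assignment `y i := h.getD i false` satisfies the formula `z`. For fixed
`h` this is `∀ f ∈ A, f z = true` with `A := {f | ∃ cl, (∀ j, y (cl j).1 ≠ (cl j).2) ∧
f = fun z => !z cl}`, a single AND gate of literals (`Computed 1 1` with `lev := fun _ => 0`).
Completeness 1: the prover answers, after having received `k + 1` messages (the list of messages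
has length `k + 1`), the bit `y (v - 1 - k)` of a satisfying assignment (latest answer first, so
that the final list is `List.ofFn y`; or choose any other order convenient for you, e.g.
`y i := h.getD (v - 1 - i) false` and answers `y k`). The constant bit `ask` is `IsLit`.
Soundness 0: if `z` is unsatisfiable the verdict is always `false`; `accProb = 0`.
`upper_all`: the same with `len := Fintype.card ι`, the prover sends the input bit by bit, the
verdict for `h` is: if the word `y` given by `h` is in `L` then `∀ i, x i = y i` (one AND gate of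
literals `xor (x i) (!y i)`) else `false`.
-/

namespace Pool.Agent.AC0IP

/-- a verifier without coins and messages -/
private abbrev sv {ι : Type} (n : ℕ) (verd : List Bool → BF ι) : Verifier ι where
  Coin := Unit
  Pub := Unit
  len := n
  pub := fun _ _ => ()
  ask := fun _ _ _ => false
  verdict := fun _ h => verd h

private theorem sv_run {ι : Type} (n : ℕ) (verd : List Bool → BF ι) (y : ℕ → Bool)
    (x : ι → Bool) (k : ℕ) :
    ((sv n verd).run (fun m => y (m.length - 1)) () x k).1.length = k ∧
      ((sv n verd).run (fun m => y (m.length - 1)) () x k).2 =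
        ((List.range k).map y).reverse := by
  induction k with
  | zero => exact ⟨rfl, rfl⟩
  | succ k ih =>
    obtain ⟨h1, h2⟩ := ih
    set R := (sv n verd).run (fun m => y (m.length - 1)) () x k with hR
    constructor
    · change (((), false) :: R.1).length = k + 1
      rw [List.length_cons, h1]
    · change y ((((), false) :: R.1).length - 1) :: R.2 = _
      rw [List.length_cons, h1, h2, List.range_succ, List.map_append, List.reverse_append]
      simp

private theorem sv_acc {ι : Type} (n : ℕ) (verd : List Bool → BF ι) (P : (sv n verd).Prover)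
    (x : ι → Bool) :
    (sv n verd).accProb P x = if (sv n verd).accepts P () x = true then 1 else 0 := by
  unfold Verifier.accProb
  have hc : Nat.card (sv n verd).Coin = 1 := by
    change Nat.card Unit = 1
    simp
  rw [hc]
  split_ifs with h
  · have : Nat.card {ω : (sv n verd).Coin // (sv n verd).accepts P ω x = true} = 1 := by
      have : Unique {ω : (sv n verd).Coin // (sv n verd).accepts P ω x = true} :=
        { default := ⟨(), h⟩
          uniq := fun a => Subtype.ext rfl }
      exact Nat.card_unique
    rw [this]
    norm_num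
  · have : Nat.card {ω : (sv n verd).Coin // (sv n verd).accepts P ω x = true} = 0 := by
      have : IsEmpty {ω : (sv n verd).Coin // (sv n verd).accepts P ω x = true} :=
        ⟨fun a => h a.2⟩
      exact Nat.card_of_isEmpty
    rw [this]
    norm_num

private theorem computed_lit {ι : Type} {f : BF ι} (h : IsLit f) : Computed 1 1 f := by
  refine ⟨fun _ => 0, fun _ _ => false, fun _ => ⟨∅, by simp, Or.inl fun x => by simp⟩,
    fun _ => Nat.one_pos, Or.inl h⟩

private theorem computed_and {ι : Type} {f : BF ι} (A : Set (BF ι)) (hA : ∀ f ∈ A, IsLit f)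
    (h : ∀ x, f x = true ↔ ∀ f' ∈ A, f' x = true) : Computed 1 1 f :=
  ⟨fun _ => 0, fun _ => f, fun _ => ⟨A, fun f' hf' => Or.inl (hA f' hf'), Or.inr h⟩,
    fun _ => Nat.one_pos, Or.inr ⟨0, Or.inl fun _ => rfl⟩⟩

/-- the word given by a list of answers -/
private def wd {n : ℕ} (h : List Bool) (i : Fin n) : Bool := h.reverse.getD i false

private theorem wd_run {n : ℕ} (y : ℕ → Bool) (i : Fin n) :
    wd (((List.range n).map y).reverse) i = y i := by
  unfold wd
  rw [List.reverse_reverse, List.getD_eq_getElem?_getD, List.getElem?_map,
    List.getElem?_range i.2]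
  rfl

private theorem sv_decides {ι : Type} (n : ℕ) (verd : List Bool → BF ι) (L : Set (ι → Bool))
    (h1 : ∀ x ∈ L, ∃ y : ℕ → Bool, verd (((List.range n).map y).reverse) x = true)
    (h2 : ∀ x ∉ L, ∀ h, verd h x = false) :
    (sv n verd).Decides Set.univ L 1 0 := by
  constructor
  · intro x hx
    obtain ⟨y, hy⟩ := h1 x hx
    refine ⟨fun m => y (m.length - 1), Set.mem_univ _, ?_⟩
    rw [sv_acc, if_pos]
    change verd ((sv n verd).run (fun m => y (m.length - 1)) () x n).2 x = true
    rw [(sv_run n verd y x n).2]
    exact hy
  · intro x hx P _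
    rw [sv_acc, if_neg]
    change ¬ verd _ x = true
    rw [h2 x hx]
    exact Bool.false_ne_true

theorem upper_sat (k v : ℕ) : ∃ V : Verifier (Clause k v), V.len = v ∧ V.Small 1 1 ∧
    V.Decides Set.univ (SAT k v) 1 0 := by
  classical
  set verd : List Bool → BF (Clause k v) := fun h z =>
    decide (∀ cl : Clause k v, z cl = true → ∃ j, wd h (cl j).1 = (cl j).2) with hverd
  refine ⟨sv v verd, rfl, ?_, ?_⟩
  · intro ω h
    refine ⟨computed_lit (Or.inl ⟨false, fun _ => rfl⟩), ?_⟩
    refine computed_and {f | ∃ cl : Clause k v, (∀ j, wd h (cl j).1 ≠ (cl j).2) ∧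
      f = fun z => !z cl} ?_ ?_
    · rintro f ⟨cl, -, rfl⟩
      exact Or.inr ⟨cl, true, fun x => by simp⟩
    · intro z
      change decide _ = true ↔ _
      rw [decide_eq_true_iff]
      constructor
      · rintro h1 f ⟨cl, hcl, rfl⟩
        by_contra h2
        have h3 : z cl = true := by simpa using h2
        obtain ⟨j, hj⟩ := h1 cl h3
        exact hcl j hj
      · intro h1 cl hcl
        by_contra h2
        push Not at h2
        have h3 := h1 (fun z => !z cl) ⟨cl, h2, rfl⟩
        simp only [hcl] at h3
        exact absurd h3 (by decide)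
  · refine sv_decides v verd _ ?_ ?_
    · rintro z ⟨y, hy⟩
      refine ⟨fun n => if hn : n < v then y ⟨n, hn⟩ else false, ?_⟩
      rw [hverd]
      simp only [decide_eq_true_iff]
      intro cl hcl
      obtain ⟨j, hj⟩ := hy cl hcl
      refine ⟨j, ?_⟩
      rw [wd_run, dif_pos (cl j).1.2]
      exact hj
    · intro z hz h
      rw [hverd]
      simp only [decide_eq_false_iff_not]
      intro h1
      exact hz ⟨wd h, h1⟩

theorem upper_all (ι : Type) [Fintype ι] (L : Set (ι → Bool)) :
    ∃ V : Verifier ι, V.len = Fintype.card ι ∧ V.Small 1 1 ∧ V.Decides Set.univ L 1 0 := by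
  classical
  set e := Fintype.equivFin ι with he
  set verd : List Bool → BF ι := fun h x =>
    decide ((fun i => wd h (e i)) ∈ L ∧ ∀ i, x i = wd h (e i)) with hverd
  refine ⟨sv (Fintype.card ι) verd, rfl, ?_, ?_⟩
  · intro ω h
    refine ⟨computed_lit (Or.inl ⟨false, fun _ => rfl⟩), ?_⟩
    by_cases hL : (fun i => wd h (e i)) ∈ L
    · refine computed_and {f | ∃ i : ι, f = fun x => xor (x i) (!wd h (e i))} ?_ ?_
      · rintro f ⟨i, rfl⟩
        exact Or.inr ⟨i, _, fun x => rfl⟩
      · intro x
        change decide _ = true ↔ _
        rw [decide_eq_true_iff]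
        constructor
        · rintro ⟨-, h1⟩ f ⟨i, rfl⟩
          simp [h1 i]
        · intro h1
          refine ⟨hL, fun i => ?_⟩
          have h2 := h1 (fun x => xor (x i) (!wd h (e i))) ⟨i, rfl⟩
          simpa using h2
    · refine computed_lit (Or.inl ⟨false, fun x => ?_⟩)
      change decide _ = false
      rw [decide_eq_false_iff_not]
      exact fun h1 => hL h1.1
  · refine sv_decides _ verd _ ?_ ?_
    · intro x hx
      refine ⟨fun k => if hk : k < Fintype.card ι then x (e.symm ⟨k, hk⟩) else false, ?_⟩
      rw [hverd]
      simp only [decide_eq_true_iff]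
      have h1 : ∀ i, wd (((List.range (Fintype.card ι)).map
          (fun k => if hk : k < Fintype.card ι then x (e.symm ⟨k, hk⟩) else false)).reverse)
          (e i) = x i := by
        intro i
        rw [wd_run, dif_pos (e i).2]
        simp
      refine ⟨?_, fun i => (h1 i).symm⟩
      have h2 := funext h1
      rw [h2]
      exact hx
    · intro x hx h
      rw [hverd]
      simp only [decide_eq_false_iff_not]
      rintro ⟨h1, h2⟩
      apply hx
      have h3 : x = fun i => wd h (e i) := funext h2
      rw [h3]
      exact h1

end Pool.Agent.AC0IP
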