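import Mathlib

/-!
# Walks along the terms of a DNF, with encoding and decoding
-/

set_option linter.unusedSectionVars false

namespace Pool.Agent.AC0IP

variable {ι : Type} [DecidableEq ι]

/-- A term: the variables of the finite set take the values given by the function. -/
abbrev Term (ι : Type) : Type := Finset ι × (ι → Bool)

/-- The first term of the list not falsified by `z` outside `U` (the term without variables if
there is none). -/
def tm (L : List (Term ι)) (z : ι → Bool) (U : Finset ι) : Term ι :=
  (L.find? (fun T => decide (∀ i ∈ T.1, i ∉ U → z i = T.2 i))).getD (∅, fun _ => false)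

/-- The variables of `U` in the first term not falsified. -/
def newV (L : List (Term ι)) (z : ι → Bool) (U : Finset ι) : Finset ι := (tm L z U).1 ∩ U

/-- The remaining free variables after `k` steps of the walk. -/
def walk (L : List (Term ι)) (z : ι → Bool) : ℕ → Finset ι → Finset ι
  | 0, U => U
  | k + 1, U => walk L z k (U \ newV L z U)

/-- The assignment `y` changed on the variables met by the walk: they get the values which
satisfy the terms. -/
def sat (L : List (Term ι)) (z : ι → Bool) : ℕ → Finset ι → (ι → Bool) → (ι → Bool)
  | 0, _, y => y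
  | k + 1, U, y => fun i =>
      if i ∈ newV L z U then (tm L z U).2 i else sat L z k (U \ newV L z U) y i

theorem find_eq {α : Type} (L : List α) (p q : α → Bool) (hqp : ∀ T ∈ L, q T = true → p T = true)
    (hq : ∀ T, L.find? p = some T → q T = true) : L.find? q = L.find? p := by
  induction L with
  | nil => rfl
  | cons T L ih =>
    by_cases hT : p T = true
    · have h1 : (T :: L).find? p = some T := by rw [List.find?_cons, hT]
      have h2 : q T = true := hq T h1
      rw [h1, List.find?_cons, h2]
    · have h1 : (T :: L).find? p = L.find? p := by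
        rw [List.find?_cons]
        simp [hT]
      have h2 : ¬ q T = true := fun h => hT (hqp T (List.mem_cons_self ..) h)
      have h3 : (T :: L).find? q = L.find? q := by
        rw [List.find?_cons]
        simp [h2]
      rw [h1, h3]
      apply ih
      · intro T' hT' h
        exact hqp T' (List.mem_cons_of_mem _ hT') h
      · intro T' hT'
        exact hq T' (by rw [h1]; exact hT')

/-- The term found does not change if more variables are fixed, provided that they satisfy the
term. -/
theorem tm_eq (L : List (Term ι)) (z y : ι → Bool) (U W : Finset ι) (hWU : W ⊆ U)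
    (h1 : ∀ i, i ∉ U → y i = z i) (h2 : ∀ i ∈ newV L z U, y i = (tm L z U).2 i) :
    tm L y W = tm L z U := by
  unfold tm
  congr 1
  apply find_eq
  · intro T _ hq
    rw [decide_eq_true_eq] at hq ⊢
    intro i hi hiU
    rw [← h1 i hiU]
    exact hq i hi (fun h => hiU (hWU h))
  · intro T hT
    have h3 : tm L z U = T := by
      unfold tm
      rw [hT]
      rfl
    have h4 := List.find?_some hT
    rw [decide_eq_true_eq] at h4 ⊢
    intro i hi hiW
    by_cases hiU : i ∈ U
    · have h5 : i ∈ newV L z U := by
        unfold newV
        rw [h3]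
        exact Finset.mem_inter.2 ⟨hi, hiU⟩
      rw [h2 i h5, h3]
    · rw [h1 i hiU]
      exact h4 i hi hiU

theorem newV_subset (L : List (Term ι)) (z : ι → Bool) (U : Finset ι) : newV L z U ⊆ U :=
  Finset.inter_subset_right

theorem walk_subset (L : List (Term ι)) (z : ι → Bool) (k : ℕ) (U : Finset ι) :
    walk L z k U ⊆ U := by
  induction k generalizing U with
  | zero => exact Finset.Subset.refl _
  | succ k ih => exact (ih _).trans Finset.sdiff_subset

theorem sat_off (L : List (Term ι)) (z : ι → Bool) (k : ℕ) (U : Finset ι) (y : ι → Bool)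
    (i : ι) (hi : i ∉ U) : sat L z k U y i = y i := by
  induction k generalizing U with
  | zero => rfl
  | succ k ih =>
    have h1 : i ∉ newV L z U := fun h => hi (newV_subset L z U h)
    change (if i ∈ newV L z U then (tm L z U).2 i else sat L z k (U \ newV L z U) y i) = y i
    rw [if_neg h1]
    apply ih
    exact fun h => hi (Finset.sdiff_subset h)

theorem sat_congr (L : List (Term ι)) (z : ι → Bool) (k : ℕ) (U : Finset ι) (y y' : ι → Bool)
    (i : ι) (h : y i = y' i) : sat L z k U y i = sat L z k U y' i := by
  induction k generalizing U with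
  | zero => exact h
  | succ k ih =>
    change (if i ∈ newV L z U then (tm L z U).2 i else sat L z k (U \ newV L z U) y i) =
      (if i ∈ newV L z U then (tm L z U).2 i else sat L z k (U \ newV L z U) y' i)
    split_ifs
    · rfl
    · exact ih _

theorem sat_inner (L : List (Term ι)) (z : ι → Bool) (k : ℕ) (U : Finset ι) (y : ι → Bool)
    (i : ι) (hi : i ∈ walk L z k U) : sat L z k U y i = y i := by
  induction k generalizing U with
  | zero => rfl
  | succ k ih =>
    have h1 : i ∉ newV L z U := by
      intro h
      have := walk_subset L z k _ hi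
      exact (Finset.mem_sdiff.1 this).2 h
    change (if i ∈ newV L z U then (tm L z U).2 i else sat L z k (U \ newV L z U) y i) = y i
    rw [if_neg h1]
    exact ih _ hi

variable {l : ℕ}

open Classical in
/-- Code of the set `V` inside `A` together with the values of `z` and `x` on `V`; `pos` numbers
the elements of `A`. -/
noncomputable def code (pos : Finset ι → ι → Fin l) (A V : Finset ι) (z x : ι → Bool) :
    Fin l → Option (Bool × Bool) :=
  fun j => if h : ∃ i, i ∈ V ∧ pos A i = j then some (z h.choose, x h.choose) else none

theorem code_mem (pos : Finset ι → ι → Fin l) (A V : Finset ι) (z x : ι → Bool)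
    (hpos : Set.InjOn (pos A) (A : Set ι)) (hV : V ⊆ A) (i : ι) (hi : i ∈ V) :
    code pos A V z x (pos A i) = some (z i, x i) := by
  have h : ∃ i', i' ∈ V ∧ pos A i' = pos A i := ⟨i, hi, rfl⟩
  unfold code
  rw [dif_pos h]
  have h1 : h.choose = i := hpos (hV h.choose_spec.1) (hV hi) h.choose_spec.2
  rw [h1]

theorem code_notMem (pos : Finset ι → ι → Fin l) (A V : Finset ι) (z x : ι → Bool)
    (hpos : Set.InjOn (pos A) (A : Set ι)) (hV : V ⊆ A) (i : ι) (hi : i ∉ V) (hA : i ∈ A) :
    code pos A V z x (pos A i) = none := by
  have h : ¬ ∃ i', i' ∈ V ∧ pos A i' = pos A i := by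
    rintro ⟨i', h1, h2⟩
    have h3 : i' = i := hpos (hV h1) hA h2
    rw [h3] at h1
    exact hi h1
  unfold code
  rw [dif_neg h]

theorem code_congr (pos : Finset ι → ι → Fin l) (A V : Finset ι) (z x x' : ι → Bool)
    (h : ∀ i ∈ V, x i = x' i) : code pos A V z x = code pos A V z x' := by
  funext j
  unfold code
  by_cases hj : ∃ i, i ∈ V ∧ pos A i = j
  · rw [dif_pos hj, dif_pos hj, h _ hj.choose_spec.1]
  · rw [dif_neg hj, dif_neg hj]

/-- The number of entries different from `none`. -/
def som {k : ℕ} (c : Fin k → Fin l → Option (Bool × Bool)) : ℕ :=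
  ∑ a, ∑ j, if c a j = none then 0 else 1

theorem code_card (pos : Finset ι → ι → Fin l) (A V : Finset ι) (z x : ι → Bool)
    (hpos : Set.InjOn (pos A) (A : Set ι)) (hV : V ⊆ A) :
    (∑ j, if code pos A V z x j = none then 0 else 1) = V.card := by
  have h1 : (∑ j, if code pos A V z x j = none then 0 else 1) =
      (Finset.univ.filter (fun j => code pos A V z x j ≠ none)).card := by
    rw [Finset.card_filter]
    apply Finset.sum_congr rfl
    intro j _
    by_cases h : code pos A V z x j = none
    · rw [if_pos h, if_neg (not_not.2 h)]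
    · rw [if_neg h, if_pos h]
  have h2 : Finset.univ.filter (fun j => code pos A V z x j ≠ none) = V.image (pos A) := by
    ext j
    rw [Finset.mem_filter, Finset.mem_image]
    constructor
    · rintro ⟨-, hj⟩
      by_cases h : ∃ i, i ∈ V ∧ pos A i = j
      · exact h
      · exfalso
        apply hj
        unfold code
        rw [dif_neg h]
    · rintro ⟨i, hi, rfl⟩
      refine ⟨Finset.mem_univ _, ?_⟩
      rw [code_mem pos A V z x hpos hV i hi]
      exact Option.some_ne_none _
  rw [h1, h2]
  exact Finset.card_image_of_injOn (fun a ha b hb h => hpos (hV ha) (hV hb) h)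

/-- The advice of the encoding of a walk of `k` steps. -/
noncomputable def adv (pos : Finset ι → ι → Fin l) (L : List (Term ι)) (z x : ι → Bool) :
    (k : ℕ) → Finset ι → (Fin k → Fin l → Option (Bool × Bool))
  | 0, _ => Fin.elim0
  | k + 1, U => Fin.cons (code pos (tm L z U).1 (newV L z U) z x)
      (adv pos L z x k (U \ newV L z U))

theorem adv_congr (pos : Finset ι → ι → Fin l) (L : List (Term ι)) (z x x' : ι → Bool)
    (k : ℕ) (U : Finset ι) (h : ∀ i ∈ U, x i = x' i) :
    adv pos L z x k U = adv pos L z x' k U := by
  induction k generalizing U with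
  | zero => rfl
  | succ k ih =>
    change (Fin.cons (code pos (tm L z U).1 (newV L z U) z x)
      (adv pos L z x k (U \ newV L z U)) : Fin (k + 1) → Fin l → Option (Bool × Bool)) =
      Fin.cons (code pos (tm L z U).1 (newV L z U) z x')
      (adv pos L z x' k (U \ newV L z U))
    rw [ih _ (fun i hi => h i (Finset.sdiff_subset hi)),
      code_congr pos _ _ z x x' (fun i hi => h i (newV_subset L z U hi))]

theorem som_cons {k : ℕ} (c0 : Fin l → Option (Bool × Bool))
    (c : Fin k → Fin l → Option (Bool × Bool)) :
    som (Fin.cons c0 c : Fin (k + 1) → Fin l → Option (Bool × Bool)) =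
      (∑ j, if c0 j = none then 0 else 1) + som c := by
  unfold som
  rw [Fin.sum_univ_succ]
  simp only [Fin.cons_zero, Fin.cons_succ]

/-- The advice has as many entries as the walk meets variables. -/
theorem som_adv (pos : Finset ι → ι → Fin l) (L : List (Term ι)) (z x : ι → Bool)
    (hpos : ∀ A : Finset ι, A.card ≤ l → Set.InjOn (pos A) (A : Set ι))
    (hL : ∀ T ∈ L, T.1.card ≤ l) (k : ℕ) (U : Finset ι) :
    som (adv pos L z x k U) = (U \ walk L z k U).card := by
  have htm : ∀ U, (tm L z U).1.card ≤ l := by
    intro U
    unfold tm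
    cases h : L.find? (fun T => decide (∀ i ∈ T.1, i ∉ U → z i = T.2 i)) with
    | none => simp
    | some T =>
      simp only [Option.getD_some]
      exact hL T (List.mem_of_find?_eq_some h)
  induction k generalizing U with
  | zero =>
    unfold som
    simp [walk]
  | succ k ih =>
    change som (Fin.cons (code pos (tm L z U).1 (newV L z U) z x)
      (adv pos L z x k (U \ newV L z U)) : Fin (k + 1) → Fin l → Option (Bool × Bool)) =
      (U \ walk L z k (U \ newV L z U)).card
    rw [som_cons, ih, code_card pos _ _ z x (hpos _ (htm U))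
      (show newV L z U ⊆ (tm L z U).1 from Finset.inter_subset_left)]
    have h1 : U \ walk L z k (U \ newV L z U) =
        newV L z U ∪ ((U \ newV L z U) \ walk L z k (U \ newV L z U)) := by
      ext i
      simp only [Finset.mem_sdiff, Finset.mem_union]
      constructor
      · rintro ⟨h1, h2⟩
        by_cases h3 : i ∈ newV L z U
        · exact Or.inl h3
        · exact Or.inr ⟨⟨h1, h3⟩, h2⟩
      · rintro (h | ⟨⟨h1, h2⟩, h3⟩)
        · exact ⟨newV_subset L z U h,
            fun h' => (Finset.mem_sdiff.1 (walk_subset L z k _ h')).2 h⟩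
        · exact ⟨h1, h3⟩
    rw [h1, Finset.card_union_of_disjoint]
    rw [Finset.disjoint_left]
    intro i hi hi'
    exact (Finset.mem_sdiff.1 (Finset.mem_sdiff.1 hi').1).2 hi

/-- Decoding of a walk: the set of the variables met, and the original assignment. -/
def dcd (pos : Finset ι → ι → Fin l) (L : List (Term ι)) (W : Finset ι) :
    (k : ℕ) → (ι → Bool) → (Fin k → Fin l → Option (Bool × Bool)) → Finset ι × (ι → Bool)
  | 0, y, _ => (∅, y)
  | k + 1, y, c =>
    ((tm L y W).1.filter (fun i => (c 0 (pos (tm L y W).1 i)).isSome = true) ∪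
      (dcd pos L W k (fun i =>
        if i ∈ (tm L y W).1.filter (fun i => (c 0 (pos (tm L y W).1 i)).isSome = true) then
          ((c 0 (pos (tm L y W).1 i)).getD (false, false)).1 else y i) (Fin.tail c)).1,
      fun i => if i ∈ (tm L y W).1.filter (fun i => (c 0 (pos (tm L y W).1 i)).isSome = true) then
          ((c 0 (pos (tm L y W).1 i)).getD (false, false)).2 else
        (dcd pos L W k (fun i =>
        if i ∈ (tm L y W).1.filter (fun i => (c 0 (pos (tm L y W).1 i)).isSome = true) then
          ((c 0 (pos (tm L y W).1 i)).getD (false, false)).1 else y i) (Fin.tail c)).2 i)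

/-- The decoding inverts the encoding. -/
theorem dcd_sat (pos : Finset ι → ι → Fin l) (L : List (Term ι))
    (hpos : ∀ A : Finset ι, A.card ≤ l → Set.InjOn (pos A) (A : Set ι))
    (hL : ∀ T ∈ L, T.1.card ≤ l) (z : ι → Bool) (W' : Finset ι) (k : ℕ) (U : Finset ι)
    (x y : ι → Bool) (hz : ∀ i, i ∉ U → z i = x i) (hW' : W' ⊆ walk L z k U)
    (hy : ∀ i, i ∉ walk L z k U → y i = x i) :
    dcd pos L W' k (sat L z k U y) (adv pos L z x k U) = (U \ walk L z k U, y) := by
  have htm : ∀ U, (tm L z U).1.card ≤ l := by
    intro U
    unfold tm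
    cases h : L.find? (fun T => decide (∀ i ∈ T.1, i ∉ U → z i = T.2 i)) with
    | none => simp
    | some T =>
      simp only [Option.getD_some]
      exact hL T (List.mem_of_find?_eq_some h)
  induction k generalizing U x y with
  | zero => simp [dcd, walk, sat]
  | succ k ih =>
    have hwU : walk L z (k + 1) U ⊆ U := walk_subset L z (k + 1) U
    have hwV : walk L z (k + 1) U ⊆ U \ newV L z U := walk_subset L z k _
    set V := newV L z U with hV
    set T := tm L z U with hT
    set w := sat L z (k + 1) U y with hw
    have hw0 : ∀ i, i ∈ V → w i = T.2 i := by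
      intro i hi
      rw [hw]
      change (if i ∈ newV L z U then (tm L z U).2 i else sat L z k (U \ newV L z U) y i) = _
      rw [if_pos hi]
    have hw1 : ∀ i, i ∉ V → w i = sat L z k (U \ V) y i := by
      intro i hi
      rw [hw]
      change (if i ∈ newV L z U then (tm L z U).2 i else sat L z k (U \ newV L z U) y i) = _
      rw [if_neg hi]
    have htmw : tm L w W' = T := by
      apply tm_eq L z w U W' (hW'.trans hwU)
      · intro i hi
        rw [hw, sat_off L z (k + 1) U y i hi, hy i (fun h => hi (hwU h)), hz i hi]
      · intro i hi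
        exact hw0 i hi
    have hA : T.1.card ≤ l := htm U
    have hVA : V ⊆ T.1 := Finset.inter_subset_left
    have hc0 : (adv pos L z x (k + 1) U) 0 = code pos T.1 V z x := by
      change (Fin.cons (code pos (tm L z U).1 (newV L z U) z x)
        (adv pos L z x k (U \ newV L z U)) : Fin (k + 1) → Fin l → Option (Bool × Bool)) 0 = _
      rw [Fin.cons_zero]
    have hct : Fin.tail (adv pos L z x (k + 1) U) = adv pos L z x k (U \ V) := by
      change Fin.tail (Fin.cons (code pos (tm L z U).1 (newV L z U) z x)
        (adv pos L z x k (U \ newV L z U)) : Fin (k + 1) → Fin l → Option (Bool × Bool)) = _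
      rw [Fin.tail_cons]
    have hfil : T.1.filter (fun i => ((adv pos L z x (k + 1) U) 0 (pos T.1 i)).isSome = true)
        = V := by
      ext i
      rw [Finset.mem_filter, hc0]
      constructor
      · rintro ⟨h1, h2⟩
        by_contra h3
        rw [code_notMem pos T.1 V z x (hpos _ hA) hVA i h3 h1] at h2
        exact Bool.noConfusion h2
      · intro h1
        refine ⟨hVA h1, ?_⟩
        rw [code_mem pos T.1 V z x (hpos _ hA) hVA i h1]
        rfl
    have hinner : (fun i => if i ∈ V then
        (((adv pos L z x (k + 1) U) 0 (pos T.1 i)).getD (false, false)).1 else w i) =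
        sat L z k (U \ V) (fun i => if i ∈ V then z i else y i) := by
      funext i
      by_cases hi : i ∈ V
      · rw [if_pos hi, hc0, code_mem pos T.1 V z x (hpos _ hA) hVA i hi,
          sat_off L z k (U \ V) _ i (fun h => (Finset.mem_sdiff.1 h).2 hi), if_pos hi]
        rfl
      · rw [if_neg hi, hw1 i hi]
        apply sat_congr
        rw [if_neg hi]
    have hih := ih (U \ V) (fun i => if i ∈ V then z i else x i)
      (fun i => if i ∈ V then z i else y i)
      (by
        intro i hi
        by_cases hiV : i ∈ V
        · simp only [if_pos hiV]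
        · simp only [if_neg hiV]
          exact hz i (fun h => hi (Finset.mem_sdiff.2 ⟨h, hiV⟩)))
      hW'
      (by
        intro i hi
        by_cases hiV : i ∈ V
        · simp only [if_pos hiV]
        · simp only [if_neg hiV]
          exact hy i hi)
    have hadv : adv pos L z (fun i => if i ∈ V then z i else x i) k (U \ V) =
        adv pos L z x k (U \ V) := by
      apply adv_congr
      intro i hi
      rw [if_neg (Finset.mem_sdiff.1 hi).2]
    rw [hadv] at hih
    have hD : dcd pos L W' (k + 1) w (adv pos L z x (k + 1) U) =
        (V ∪ ((U \ V) \ walk L z k (U \ V)),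
          fun i => if i ∈ V then x i else (if i ∈ V then z i else y i)) := by
      unfold dcd
      rw [htmw, hfil, hinner, hct, hih]
      ext1
      · rfl
      · funext i
        by_cases hi : i ∈ V
        · simp only [if_pos hi]
          rw [hc0, code_mem pos T.1 V z x (hpos _ hA) hVA i hi]
          rfl
        · simp only [if_neg hi]
    rw [hD]
    ext1
    · ext i
      simp only [Finset.mem_union, Finset.mem_sdiff]
      constructor
      · rintro (h | ⟨⟨h1, h2⟩, h3⟩)
        · exact ⟨newV_subset L z U h, fun h' => (Finset.mem_sdiff.1 (hwV h')).2 h⟩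
        · exact ⟨h1, h3⟩
      · rintro ⟨h1, h2⟩
        by_cases h3 : i ∈ V
        · exact Or.inl h3
        · exact Or.inr ⟨⟨h1, h3⟩, h2⟩
    · funext i
      by_cases hi : i ∈ V
      · simp only [if_pos hi]
        exact (hy i (fun h' => (Finset.mem_sdiff.1 (hwV h')).2 hi)).symm
      · simp only [if_neg hi]

/-- The walk meets at most `k l` variables. -/
theorem card_walk (L : List (Term ι)) (z : ι → Bool) (hL : ∀ T ∈ L, T.1.card ≤ l) (k : ℕ)
    (U : Finset ι) : (U \ walk L z k U).card ≤ k * l := by
  have htm : ∀ U, (tm L z U).1.card ≤ l := by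
    intro U
    unfold tm
    cases h : L.find? (fun T => decide (∀ i ∈ T.1, i ∉ U → z i = T.2 i)) with
    | none => simp
    | some T =>
      simp only [Option.getD_some]
      exact hL T (List.mem_of_find?_eq_some h)
  induction k generalizing U with
  | zero => simp [walk]
  | succ k ih =>
    have h1 : U \ walk L z (k + 1) U ⊆
        newV L z U ∪ ((U \ newV L z U) \ walk L z k (U \ newV L z U)) := by
      intro i hi
      rw [Finset.mem_sdiff] at hi
      rw [Finset.mem_union, Finset.mem_sdiff, Finset.mem_sdiff]
      by_cases h3 : i ∈ newV L z U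
      · exact Or.inl h3
      · exact Or.inr ⟨⟨hi.1, h3⟩, hi.2⟩
    have h2 := (Finset.card_le_card h1).trans (Finset.card_union_le _ _)
    have h3 : (newV L z U).card ≤ l := (Finset.card_le_card Finset.inter_subset_left).trans (htm U)
    have h4 := ih (U \ newV L z U)
    calc _ ≤ _ := h2
      _ ≤ l + k * l := Nat.add_le_add h3 h4
      _ = (k + 1) * l := by ring

end Pool.Agent.AC0IP
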